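import Pool.Agent.W_55e37b_h43.Geom

set_option autoImplicit false

/-!
# MP_55e37b_an, large p: a bounded nonconvex domain with positive mean curvature
-/

open MeasureTheory Metric Set Filter Topology
open scoped ENNReal

namespace HMor

variable {n : ℕ}

/-- The function `(1 + 2 t² - t⁴)/4 - |y|²` of `x = (t, y)`, `t` the first coordinate. -/
noncomputable def dumbFun (n : ℕ) (i0 : Fin n) (x : E n) : ℝ :=
  (1 + 6 * x i0 ^ 2 - x i0 ^ 4) / 4 - ‖x‖ ^ 2

/-- The domain `{(t, y) ∈ ℝ × ℝ^(n-1) : |y|² < (1 + 2 t² - t⁴)/4}`. -/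
def Dumb (n : ℕ) (i0 : Fin n) : Set (E n) := {x | 0 < dumbFun n i0 x}

private lemma coord_contDiff (i0 : Fin n) : ContDiff ℝ 2 (fun x : E n => x i0) :=
  (EuclideanSpace.proj i0 : E n →L[ℝ] ℝ).contDiff

lemma dumb_contDiff (n : ℕ) (i0 : Fin n) : ContDiff ℝ 2 (dumbFun n i0) := by
  have h1 := coord_contDiff i0
  have h2 : ContDiff ℝ 2 (fun x : E n => (1 + 6 * x i0 ^ 2 - x i0 ^ 4) / 4) := by
    exact (((contDiff_const.add (contDiff_const.mul (h1.pow 2))).sub (h1.pow 4)).div_const 4)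
  exact h2.sub (contDiff_norm_sq ℝ)

lemma dumb_fderiv (i0 : Fin n) (x v : E n) : fderiv ℝ (dumbFun n i0) x v =
    (3 * x i0 - x i0 ^ 3) * v i0 - 2 * inner ℝ x v := by
  have h0 : HasFDerivAt (fun x : E n => x i0) (EuclideanSpace.proj i0 : E n →L[ℝ] ℝ) x :=
    (EuclideanSpace.proj i0 : E n →L[ℝ] ℝ).hasFDerivAt
  have hn : HasFDerivAt (fun x : E n => ‖x‖ ^ 2) (2 • (innerSL ℝ x)) x :=
    (hasStrictFDerivAt_norm_sq x).hasFDerivAt
  have h2 := (((h0.pow 2).const_mul 6).const_add 1).sub (h0.pow 4)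
  have h3 := (h2.mul_const (1 / 4)).sub hn
  have h4 : dumbFun n i0 = fun x : E n =>
      (1 + 6 * x i0 ^ 2 - x i0 ^ 4) * (1 / 4) - ‖x‖ ^ 2 := by
    funext x
    unfold dumbFun
    ring
  rw [h4]
  have h5 := h3.fderiv
  have h6 := congrArg (fun L : E n →L[ℝ] ℝ => L v) h5
  refine h6.trans ?_
  simp
  ring

lemma dumb_gradient (i0 : Fin n) (x : E n) : gradient (dumbFun n i0) x =
    (3 * x i0 - x i0 ^ 3) • EuclideanSpace.single i0 (1 : ℝ) - (2 : ℝ) • x := by
  refine ext_inner_right ℝ fun v => ?_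
  rw [BasicsAux.inner_gradient', dumb_fderiv, inner_sub_left, real_inner_smul_left,
    real_inner_smul_left, EuclideanSpace.inner_single_left]
  simp

lemma dumb_hess (i0 : Fin n) (x v w : E n) : hess (dumbFun n i0) x v w =
    (3 - 3 * x i0 ^ 2) * v i0 * w i0 - 2 * inner ℝ v w := by
  have hf2 : DifferentiableAt ℝ (fderiv ℝ (dumbFun n i0)) x :=
    ((dumb_contDiff n i0).fderiv_right (m := 1) (by norm_num)).differentiable (by norm_num) x
  have h1 : hess (dumbFun n i0) x v w =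
      fderiv ℝ (fun y => fderiv ℝ (dumbFun n i0) y w) x v := by
    unfold hess
    rw [fderiv_clm_apply hf2 (differentiableAt_const w)]
    simp
  rw [h1]
  have h2 : (fun y => fderiv ℝ (dumbFun n i0) y w) =
      fun y : E n => (3 * y i0 - y i0 ^ 3) * w i0 - 2 * inner ℝ w y := by
    funext y
    rw [dumb_fderiv, real_inner_comm]
  rw [h2]
  have h0 : HasFDerivAt (fun x : E n => x i0) (EuclideanSpace.proj i0 : E n →L[ℝ] ℝ) x :=
    (EuclideanSpace.proj i0 : E n →L[ℝ] ℝ).hasFDerivAt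
  have h3 : HasFDerivAt (fun y : E n => (inner ℝ w y : ℝ)) (innerSL ℝ w : E n →L[ℝ] ℝ) x :=
    (innerSL ℝ w : E n →L[ℝ] ℝ).hasFDerivAt
  have h4 := (((h0.const_mul 3).sub (h0.pow 3)).mul_const (w i0)).sub (h3.const_mul 2)
  have h6 := congrArg (fun L : E n →L[ℝ] ℝ => L v) h4.fderiv
  refine h6.trans ?_
  simp [real_inner_comm]
  ring

/-- `|y|² ≥ t²`. -/
private lemma coord_sq_le (i0 : Fin n) (y : E n) : y i0 ^ 2 ≤ ‖y‖ ^ 2 := by
  rw [EuclideanSpace.real_norm_sq_eq]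
  exact Finset.single_le_sum (f := fun i => y i ^ 2) (fun i _ => sq_nonneg _) (Finset.mem_univ i0)

lemma dumb_grad_norm (i0 : Fin n) (y : E n) : ‖gradient (dumbFun n i0) y‖ ^ 2 =
    (y i0 - y i0 ^ 3) ^ 2 + 4 * (‖y‖ ^ 2 - y i0 ^ 2) := by
  rw [dumb_gradient, norm_sub_sq_real, norm_smul, norm_smul, real_inner_smul_left,
    real_inner_smul_right, EuclideanSpace.inner_single_left, EuclideanSpace.norm_single]
  simp only [norm_one, mul_one, map_one, one_mul, Real.norm_eq_abs, sq_abs, mul_pow]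
  ring

lemma dumb_tanLap (i0 : Fin n) (y : E n) : tanLap (dumbFun n i0) y =
    4 * (5 - 3 * y i0 ^ 2 - 2 * n) * (‖y‖ ^ 2 - y i0 ^ 2) -
      (2 * n - 2) * (y i0 - y i0 ^ 3) ^ 2 := by
  have h1 : (∑ k : Fin n, hess (dumbFun n i0) y (EuclideanSpace.single k 1)
      (EuclideanSpace.single k 1)) = (3 - 3 * y i0 ^ 2) - 2 * n := by
    simp only [dumb_hess]
    have h2 : ∀ k : Fin n, (3 - 3 * y i0 ^ 2) * (EuclideanSpace.single k (1 : ℝ) : E n) i0 *
        (EuclideanSpace.single k (1 : ℝ) : E n) i0 -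
        2 * inner ℝ (EuclideanSpace.single k (1 : ℝ) : E n) (EuclideanSpace.single k 1) =
        (if i0 = k then (3 - 3 * y i0 ^ 2) else 0) - 2 := by
      intro k
      rw [EuclideanSpace.inner_single_left]
      by_cases hk : i0 = k
      · subst hk
        simp
      · simp [hk]
    rw [Finset.sum_congr rfl fun k _ => h2 k, Finset.sum_sub_distrib]
    simp
    ring
  have h3 : gradient (dumbFun n i0) y i0 = y i0 - y i0 ^ 3 := by
    rw [dumb_gradient]
    simp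
    ring
  have h4 := dumb_grad_norm i0 y
  unfold tanLap
  rw [h1, dumb_hess, h3, real_inner_self_eq_norm_sq, h4]
  ring

/-- On the boundary the gradient does not vanish and the mean curvature is positive. -/
lemma dumb_boundary (hn : 3 ≤ n) (i0 : Fin n) (y : E n) (hy : dumbFun n i0 y = 0) :
    gradient (dumbFun n i0) y ≠ 0 ∧ tanLap (dumbFun n i0) y < 0 := by
  have hn3 : (3 : ℝ) ≤ n := by exact_mod_cast hn
  have hc := coord_sq_le i0 y
  have hpos : 0 < (y i0 - y i0 ^ 3) ^ 2 + 4 * (‖y‖ ^ 2 - y i0 ^ 2) := by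
    by_contra hcon
    have h1 : (y i0 - y i0 ^ 3) ^ 2 = 0 := by nlinarith [sq_nonneg (y i0 - y i0 ^ 3)]
    have h2 : ‖y‖ ^ 2 = y i0 ^ 2 := by nlinarith [sq_nonneg (y i0 - y i0 ^ 3)]
    have h3 : y i0 * (1 - y i0 ^ 2) = 0 := by
      have h4 := pow_eq_zero_iff (two_ne_zero) |>.1 h1
      linarith
    unfold dumbFun at hy
    rw [h2] at hy
    rcases mul_eq_zero.1 h3 with h | h
    · rw [h] at hy
      norm_num at hy
    · have h5 : y i0 ^ 2 = 1 := by linarith
      have h6 : y i0 ^ 4 = 1 := by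
        have : y i0 ^ 4 = (y i0 ^ 2) ^ 2 := by ring
        rw [this, h5, one_pow]
      rw [h6, h5] at hy
      norm_num at hy
  constructor
  · intro h0
    have h1 := dumb_grad_norm i0 y
    rw [h0, norm_zero] at h1
    norm_num at h1
    linarith
  · rw [dumb_tanLap]
    have h5 : 4 * (5 - 3 * y i0 ^ 2 - 2 * n) * (‖y‖ ^ 2 - y i0 ^ 2) ≤
        4 * (-1) * (‖y‖ ^ 2 - y i0 ^ 2) := by
      refine mul_le_mul_of_nonneg_right ?_ (by linarith)
      nlinarith [sq_nonneg (y i0)]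
    have h6 : (1 : ℝ) * (y i0 - y i0 ^ 3) ^ 2 ≤ (2 * n - 2) * (y i0 - y i0 ^ 3) ^ 2 :=
      mul_le_mul_of_nonneg_right (by linarith) (sq_nonneg _)
    nlinarith [sq_nonneg (y i0 - y i0 ^ 3)]

/-- `x` is in the domain iff `|y|² < (1 + 2 t² - t⁴)/4`. -/
lemma mem_dumb (i0 : Fin n) (x : E n) :
    x ∈ Dumb n i0 ↔ ‖x‖ ^ 2 - x i0 ^ 2 < (1 + 2 * x i0 ^ 2 - x i0 ^ 4) / 4 := by
  unfold Dumb dumbFun
  rw [mem_ofPred_eq]
  constructor <;> intro h <;> linarith

lemma dumb_bounded (i0 : Fin n) : Bornology.IsBounded (Dumb n i0) := by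
  refine (isBounded_closedBall (x := (0 : E n)) (r := 2)).subset fun x hx => ?_
  rw [mem_closedBall_zero_iff]
  rw [mem_dumb] at hx
  have hc := coord_sq_le i0 x
  have h1 : x i0 ^ 2 ≤ 3 := by
    by_contra hcon
    have : 3 < x i0 ^ 2 := not_le.1 hcon
    nlinarith
  refine le_of_sq_le_sq ?_ (by norm_num)
  nlinarith [sq_nonneg (x i0 ^ 2 - 1)]

lemma dumb_open (i0 : Fin n) : IsOpen (Dumb n i0) :=
  isOpen_lt continuous_const (dumb_contDiff n i0).continuous

/-- Shrink `|y|` to `0`, then move along the axis. -/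
lemma dumb_connected (i0 : Fin n) : IsConnected (Dumb n i0) := by
  have h0 : (0 : E n) ∈ Dumb n i0 := by
    rw [mem_dumb]
    simp
  refine ⟨⟨0, h0⟩, ?_⟩
  refine (isPreconnected_of_forall (0 : E n) fun x hx => ?_)
  -- the segment from `x` to its projection and the segment from there to `0`
  set t : ℝ := x i0 with ht
  set P : E n := EuclideanSpace.single i0 t with hP
  rw [mem_dumb] at hx
  have hc := coord_sq_le i0 x
  have hPi : P i0 = t := by rw [hP]; simp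
  have hPn : ‖P‖ ^ 2 = t ^ 2 := by
    rw [hP, EuclideanSpace.norm_single, Real.norm_eq_abs, sq_abs]
  have hxP : inner ℝ x P = t ^ 2 := by
    rw [hP, EuclideanSpace.inner_single_right]
    simp [ht]
    ring
  have ha : 0 < (1 + 2 * t ^ 2 - t ^ 4) / 4 := by linarith
  have hseg1 : segment ℝ x P ⊆ Dumb n i0 := by
    rintro z ⟨a, b, ha0, hb0, hab, rfl⟩
    rw [mem_dumb]
    have h1 : (a • x + b • P) i0 = t := by
      simp only [PiLp.add_apply, PiLp.smul_apply, smul_eq_mul, hPi, ← ht]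
      rw [← add_mul, hab, one_mul]
    have h2 : ‖a • x + b • P‖ ^ 2 = a ^ 2 * ‖x‖ ^ 2 + (1 - a ^ 2) * t ^ 2 := by
      rw [norm_add_sq_real, norm_smul, norm_smul, real_inner_smul_left, real_inner_smul_right,
        hxP, Real.norm_eq_abs, Real.norm_eq_abs, mul_pow, mul_pow, sq_abs, sq_abs, hPn]
      have : b = 1 - a := by linarith
      rw [this]
      ring
    rw [h1, h2]
    have ha1 : a ^ 2 ≤ 1 := by nlinarith
    have h3 : a ^ 2 * (‖x‖ ^ 2 - t ^ 2) ≤ 1 * (‖x‖ ^ 2 - t ^ 2) :=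
      mul_le_mul_of_nonneg_right ha1 (by linarith)
    linarith
  have hseg2 : segment ℝ P 0 ⊆ Dumb n i0 := by
    rintro z ⟨a, b, ha0, hb0, hab, rfl⟩
    rw [mem_dumb]
    have h1 : (a • P + b • (0 : E n)) i0 = a * t := by
      simp [hPi]
    have h2 : ‖a • P + b • (0 : E n)‖ ^ 2 = (a * t) ^ 2 := by
      rw [smul_zero, add_zero, norm_smul, Real.norm_eq_abs, mul_pow, sq_abs, hPn]
      ring
    rw [h1, h2, sub_self]
    have ha1 : a ^ 2 ≤ 1 := by nlinarith
    have ha2 : 0 ≤ a ^ 2 := sq_nonneg a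
    -- `1 + 2 s - s²` is positive at `s = a² t²` because `s ≤ t²` and it is positive at `t²`
    have hs : a ^ 2 * t ^ 2 ≤ t ^ 2 := mul_le_of_le_one_left (sq_nonneg t) ha1
    have hs0 : 0 ≤ a ^ 2 * t ^ 2 := by positivity
    have h5 : 0 < 1 + 2 * (a ^ 2 * t ^ 2) - (a ^ 2 * t ^ 2) ^ 2 := by
      by_contra hcon
      have h6 : 1 + 2 * (a ^ 2 * t ^ 2) - (a ^ 2 * t ^ 2) ^ 2 ≤ 0 := not_lt.1 hcon
      have h7 : 2 ≤ a ^ 2 * t ^ 2 := by
        by_contra h8
        have : a ^ 2 * t ^ 2 < 2 := not_le.1 h8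
        nlinarith
      nlinarith
    have h6 : (1 + 2 * (a * t) ^ 2 - (a * t) ^ 4) / 4 =
        (1 + 2 * (a ^ 2 * t ^ 2) - (a ^ 2 * t ^ 2) ^ 2) / 4 := by ring
    rw [h6]
    linarith
  have hPseg1 : P ∈ segment ℝ x P := right_mem_segment ℝ x P
  have hPseg2 : P ∈ segment ℝ P 0 := left_mem_segment ℝ P 0
  refine ⟨segment ℝ x P ∪ segment ℝ P 0, union_subset hseg1 hseg2,
    Or.inr (right_mem_segment ℝ P 0), Or.inl (left_mem_segment ℝ x P), ?_⟩
  exact IsPreconnected.union P hPseg1 hPseg2 (convex_segment x P).isPreconnected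
    (convex_segment P 0).isPreconnected

/-- The points `(1, y)` and `(-1, y)` with `|y|² = 1/3` are in the domain, their midpoint is not. -/
lemma dumb_not_convex (hn : 2 ≤ n) (i0 : Fin n) : ¬ Convex ℝ (Dumb n i0) := by
  intro hconv
  obtain ⟨i1, h01⟩ : ∃ i1 : Fin n, i1 ≠ i0 := by
    have : Nontrivial (Fin n) := Fin.nontrivial_iff_two_le.2 hn
    exact exists_ne i0
  have hs3 : (0 : ℝ) < 1 / 3 := by norm_num
  set r : ℝ := Real.sqrt (1 / 3) with hr
  have hr2 : r ^ 2 = 1 / 3 := Real.sq_sqrt hs3.le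
  set A : E n := EuclideanSpace.single i0 (1 : ℝ) with hA
  set Q : E n := EuclideanSpace.single i1 r with hQ
  have hAi : A i0 = 1 := by rw [hA]; simp
  have hQi : Q i0 = 0 := by rw [hQ]; simp [Ne.symm h01]
  have hAn : ‖A‖ ^ 2 = 1 := by rw [hA, EuclideanSpace.norm_single]; simp
  have hQn : ‖Q‖ ^ 2 = 1 / 3 := by
    rw [hQ, EuclideanSpace.norm_single, Real.norm_eq_abs, sq_abs, hr2]
  have hAQ : inner ℝ Q A = (0 : ℝ) := by
    rw [hA, EuclideanSpace.inner_single_right, hQi]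
    simp
  have hp : Q + A ∈ Dumb n i0 := by
    rw [mem_dumb, norm_add_sq_real, hAn, hQn, hAQ]
    simp only [PiLp.add_apply, hAi, hQi]
    norm_num
  have hm : Q - A ∈ Dumb n i0 := by
    rw [mem_dumb, norm_sub_sq_real, hAn, hQn, hAQ]
    simp only [PiLp.sub_apply, hAi, hQi]
    norm_num
  have hmid := hconv hp hm (by norm_num : (0 : ℝ) ≤ 1 / 2) (by norm_num : (0 : ℝ) ≤ 1 / 2)
    (by norm_num)
  have h1 : (1 / 2 : ℝ) • (Q + A) + (1 / 2 : ℝ) • (Q - A) = Q := by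
    rw [← smul_add]
    have : Q + A + (Q - A) = (2 : ℝ) • Q := by
      rw [two_smul]
      abel
    rw [this, smul_smul]
    norm_num
  rw [h1, mem_dumb, hQi, hQn] at hmid
  norm_num at hmid

end HMor
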