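import Pool.Agent.W_MP_55e37b_an.Defs
import Pool.Agent.W_MP_55e37b_an.Sim

set_option autoImplicit false

/-!
# MP_55e37b_an, large p: a finite group which averages quadratic forms
-/

open MeasureTheory Metric Set Filter Topology
open scoped ENNReal

namespace HMor

variable {n : ℕ}

/-- The trace of `B` on the orthogonal complement of the unit vector `e`. -/
noncomputable def trp (B : E n →L[ℝ] E n) (e : E n) : ℝ :=
  ∑ k : Fin n, inner ℝ (B (EuclideanSpace.single k 1)) (EuclideanSpace.single k (1 : ℝ)) -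
    inner ℝ (B e) e

/-- The trace does not depend on the orthonormal basis. -/
lemma trp_basis (B : E n →L[ℝ] E n) (b : OrthonormalBasis (Fin n) ℝ (E n)) (i0 : Fin n) :
    trp B (b i0) = ∑ k ∈ Finset.univ.erase i0, inner ℝ (B (b k)) (b k) := by
  have h1 := LinearMap.trace_eq_sum_inner (𝕜 := ℝ) (B : E n →ₗ[ℝ] E n) b
  have h2 := LinearMap.trace_eq_sum_inner (𝕜 := ℝ) (B : E n →ₗ[ℝ] E n)
    (EuclideanSpace.basisFun (Fin n) ℝ)
  have h3 : ∑ k : Fin n, inner ℝ (B (EuclideanSpace.single k 1))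
      (EuclideanSpace.single k (1 : ℝ)) = ∑ k, inner ℝ (B (b k)) (b k) := by
    have e1 : ∑ k : Fin n, inner ℝ (B (EuclideanSpace.single k 1))
        (EuclideanSpace.single k (1 : ℝ)) = LinearMap.trace ℝ (E n) (B : E n →ₗ[ℝ] E n) := by
      rw [h2]
      refine Finset.sum_congr rfl fun k _ => ?_
      rw [real_inner_comm]
      simp
    have e2 : ∑ k, inner ℝ (B (b k)) (b k) = LinearMap.trace ℝ (E n) (B : E n →ₗ[ℝ] E n) := by
      rw [h1]
      refine Finset.sum_congr rfl fun k _ => ?_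
      rw [real_inner_comm]
      simp
    rw [e1, e2]
  rw [trp, h3, Finset.sum_erase_eq_sub (Finset.mem_univ i0)]

/-- An orthonormal basis starting with `e`. -/
lemma exists_basis (hn : 0 < n) {e : E n} (he : ‖e‖ = 1) :
    ∃ b : OrthonormalBasis (Fin n) ℝ (E n), b ⟨0, hn⟩ = e := by
  have hv : Orthonormal ℝ (({(⟨0, hn⟩ : Fin n)} : Set (Fin n)).domRestrict
      (fun _ : Fin n => e)) := by
    constructor
    · intro i
      simpa using he
    · intro i j hij
      exact absurd (Subsingleton.elim i j) hij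
  obtain ⟨b, hb⟩ := hv.exists_orthonormalBasis_extension_of_card_eq (by simp)
  exact ⟨b, hb _ (by simp)⟩

/-- The sign change `t ↦ u t` of the line. -/
noncomputable def sgn (u : ℤˣ) : ℝ ≃ₗᵢ[ℝ] ℝ :=
  if u = 1 then LinearIsometryEquiv.refl ℝ ℝ else LinearIsometryEquiv.neg ℝ

lemma sgn_apply (u : ℤˣ) (t : ℝ) : sgn u t = ((u : ℤ) : ℝ) * t := by
  rcases Int.units_eq_one_or u with h | h
  · simp [sgn, h]
  · have : ¬ ((-1 : ℤˣ) = 1) := by decide
    simp [sgn, h, this]

/-- Signs: `1` at `0`. -/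
def sg {m : ℕ} (σ : Fin m → ℤˣ) : Fin (m + 1) → ℤˣ := Fin.cons 1 σ

/-- The cyclic shift by `c` of the nonzero indices. -/
def shf {m : ℕ} [NeZero m] (c : Fin m) : Equiv.Perm (Fin (m + 1)) :=
  (finSuccEquiv m).trans ((Equiv.addRight c).optionCongr.trans (finSuccEquiv m).symm)

lemma shf_symm_zero {m : ℕ} [NeZero m] (c : Fin m) : (shf c).symm 0 = 0 := by
  rw [Equiv.symm_apply_eq]
  simp [shf]

lemma shf_symm_succ {m : ℕ} [NeZero m] (c j : Fin m) :
    (shf c).symm j.succ = (j - c).succ := by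
  rw [Equiv.symm_apply_eq]
  simp [shf]

/-- The isometry with coordinates `(Rx)_k = σ_k x_(τ⁻¹ k)`. -/
noncomputable def RR {m : ℕ} [NeZero m] (b : OrthonormalBasis (Fin (m + 1)) ℝ (E (m + 1)))
    (i : (Fin m → ℤˣ) × Fin m) : E (m + 1) ≃ₗᵢ[ℝ] E (m + 1) :=
  b.repr.trans ((LinearIsometryEquiv.piLpCongrLeft 2 ℝ ℝ (shf i.2)).trans
    ((LinearIsometryEquiv.piLpCongrRight 2 (fun k => sgn (sg i.1 k))).trans b.repr.symm))

lemma RR_repr {m : ℕ} [NeZero m] (b : OrthonormalBasis (Fin (m + 1)) ℝ (E (m + 1)))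
    (i : (Fin m → ℤˣ) × Fin m) (x : E (m + 1)) (k : Fin (m + 1)) :
    b.repr (RR b i x) k = ((sg i.1 k : ℤ) : ℝ) * b.repr x ((shf i.2).symm k) := by
  simp only [RR, LinearIsometryEquiv.trans_apply, LinearIsometryEquiv.apply_symm_apply,
    LinearIsometryEquiv.piLpCongrRight_apply]
  rw [sgn_apply]
  rfl

lemma sum_sign {m : ℕ} (j l : Fin m) (hjl : j ≠ l) :
    ∑ σ : Fin m → ℤˣ, (((σ j : ℤ) : ℝ) * ((σ l : ℤ) : ℝ)) = 0 := by
  have h := Fintype.sum_equiv (Equiv.mulLeft (Function.update (1 : Fin m → ℤˣ) j (-1)))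
    (fun σ : Fin m → ℤˣ => (((σ j : ℤ) : ℝ) * ((σ l : ℤ) : ℝ)))
    (fun σ : Fin m → ℤˣ => -(((σ j : ℤ) : ℝ) * ((σ l : ℤ) : ℝ))) (by
      intro σ
      simp [Function.update_of_ne hjl.symm])
  rw [Finset.sum_neg_distrib] at h
  linarith

lemma sum_sign_self {m : ℕ} (j : Fin m) :
    ∑ σ : Fin m → ℤˣ, (((σ j : ℤ) : ℝ) * ((σ j : ℤ) : ℝ)) = (2 : ℝ) ^ m := by
  have h1 : ∀ σ : Fin m → ℤˣ, (((σ j : ℤ) : ℝ) * ((σ j : ℤ) : ℝ)) = 1 := by
    intro σ
    rcases Int.units_eq_one_or (σ j) with h | h <;> simp [h]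
  simp only [h1, Finset.sum_const, Finset.card_univ, nsmul_eq_mul, mul_one]
  simp

/-- Signed cyclic shifts of the coordinates `1, ..., n-1` in an orthonormal basis `b` with `b 0 = e`:
for `σ : Fin m → {1,-1}` and `c : Fin m` (`n = m + 1`) let
`R x = x_0 b_0 + ∑ k, σ k * x_(k + c) b_k`.  Averaging over `σ` kills the terms
`⟪B b_k, b_l⟫`, `k ≠ l`; averaging over `c` gives `(1/m) ∑ k, ⟪B b_k, b_k⟫ ‖x‖²`.  (The `R` can be
built from `LinearIsometryEquiv.piLpCongrLeft`, `LinearIsometryEquiv.piLpCongrRight` and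
`b.repr`.) -/
theorem design (hn : 2 ≤ n) {e : E n} (he : ‖e‖ = 1) :
    ∃ (N : ℕ) (R : Fin N → (E n ≃ₗᵢ[ℝ] E n)), 0 < N ∧ (∀ i, R i e = e) ∧
      ∀ (B : E n →L[ℝ] E n) (x : E n), inner ℝ x e = (0 : ℝ) →
        ∑ i, inner ℝ (B (R i x)) (R i x) = N / ((n : ℝ) - 1) * trp B e * ‖x‖ ^ 2 := by
  obtain ⟨m, rfl⟩ : ∃ m, n = m + 1 := ⟨n - 1, by omega⟩
  have : NeZero m := ⟨by omega⟩
  obtain ⟨b, hb⟩ := exists_basis (Nat.succ_pos m) he
  have hb0 : b 0 = e := hb
  let f := Fintype.equivFin ((Fin m → ℤˣ) × Fin m)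
  refine ⟨Fintype.card ((Fin m → ℤˣ) × Fin m), fun i => RR b (f.symm i), Fintype.card_pos, ?_, ?_⟩
  · intro i
    apply b.repr.injective
    ext k
    rw [RR_repr, ← hb0]
    simp only [OrthonormalBasis.repr_self]
    refine Fin.cases ?_ (fun j => ?_) k
    · rw [shf_symm_zero]
      simp [sg]
    · rw [shf_symm_succ]
      simp
  · intro B x hx
    have hsum : ∑ i : Fin (Fintype.card ((Fin m → ℤˣ) × Fin m)),
        inner ℝ (B (RR b (f.symm i) x)) (RR b (f.symm i) x) =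
        ∑ i : (Fin m → ℤˣ) × Fin m, inner ℝ (B (RR b i x)) (RR b i x) :=
      Fintype.sum_equiv f.symm _ _ (fun i => rfl)
    rw [hsum]
    set X : Fin (m + 1) → ℝ := fun k => b.repr x k with hX
    have hX0 : X 0 = 0 := by
      rw [hX]
      show b.repr x 0 = 0
      rw [b.repr_apply_apply, hb0, real_inner_comm]
      exact hx
    set M : Fin (m + 1) → Fin (m + 1) → ℝ := fun k l => inner ℝ (B (b k)) (b l) with hM
    have hq : ∀ y : E (m + 1), inner ℝ (B y) y =
        ∑ k, ∑ l, b.repr y k * b.repr y l * M k l := by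
      intro y
      conv_lhs => rw [← b.sum_repr y]
      rw [map_sum, sum_inner]
      refine Finset.sum_congr rfl fun k _ => ?_
      rw [inner_sum]
      refine Finset.sum_congr rfl fun l _ => ?_
      rw [map_smul, real_inner_smul_left, real_inner_smul_right]
      ring
    have hterm : ∀ i : (Fin m → ℤˣ) × Fin m, inner ℝ (B (RR b i x)) (RR b i x) =
        ∑ j : Fin m, ∑ l : Fin m, (((i.1 j : ℤ) : ℝ) * ((i.1 l : ℤ) : ℝ)) *
          (X (j - i.2).succ * X (l - i.2).succ * M j.succ l.succ) := by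
      intro i
      rw [hq, Fin.sum_univ_succ]
      have h0 : ∑ l, b.repr (RR b i x) 0 * b.repr (RR b i x) l * M 0 l = 0 := by
        apply Finset.sum_eq_zero
        intro l _
        rw [RR_repr, shf_symm_zero]
        have : b.repr x 0 = 0 := hX0
        rw [this]
        ring
      rw [h0, zero_add]
      refine Finset.sum_congr rfl fun j _ => ?_
      rw [Fin.sum_univ_succ]
      have h0 : b.repr (RR b i x) j.succ * b.repr (RR b i x) 0 * M j.succ 0 = 0 := by
        rw [RR_repr b i x 0, shf_symm_zero]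
        have : b.repr x 0 = 0 := hX0
        rw [this]
        ring
      rw [h0, zero_add]
      refine Finset.sum_congr rfl fun l _ => ?_
      rw [RR_repr, RR_repr, shf_symm_succ, shf_symm_succ]
      simp only [sg, Fin.cons_succ, hX]
      ring
    simp only [hterm]
    rw [Fintype.sum_prod_type_right]
    have hc : ∀ c : Fin m, ∑ σ : Fin m → ℤˣ, ∑ j : Fin m, ∑ l : Fin m,
        (((σ j : ℤ) : ℝ) * ((σ l : ℤ) : ℝ)) * (X (j - c).succ * X (l - c).succ * M j.succ l.succ) =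
        ∑ j : Fin m, (2 : ℝ) ^ m * (X (j - c).succ ^ 2 * M j.succ j.succ) := by
      intro c
      rw [Finset.sum_comm]
      refine Finset.sum_congr rfl fun j _ => ?_
      rw [Finset.sum_comm, Finset.sum_eq_single j]
      · rw [← Finset.sum_mul, sum_sign_self]
        ring
      · intro l _ hlj
        rw [← Finset.sum_mul, sum_sign j l (Ne.symm hlj), zero_mul]
      · intro h
        exact absurd (Finset.mem_univ j) h
    simp only [hc]
    rw [Finset.sum_comm]
    have hnorm : ∑ j : Fin m, X j.succ ^ 2 = ‖x‖ ^ 2 := by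
      have h1 : ‖x‖ ^ 2 = ∑ k, ‖b.repr x k‖ ^ 2 := by
        rw [← b.repr.norm_map x, EuclideanSpace.norm_sq_eq]
      rw [h1, Fin.sum_univ_succ]
      have : b.repr x 0 = 0 := hX0
      rw [this]
      simp [hX]
    have hshift : ∀ j : Fin m, ∑ c : Fin m, X (j - c).succ ^ 2 = ‖x‖ ^ 2 := by
      intro j
      rw [← hnorm]
      exact Fintype.sum_equiv (Equiv.subLeft j) _ _ (fun c => rfl)
    have hj : ∀ j : Fin m, ∑ c : Fin m, (2 : ℝ) ^ m * (X (j - c).succ ^ 2 * M j.succ j.succ) =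
        (2 : ℝ) ^ m * ‖x‖ ^ 2 * M j.succ j.succ := by
      intro j
      rw [← Finset.mul_sum, ← Finset.sum_mul, hshift]
      ring
    simp only [hj]
    rw [← Finset.mul_sum]
    have htr : trp B e = ∑ j : Fin m, M j.succ j.succ := by
      rw [← hb0, trp_basis B b 0]
      have h1 : ∑ k, inner ℝ (B (b k)) (b k) = inner ℝ (B (b 0)) (b 0) +
          ∑ j : Fin m, M j.succ j.succ := Fin.sum_univ_succ _
      rw [Finset.sum_erase_eq_sub (Finset.mem_univ 0), h1]
      ring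
    rw [← htr]
    have hm0 : ((m : ℕ) : ℝ) ≠ 0 := by exact_mod_cast NeZero.ne m
    have hcard : (Fintype.card ((Fin m → ℤˣ) × Fin m) : ℝ) = (2 : ℝ) ^ m * m := by
      rw [Fintype.card_prod]
      simp
    rw [hcard]
    have h9 : ((m + 1 : ℕ) : ℝ) - 1 = m := by push_cast; ring
    rw [h9]
    field_simp

end HMor
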