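import Pool.Agent.W_MP_55e37b_an.Defs
import Pool.Agent.W_55e37b_h43.Design

set_option autoImplicit false

/-!
# MP_55e37b_an, large p: uniformly strictly mean convex open sets
-/

open MeasureTheory Metric Set Filter Topology
open scoped ENNReal

namespace HMor

variable {n : ℕ}

/-- `Ω` is uniformly strictly mean convex: for every `x ∈ Ω` and every nearest point `y ∉ Ω`, with
`ν = (x - y) / |x - y|`, there is an operator `B` of norm at most `C`, with trace at least `τ` on the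
orthogonal complement of `ν`, such that the points `y + z + s ν` with `z ⊥ ν`, `|z| ≤ δ` and
`-δ ≤ s ≤ ⟪B z, z⟫ / 2` do not belong to `Ω`. -/
def StrictlyMeanConvex (Ω : Set (E n)) (C τ δ : ℝ) : Prop :=
  ∀ x ∈ Ω, ∀ y ∉ Ω, dist x y = infDist x Ωᶜ →
    ∃ B : E n →L[ℝ] E n, ‖B‖ ≤ C ∧ τ ≤ trp B (‖x - y‖⁻¹ • (x - y)) ∧
      ∀ z : E n, inner ℝ z (x - y) = (0 : ℝ) → ‖z‖ ≤ δ → ∀ s : ℝ, -δ ≤ s →
        s ≤ inner ℝ (B z) z / 2 → y + z + s • (‖x - y‖⁻¹ • (x - y)) ∉ Ω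

/-- The distance to the complement is bounded.  Choose an orthonormal basis `b` with `b 0 = ν`
(`exists_basis`); by `trp_basis` some `k ≠ 0` has `⟪B (b k), b k⟫ ≥ τ / (n - 1)`.  With `δ' ≤ δ` small
(`C δ'² ≤ 2 δ`) and `z = δ' b k`, `s = ⟪B z, z⟫ / 2 > 0`, the point `y + z + s ν` is not in `Ω`, so its distance
to `x` is at least `d`: `δ'² + (d - s)² ≥ d²`, `2 d s ≤ δ'² + s²`,
`d ≤ (n - 1) / τ + C δ'² / 4`. -/
theorem StrictlyMeanConvex.dist_le (hn : 2 ≤ n) {C τ δ : ℝ} (hC : 0 < C) (hτ : 0 < τ)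
    (hδ : 0 < δ) :
    ∃ κ : ℝ, 0 < κ ∧ ∀ Ω : Set (E n), IsOpen Ω → Ω ≠ univ → StrictlyMeanConvex Ω C τ δ →
      ∀ x ∈ Ω, infDist x Ωᶜ ≤ κ := by
  have hn0 : (0 : ℝ) < n := by
    have h1 : 0 < n := by omega
    exact_mod_cast h1
  refine ⟨n / τ + C * δ ^ 2 / 4, by positivity, fun Ω hΩ hΩ' h x hx => ?_⟩
  have hne : (Ωᶜ).Nonempty := nonempty_compl.2 hΩ'
  obtain ⟨y, hy, hxy⟩ := hΩ.isClosed_compl.exists_infDist_eq_dist hne x
  have hxy0 : x ≠ y := fun h' => hy (h' ▸ hx)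
  have hd : 0 < ‖x - y‖ := norm_pos_iff.2 (sub_ne_zero.2 hxy0)
  obtain ⟨B, hB, hτB, hz⟩ := h x hx y hy hxy.symm
  set d : ℝ := ‖x - y‖ with hdd
  set ν : E n := d⁻¹ • (x - y) with hνd
  have hν : ‖ν‖ = 1 := by
    rw [hνd, norm_smul, norm_inv, Real.norm_eq_abs, abs_of_pos hd, ← hdd,
      inv_mul_cancel₀ hd.ne']
  have hxyν : x - y = d • ν := by
    rw [hνd, smul_smul, mul_inv_cancel₀ hd.ne', one_smul]
  obtain ⟨b, hb⟩ := exists_basis (by omega : 0 < n) hν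
  have htr := trp_basis B b ⟨0, by omega⟩
  rw [hb] at htr
  obtain ⟨k, hk, hβ⟩ : ∃ k ∈ Finset.univ.erase (⟨0, by omega⟩ : Fin n),
      τ / n ≤ inner ℝ (B (b k)) (b k) := by
    by_contra hcon
    push Not at hcon
    have h1 : ∑ k ∈ Finset.univ.erase (⟨0, by omega⟩ : Fin n), inner ℝ (B (b k)) (b k) ≤
        ∑ k ∈ Finset.univ.erase (⟨0, by omega⟩ : Fin n), τ / n :=
      Finset.sum_le_sum fun k hk => (hcon k hk).le
    rw [Finset.sum_const, Finset.card_erase_of_mem (Finset.mem_univ _), Finset.card_univ,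
      Fintype.card_fin, nsmul_eq_mul, Nat.cast_sub (by omega), Nat.cast_one] at h1
    have h2 : ((n : ℝ) - 1) * (τ / n) < τ := by
      have h3 : ((n : ℝ) - 1) * (τ / n) = τ - τ / n := by field_simp
      rw [h3]
      have h4 : 0 < τ / n := by positivity
      linarith
    linarith
  set β : ℝ := inner ℝ (B (b k)) (b k) with hβd
  have hβ0 : 0 < β := lt_of_lt_of_le (by positivity) hβ
  have hβC : β ≤ C := by
    calc β ≤ ‖B (b k)‖ * ‖b k‖ := real_inner_le_norm _ _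
      _ ≤ (‖B‖ * ‖b k‖) * ‖b k‖ := by gcongr; exact B.le_opNorm _
      _ = ‖B‖ := by rw [b.norm_eq_one]; ring
      _ ≤ C := hB
  have hkν : inner ℝ (b k) ν = (0 : ℝ) := by
    rw [← hb]
    exact b.inner_eq_zero (Finset.ne_of_mem_erase hk)
  set s : ℝ := inner ℝ (B (δ • b k)) (δ • b k) / 2 with hs
  have hsβ : s = δ ^ 2 * β / 2 := by
    rw [hs, map_smul, real_inner_smul_left, real_inner_smul_right]
    ring
  have hs0 : 0 < s := by rw [hsβ]; positivity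
  have hout := hz (δ • b k) (by rw [hxyν, real_inner_smul_left, real_inner_smul_right, hkν]; ring)
    (by rw [norm_smul, b.norm_eq_one, mul_one, Real.norm_eq_abs, abs_of_pos hδ]) s
    (by linarith) le_rfl
  have h1 : infDist x Ωᶜ ≤ dist x (y + δ • b k + s • ν) := infDist_le_dist_of_mem hout
  rw [hxy, dist_eq_norm, dist_eq_norm, ← hdd] at h1
  have h2 : x - (y + δ • b k + s • ν) = (d - s) • ν - δ • b k := by
    have h3 : x - (y + δ • b k + s • ν) = (x - y) - s • ν - δ • b k := by abel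
    rw [h3, hxyν, sub_smul]
  have h4 : ‖(d - s) • ν - δ • b k‖ ^ 2 = (d - s) ^ 2 + δ ^ 2 := by
    rw [norm_sub_sq_real, norm_smul (d - s) ν, norm_smul δ (b k), hν, b.norm_eq_one, real_inner_smul_left,
      real_inner_smul_right, real_inner_comm, hkν, mul_one, mul_one, Real.norm_eq_abs,
      Real.norm_eq_abs, sq_abs, sq_abs]
    ring
  have h5 : d ^ 2 ≤ (d - s) ^ 2 + δ ^ 2 := by
    rw [← h4, ← h2]
    exact pow_le_pow_left₀ hd.le h1 2
  have h6 : 2 * d * s ≤ δ ^ 2 + s ^ 2 := by linarith [h5, sub_sq d s]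
  rw [hxy, dist_eq_norm, ← hdd]
  have h7 : 1 ≤ n / τ * β := by
    have h8 : n / τ * (τ / n) ≤ n / τ * β := mul_le_mul_of_nonneg_left hβ (by positivity)
    have h9 : (n : ℝ) / τ * (τ / n) = 1 := by field_simp
    linarith
  have h10 : 2 * s * d ≤ 2 * s * (n / τ + C * δ ^ 2 / 4) := by
    have h11 : 2 * s * (n / τ) = δ ^ 2 * (n / τ * β) := by rw [hsβ]; ring
    have h12 : δ ^ 2 * 1 ≤ δ ^ 2 * (n / τ * β) := mul_le_mul_of_nonneg_left h7 (by positivity)
    have h13 : s ≤ δ ^ 2 * C / 2 := by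
      rw [hsβ]
      gcongr
    have h14 : s * s ≤ s * (δ ^ 2 * C / 2) := mul_le_mul_of_nonneg_left h13 hs0.le
    nlinarith
  exact le_of_mul_le_mul_left h10 (by positivity)

end HMor
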