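import Pool.Agent.W_55e37b_h43.Main
import Pool.Agent.W_55e37b_h43.SMC
import Pool.Agent.W_MP_55e37b_an.Attain
import Pool.Agent.W_MP_55e37b_an.Bridge
import Pool.Agent.W_55e37b_h14.LamLe

set_option autoImplicit false

/-!
# MP_55e37b_an, large p: the conclusion
-/

open MeasureTheory Metric Set Filter Topology
open scoped ENNReal

namespace HMor

variable {n : ℕ}

/-- The strict local inequality.  `x ∈ Ω`, `y` a nearest point of the complement, `d = |x - y|`,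
`ν = (x - y)/d`, `e' = -ν`, `F = {z : x + d z ∉ Ω}`.  `F` is admissible and contains
`para e' B d δ` (for `z = z' + t e'` one has `x + d z = y + d z' + d (1 - t) ν`).  By `para_lt`
`cH p e' < cp p F`; `z ↦ u (x + d z) / u x` is a competitor for `F` of energy
`d ^ (p - n) * energy / |u x| ^ p` (`IsD.comp_sim`, `energy_comp_sim`, `IsD.const_mul`); `cH_eq`. -/
theorem local_lt (n : ℕ) (hn : 2 ≤ n) {C τ δ : ℝ} (hC : 0 < C) (hτ : 0 < τ) (hδ : 0 < δ) :
    ∃ p0 : ℝ, (n : ℝ) < p0 ∧ ∀ p : ℝ, p0 ≤ p → ∀ Ω : Set (E n), IsOpen Ω → Ω ≠ univ →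
      StrictlyMeanConvex Ω C τ δ → ∀ e : E n, ‖e‖ = 1 → ∀ (u : E n → ℝ) (g : E n → E n), IsD0 p Ω u g → ∀ x ∈ Ω, u x ≠ 0 →
        cH p e < (infDist x Ωᶜ) ^ (p - n) * energy p g / |u x| ^ p := by
  obtain ⟨κ1, hκ1, hdist'⟩ := StrictlyMeanConvex.dist_le hn hC hτ hδ
  obtain ⟨p0, hp0, hmain⟩ := para_lt n hn C τ κ1 δ hC hτ hκ1 hδ
  have hn2 : (2 : ℝ) ≤ n := by exact_mod_cast hn
  refine ⟨p0, hp0, fun p hp Ω hΩ hΩ' h e he u g hu x hx hux => ?_⟩
  have hdist := hdist' Ω hΩ hΩ' h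
  have hpn : (n : ℝ) < p := lt_of_lt_of_le hp0 hp
  have hp1 : 1 ≤ p := by linarith
  have hne : (Ωᶜ).Nonempty := nonempty_compl.2 hΩ'
  obtain ⟨y, hy, hxy⟩ := hΩ.isClosed_compl.exists_infDist_eq_dist hne x
  have hxy0 : x ≠ y := fun h' => hy (h' ▸ hx)
  have hd : 0 < ‖x - y‖ := norm_pos_iff.2 (sub_ne_zero.2 hxy0)
  obtain ⟨B, hB, hτB, hz⟩ := h x hx y hy hxy.symm
  have hdκ : ‖x - y‖ ≤ κ1 := by
    rw [← dist_eq_norm, ← hxy]
    exact hdist x hx
  have hdd : infDist x Ωᶜ = ‖x - y‖ := by rw [hxy, dist_eq_norm]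
  rw [hdd]
  generalize hdef : ‖x - y‖ = d at *
  obtain ⟨ν, hνd⟩ : ∃ ν : E n, ν = d⁻¹ • (x - y) := ⟨_, rfl⟩
  rw [← hνd] at hτB
  simp only [← hνd] at hz
  have hν : ‖ν‖ = 1 := by
    rw [hνd, norm_smul, norm_inv, Real.norm_eq_abs, abs_of_pos hd, hdef, inv_mul_cancel₀ hd.ne']
  have hνν : inner ℝ ν ν = (1 : ℝ) := by rw [real_inner_self_eq_norm_sq, hν, one_pow]
  have hxyν : x - y = d • ν := by
    rw [hνd, smul_smul, mul_inv_cancel₀ hd.ne', one_smul]
  have hxν : x = y + d • ν := by rw [← hxyν]; abel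
  -- the set `F`
  have hF : Adm {z : E n | x + d • z ∉ Ω} := by
    refine ⟨?_, fun h0 => ?_⟩
    · have hc : Continuous fun z : E n => x + d • z := by fun_prop
      exact hΩ.isClosed_compl.preimage hc
    · have h1 : x + d • (0 : E n) ∉ Ω := h0
      rw [smul_zero, add_zero] at h1
      exact h1 hx
  have hpara : para (-ν) B d δ ⊆ {z : E n | x + d • z ∉ Ω} := by
    rintro z ⟨hz1, hz2, hz3⟩
    obtain ⟨t, ht⟩ : ∃ t : ℝ, t = inner ℝ z (-ν) := ⟨_, rfl⟩
    rw [← ht] at hz1 hz2 hz3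
    obtain ⟨z', hz'⟩ : ∃ z' : E n, z' = z - t • (-ν) := ⟨_, rfl⟩
    rw [← hz'] at hz1 hz3
    have hz'ν : inner ℝ z' ν = (0 : ℝ) := by
      have e1 : inner ℝ z ν = -t := by rw [ht, inner_neg_right, neg_neg]
      rw [hz', inner_sub_left, real_inner_smul_left, inner_neg_left, hνν, e1]
      ring
    have hzz : z = z' - t • ν := by
      rw [hz', smul_neg]
      abel
    show x + d • z ∉ Ω
    have h1 := hz (d • z') ?_ ?_ (d * (1 - t)) ?_ ?_
    · have h2 : y + d • z' + (d * (1 - t)) • ν = x + d • z := by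
        rw [hxν, hzz, smul_sub, smul_smul, mul_sub, mul_one, sub_smul]
        abel
      rwa [h2] at h1
    · rw [hxyν, real_inner_smul_left, real_inner_smul_right, hz'ν]
      ring
    · rw [norm_smul, Real.norm_eq_abs, abs_of_pos hd, mul_comm]
      exact (le_div_iff₀ hd).1 hz1
    · have h3 : d * (δ / d) = δ := by field_simp
      nlinarith
    · rw [map_smul, real_inner_smul_left, real_inner_smul_right]
      have h4 := mul_le_mul_of_nonneg_left hz3 hd.le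
      calc d * (1 - t) ≤ d * (d / 2 * inner ℝ (B z') z') := h4
        _ = d * (d * inner ℝ (B z') z') / 2 := by ring
  have hBe : τ ≤ trp B (-ν) := by
    have h1 : trp B (-ν) = trp B ν := by
      unfold trp
      rw [map_neg, inner_neg_left, inner_neg_right, neg_neg]
    rw [h1]
    exact hτB
  have hlt := hmain p hp (-ν) (by rw [norm_neg, hν]) B hB hBe d hd hdκ _ hF hpara
  have hcomp : Comp p {z : E n | x + d • z ∉ Ω}
      (fun z => (u x)⁻¹ * u (x + d • (LinearIsometryEquiv.refl ℝ (E n)) z))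
      (fun z => (u x)⁻¹ • (d • (LinearIsometryEquiv.refl ℝ (E n)).symm
        (g (x + d • (LinearIsometryEquiv.refl ℝ (E n)) z)))) := by
    refine ⟨(hu.isD.comp_sim hp1 (LinearIsometryEquiv.refl ℝ (E n)) x hd).const_mul hp1 _,
      fun z hz => ?_, ?_⟩
    · show (u x)⁻¹ * u (x + d • z) = 0
      rw [hu.zero _ hz, mul_zero]
    · show (u x)⁻¹ * u (x + d • (0 : E n)) = 1
      rw [smul_zero, add_zero, inv_mul_cancel₀ hux]
  have hle := cp_le hcomp
  rw [Exist.energy_smul, energy_comp_sim p g _ x hd, abs_inv,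
    Real.inv_rpow (abs_nonneg _)] at hle
  rw [cH_eq (by omega : 1 ≤ n) hpn he (show ‖(-ν : E n)‖ = 1 by rw [norm_neg, hν])]
  refine hlt.trans_le (hle.trans (le_of_eq ?_))
  rw [inv_mul_eq_div]

/-- The conclusion (`ratio_attained`, `lam_halfspace`, `lam_le_halfspace`). -/
theorem smc_main (n : ℕ) (hn : 2 ≤ n) {C τ δ : ℝ} (hC : 0 < C) (hτ : 0 < τ) (hδ : 0 < δ) :
    ∃ p0 : ℝ, (n : ℝ) < p0 ∧ ∀ p : ℝ, p0 ≤ p → ∀ Ω : Set (E n), IsOpen Ω → Ω.Nonempty →
      Ω ≠ univ → StrictlyMeanConvex Ω C τ δ → ∀ e : E n, ‖e‖ = 1 →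
      lam p Ω = lam p (halfspace e 0) ∧ ¬ HasExtremal p Ω := by
  obtain ⟨p0, hp0, hloc'⟩ := local_lt n hn hC hτ hδ
  refine ⟨p0, hp0, fun p hp Ω hΩ hne hΩ' h e he => ?_⟩
  have hloc := hloc' p hp Ω hΩ hΩ' h
  have hpn : (n : ℝ) < p := lt_of_lt_of_le hp0 hp
  have hn1 : 1 ≤ n := by omega
  have hcpos := cH_pos hn1 hpn he
  have hstrict : ∀ (u : E n → ℝ) (g : E n → E n), IsD0 p Ω u g → u ≠ 0 →
      ENNReal.ofReal (cH p e) < ratio p Ω u g := by
    intro u g hu hu0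
    obtain ⟨x, hx, hux, hr⟩ := ratio_attained hn1 hpn hΩ hΩ' hu hu0
    rw [hr]
    have h1 := hloc e he u g hu x hx hux
    exact (ENNReal.ofReal_lt_ofReal_iff (hcpos.trans h1)).2 h1
  have hlam : lam p Ω = lam p (halfspace e 0) := by
    refine le_antisymm (lam_le_halfspace hn hpn he hΩ hne hΩ') ?_
    rw [lam_halfspace hn1 hpn he]
    unfold lam
    refine le_iInf fun u => le_iInf fun g => le_iInf fun hu => le_iInf fun hu0 => ?_
    exact (hstrict u g hu hu0).le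
  refine ⟨hlam, ?_⟩
  rintro ⟨u, g, hu, hu0, hr⟩
  have h1 := hstrict u g hu hu0
  rw [hr, hlam, lam_halfspace hn1 hpn he] at h1
  exact lt_irrefl _ h1

end HMor
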