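import Pool.Agent.W_55e37b_h43.SMC

set_option autoImplicit false

/-!
# MP_55e37b_an, large p: bounded `C²` domains with positive mean curvature
-/

open MeasureTheory Metric Set Filter Topology
open scoped ENNReal

namespace HMor

variable {n : ℕ}

/-- The second derivative of `f` at `y` in the directions `v`, `w`. -/
noncomputable def hess (f : E n → ℝ) (y v w : E n) : ℝ := fderiv ℝ (fderiv ℝ f) y v w

/-- `|∇f|²` times the trace of the second derivative of `f` on the tangent space of the level set: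
`(∑ k, D²f(e_k, e_k)) |∇f|² - D²f(∇f, ∇f)`, which is `-|∇f|³` times the mean curvature of the boundary
of `{f > 0}`. -/
noncomputable def tanLap (f : E n → ℝ) (y : E n) : ℝ :=
  (∑ k : Fin n, hess f y (EuclideanSpace.single k 1) (EuclideanSpace.single k 1)) *
    ‖gradient f y‖ ^ 2 - hess f y (gradient f y) (gradient f y)

private lemma Geom_inner_gradient (f : E n → ℝ) (x v : E n) :
    inner ℝ (gradient f x) v = fderiv ℝ f x v := by
  rw [← toDual_gradient, InnerProductSpace.toDual_apply_apply]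

private lemma Geom_line (y w : E n) (t : ℝ) : HasDerivAt (fun t : ℝ => y + t • w) w t := by
  have h := ((hasDerivAt_id t).smul_const w).const_add y
  rw [one_smul] at h
  exact h

private lemma Geom_bound {T : Type*} [NormedAddCommGroup T] {K : Set (E n)} (hK : IsCompact K)
    {F : E n → T} (hF : Continuous F) : ∃ M : ℝ, ∀ y ∈ K, ‖F y‖ ≤ M :=
  hK.exists_bound_of_continuousOn hF.continuousOn

private lemma Geom_unif {T : Type*} [NormedAddCommGroup T] {K : Set (E n)} (hK : IsCompact K)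
    {F : E n → T} (hF : Continuous F) {ω : ℝ} (hω : 0 < ω) :
    ∃ ρ : ℝ, 0 < ρ ∧ ∀ y ∈ K, ∀ z : E n, dist y z < ρ → ‖F z - F y‖ ≤ ω := by
  have h1 := hK.uniformContinuousAt_of_continuousAt F
    (fun y _ => hF.continuousAt) (Metric.dist_mem_uniformity hω)
  rw [Metric.mem_uniformity_dist] at h1
  obtain ⟨ρ, hρ, h2⟩ := h1
  refine ⟨ρ, hρ, fun y hy z hyz => ?_⟩
  have h4 : dist (F y) (F z) < ω := h2 hyz hy
  rw [← dist_eq_norm, dist_comm]
  exact h4.le

/-- At a nearest boundary point `y` of `x` one has `f y = 0` and `(x - y)/|x - y| = ∇f y / |∇f y|`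
(`f > 0` in the ball of radius `|x - y|` about `x`, `f y = 0`, so `⟪∇f y, w⟫ ≥ 0` for every `w` with
`⟪w, x - y⟫ > 0`). -/
lemma geom_normal {f : E n → ℝ} (hf : ContDiff ℝ 2 f) {x y : E n} (hx : 0 < f x) (hy : f y ≤ 0)
    (hd : dist x y = infDist x {z | 0 < f z}ᶜ) (hg : y ∈ frontier {z | 0 < f z} → gradient f y ≠ 0) :
    f y = 0 ∧ y ∈ frontier {z | 0 < f z} ∧
      ‖x - y‖⁻¹ • (x - y) = ‖gradient f y‖⁻¹ • gradient f y := by
  have hcont : Continuous f := hf.continuous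
  have hopen : IsOpen {z | 0 < f z} := isOpen_lt continuous_const hcont
  have hxy : x ≠ y := by
    rintro rfl
    linarith
  have hd0 : 0 < dist x y := dist_pos.2 hxy
  have hball : ∀ z, dist z x < dist x y → 0 < f z := by
    intro z hz
    by_contra hz0
    have hz1 : z ∈ {z | 0 < f z}ᶜ := hz0
    have h1 := infDist_le_dist_of_mem (x := x) hz1
    rw [← hd, dist_comm x z] at h1
    linarith
  have hcl : y ∈ closure {z | 0 < f z} := by
    have h1 : ball x (dist x y) ⊆ {z | 0 < f z} := fun z hz => hball z hz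
    have h2 : y ∈ closure (ball x (dist x y)) := by
      rw [closure_ball x hd0.ne']
      exact mem_closedBall'.2 le_rfl
    exact closure_mono h1 h2
  have hfy : f y = 0 := by
    have h3 : closure {z | 0 < f z} ⊆ {z | 0 ≤ f z} :=
      closure_lt_subset_le continuous_const hcont
    exact le_antisymm hy (h3 hcl)
  have hfr : y ∈ frontier {z | 0 < f z} := by
    rw [frontier, hopen.interior_eq]
    refine ⟨hcl, fun h => ?_⟩
    have h4 : 0 < f y := h
    linarith
  refine ⟨hfy, hfr, ?_⟩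
  have hG := hg hfr
  obtain ⟨v, hv⟩ : ∃ v, v = x - y := ⟨_, rfl⟩
  obtain ⟨G, hGd⟩ : ∃ G, G = gradient f y := ⟨_, rfl⟩
  have hv0 : v ≠ 0 := by
    rw [hv]
    exact sub_ne_zero.2 hxy
  have hvn : 0 < ‖v‖ := norm_pos_iff.2 hv0
  have key : ∀ w : E n, 0 < (inner ℝ w v : ℝ) → 0 ≤ (inner ℝ G w : ℝ) := by
    intro w hw
    have h1 : HasDerivAt (fun t : ℝ => f (y + t • w)) (inner ℝ G w) 0 := by
      have h2 : HasFDerivAt f (fderiv ℝ f y) (y + (0 : ℝ) • w) := by
        rw [zero_smul, add_zero]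
        exact ((hf.differentiable (by norm_num)) y).hasFDerivAt
      rw [hGd, Geom_inner_gradient]
      exact h2.comp_hasDerivAt 0 (Geom_line y w 0)
    refine ge_of_tendsto h1.tendsto_slope_zero_right ?_
    have hT : 0 < (inner ℝ w v : ℝ) / (‖w‖ ^ 2 + 1) := div_pos hw (by positivity)
    filter_upwards [Ioo_mem_nhdsGT hT] with t ht
    have ht0 : 0 < t := ht.1
    have ht1 : t * (‖w‖ ^ 2 + 1) < inner ℝ w v := by
      have h3 := ht.2
      rwa [lt_div_iff₀ (by positivity)] at h3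
    have h4 : dist (y + t • w) x < dist x y := by
      rw [dist_eq_norm, dist_eq_norm, ← hv]
      have h5 : y + t • w - x = t • w - v := by
        rw [hv]
        abel
      rw [h5]
      refine lt_of_pow_lt_pow_left₀ 2 (norm_nonneg _) ?_
      rw [norm_sub_sq_real, norm_smul, real_inner_smul_left, Real.norm_eq_abs, abs_of_pos ht0]
      nlinarith
    have h6 := hball _ h4
    rw [zero_add, zero_smul, add_zero, hfy, sub_zero, smul_eq_mul]
    exact mul_nonneg (inv_nonneg.2 ht0.le) h6.le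
  have hGv : 0 ≤ (inner ℝ G v : ℝ) := by
    apply key
    rw [real_inner_self_eq_norm_sq]
    positivity
  obtain ⟨c, hc⟩ : ∃ c : ℝ, c = inner ℝ G v / ‖v‖ ^ 2 := ⟨_, rfl⟩
  obtain ⟨w', hw'⟩ : ∃ w', w' = c • v - G := ⟨_, rfl⟩
  have hc1 : c * ‖v‖ ^ 2 = inner ℝ G v := by
    rw [hc]
    field_simp
  have hw'v : (inner ℝ w' v : ℝ) = 0 := by
    rw [hw', inner_sub_left, real_inner_smul_left, real_inner_self_eq_norm_sq, hc1, sub_self]
  have hGw' : (inner ℝ G w' : ℝ) = - ‖w'‖ ^ 2 := by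
    have h1 : (inner ℝ w' w' : ℝ) = ‖w'‖ ^ 2 := real_inner_self_eq_norm_sq w'
    have h2 : (inner ℝ w' w' : ℝ) = c * inner ℝ w' v - inner ℝ w' G := by
      conv_lhs => rw [show (inner ℝ w' w' : ℝ) = inner ℝ w' (c • v - G) by rw [← hw']]
      rw [inner_sub_right, real_inner_smul_right]
    have h3 : (inner ℝ w' G : ℝ) = inner ℝ G w' := real_inner_comm G w'
    rw [hw'v, mul_zero, zero_sub, h3] at h2
    linarith
  have hw0 : w' = 0 := by
    by_contra hne
    have hpos : 0 < ‖w'‖ ^ 2 := by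
      have := norm_pos_iff.2 hne
      positivity
    obtain ⟨ε, hε⟩ : ∃ ε : ℝ, ε = ‖w'‖ ^ 2 / (2 * (inner ℝ G v + 1)) := ⟨_, rfl⟩
    have hε0 : 0 < ε := by
      rw [hε]
      exact div_pos hpos (by linarith)
    have h1 := key (w' + ε • v) (by
      rw [inner_add_left, hw'v, zero_add, real_inner_smul_left, real_inner_self_eq_norm_sq]
      positivity)
    rw [inner_add_right, hGw', real_inner_smul_right] at h1
    have h2 : ε * (2 * (inner ℝ G v + 1)) = ‖w'‖ ^ 2 := by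
      rw [hε]
      field_simp
    nlinarith
  have hGc : G = c • v := by
    rw [hw0] at hw'
    exact (sub_eq_zero.1 hw'.symm).symm
  have hc0 : 0 < c := by
    have h1 : 0 ≤ c := by
      rw [hc]
      positivity
    rcases h1.eq_or_lt with h2 | h2
    · exfalso
      apply hG
      rw [← hGd, hGc, ← h2, zero_smul]
    · exact h2
  rw [← hGd, ← hv, hGc, norm_smul, Real.norm_eq_abs, abs_of_pos hc0, smul_smul]
  congr 1
  field_simp

/-- Taylor's formula of second order with a remainder controlled by the oscillation of `D²f`. -/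
lemma geom_taylor {f : E n → ℝ} (hf : ContDiff ℝ 2 f) {y w : E n} {ω : ℝ}
    (hω : ∀ t ∈ Icc (0 : ℝ) 1,
      ‖fderiv ℝ (fderiv ℝ f) (y + t • w) - fderiv ℝ (fderiv ℝ f) y‖ ≤ ω) :
    f (y + w) ≤ f y + inner ℝ (gradient f y) w + hess f y w w / 2 + ω * ‖w‖ ^ 2 / 2 := by
  have hd1 : Differentiable ℝ f := hf.differentiable (by norm_num)
  have hf1 : ContDiff ℝ 1 (fderiv ℝ f) := hf.fderiv_right (m := 1) (by norm_num)
  have hd2 : Differentiable ℝ (fderiv ℝ f) := hf1.differentiable (by norm_num)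
  have h1 : ∀ t : ℝ, HasDerivAt (fun t : ℝ => f (y + t • w)) (fderiv ℝ f (y + t • w) w) t :=
    fun t => (hd1 _).hasFDerivAt.comp_hasDerivAt t (Geom_line y w t)
  have h2 : ∀ t : ℝ, HasDerivAt (fun t : ℝ => fderiv ℝ f (y + t • w) w)
      (fderiv ℝ (fderiv ℝ f) (y + t • w) w w) t := by
    intro t
    have h3 : HasDerivAt (fun t : ℝ => fderiv ℝ f (y + t • w))
        (fderiv ℝ (fderiv ℝ f) (y + t • w) w) t :=
      (hd2 _).hasFDerivAt.comp_hasDerivAt t (Geom_line y w t)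
    have h4 := h3.clm_apply (hasDerivAt_const t w)
    simpa using h4
  obtain ⟨K, hKd⟩ : ∃ K : ℝ, K = hess f y w w + ω * ‖w‖ ^ 2 := ⟨_, rfl⟩
  have hK : ∀ t ∈ Icc (0 : ℝ) 1, fderiv ℝ (fderiv ℝ f) (y + t • w) w w ≤ K := by
    intro t ht
    have h5 : (fderiv ℝ (fderiv ℝ f) (y + t • w) - fderiv ℝ (fderiv ℝ f) y) w w ≤
        ω * ‖w‖ * ‖w‖ := by
      refine (le_abs_self _).trans ?_
      rw [← Real.norm_eq_abs]
      refine (ContinuousLinearMap.le_opNorm₂ _ _ _).trans ?_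
      exact mul_le_mul_of_nonneg_right (mul_le_mul_of_nonneg_right (hω t ht) (norm_nonneg _))
        (norm_nonneg _)
    rw [ContinuousLinearMap.sub_apply, ContinuousLinearMap.sub_apply] at h5
    rw [hKd]
    have h6 : hess f y w w = fderiv ℝ (fderiv ℝ f) y w w := rfl
    rw [h6]
    nlinarith
  have hint : interior (Icc (0 : ℝ) 1) ⊆ Icc 0 1 := interior_subset
  have a1 : ∀ t : ℝ, HasDerivAt
      (fun t : ℝ => fderiv ℝ f (y + t • w) w - fderiv ℝ f y w - K * t)
      (fderiv ℝ (fderiv ℝ f) (y + t • w) w w - K) t := by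
    intro t
    have h3 := ((h2 t).sub_const (fderiv ℝ f y w)).sub ((hasDerivAt_id t).const_mul K)
    rw [mul_one] at h3
    exact h3
  have a2 : AntitoneOn (fun t : ℝ => fderiv ℝ f (y + t • w) w - fderiv ℝ f y w - K * t)
      (Icc 0 1) := by
    refine antitoneOn_of_deriv_nonpos (convex_Icc 0 1)
      (fun t _ => (a1 t).continuousAt.continuousWithinAt)
      (fun t _ => (a1 t).differentiableAt.differentiableWithinAt) fun t ht => ?_
    rw [(a1 t).deriv]
    have := hK t (hint ht)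
    linarith
  have a3 : ∀ t ∈ Icc (0 : ℝ) 1, fderiv ℝ f (y + t • w) w - fderiv ℝ f y w - K * t ≤ 0 := by
    intro t ht
    have h3 := a2 (left_mem_Icc.2 zero_le_one) ht ht.1
    simpa using h3
  have b1 : ∀ t : ℝ, HasDerivAt
      (fun t : ℝ => f (y + t • w) - t * fderiv ℝ f y w - K / 2 * (t * t))
      (fderiv ℝ f (y + t • w) w - fderiv ℝ f y w - K * t) t := by
    intro t
    have h3 := ((h1 t).sub ((hasDerivAt_id t).mul_const (fderiv ℝ f y w))).sub
      (((hasDerivAt_id t).mul (hasDerivAt_id t)).const_mul (K / 2))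
    refine h3.congr_deriv ?_
    simp only [id]
    ring
  have b2 : AntitoneOn (fun t : ℝ => f (y + t • w) - t * fderiv ℝ f y w - K / 2 * (t * t))
      (Icc 0 1) := by
    refine antitoneOn_of_deriv_nonpos (convex_Icc 0 1)
      (fun t _ => (b1 t).continuousAt.continuousWithinAt)
      (fun t _ => (b1 t).differentiableAt.differentiableWithinAt) fun t ht => ?_
    rw [(b1 t).deriv]
    exact a3 t (hint ht)
  have h7 := b2 (left_mem_Icc.2 zero_le_one) (right_mem_Icc.2 zero_le_one) zero_le_one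
  simp only [one_smul, zero_smul, add_zero, one_mul, zero_mul, mul_zero, sub_zero, mul_one] at h7
  rw [Geom_inner_gradient]
  rw [hKd] at h7
  linarith

/-- Bounded `C²` domains with positive mean curvature are uniformly strictly mean convex.  On the
compact set `Γ = frontier Ω`: `|∇f| ≥ g0 > 0`, `-tanLap f ≥ t0 > 0`, `‖D²f‖ ≤ M`, and `D²f` is uniformly
continuous near `Γ`.  Take `B v = -|∇f y|⁻¹ D²f(y) v - 2 η v` (Riesz representation of the bilinear
form, `InnerProductSpace.toDual`), `η` small, so `trp B ν = -tanLap / |∇f|³ - 2 η (n-1) ≥ τ`.  For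
`w = z + s ν`, `|z| ≤ δ`, `-δ ≤ s = ⟪B z, z⟫/2 - σ`, `σ ≥ 0`:
`f (y + w) ≤ -η |∇f| |z|² - σ |∇f| + M |s| |z| + (M + ω) s² / 2 + ω |z|² / 2 ≤ 0` for `δ` small, by
`|s| ≤ (C/2) |z|² + σ`. -/
theorem geom (hn : 2 ≤ n) {f : E n → ℝ} (hf : ContDiff ℝ 2 f)
    (hb : Bornology.IsBounded {x | 0 < f x})
    (hg : ∀ y ∈ frontier {x | 0 < f x}, gradient f y ≠ 0 ∧ tanLap f y < 0) :
    ∃ C τ δ : ℝ, 0 < C ∧ 0 < τ ∧ 0 < δ ∧ StrictlyMeanConvex {x | 0 < f x} C τ δ := by
  have hnR : (2 : ℝ) ≤ n := by exact_mod_cast hn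
  have hcont : Continuous f := hf.continuous
  have hf1 : ContDiff ℝ 1 (fderiv ℝ f) := hf.fderiv_right (m := 1) (by norm_num)
  have hc1 : Continuous (fderiv ℝ f) := hf1.continuous
  have hc2 : Continuous (fderiv ℝ (fderiv ℝ f)) := hf1.continuous_fderiv (by norm_num)
  have hcg : Continuous (gradient f) := by
    unfold gradient
    exact (InnerProductSpace.toDual ℝ (E n)).symm.continuous.comp hc1
  have hhess : ∀ v w : E n → E n, Continuous v → Continuous w →
      Continuous (fun y => hess f y (v y) (w y)) := fun v w hv hw =>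
    (hc2.clm_apply hv).clm_apply hw
  have hct : Continuous (tanLap f) := by
    unfold tanLap
    exact ((continuous_finset_sum _ fun k _ => hhess _ _ continuous_const continuous_const).mul
      (hcg.norm.pow 2)).sub (hhess _ _ hcg hcg)
  have hΓ : IsCompact (frontier {x | 0 < f x}) :=
    isCompact_of_isClosed_isBounded isClosed_frontier (hb.closure.subset frontier_subset_closure)
  obtain ⟨g0, hg0, hg0'⟩ := hΓ.exists_forall_le' hcg.norm.continuousOn (a := 0)
    fun y hy => norm_pos_iff.2 (hg y hy).1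
  obtain ⟨t0, ht0, ht0'⟩ := hΓ.exists_forall_le' hct.neg.continuousOn (a := 0)
    fun y hy => by
      have := (hg y hy).2
      show 0 < - tanLap f y
      linarith
  obtain ⟨M0, hM0⟩ := Geom_bound (T := E n →L[ℝ] E n →L[ℝ] ℝ) hΓ hc2
  obtain ⟨G0, hG0⟩ := hΓ.exists_bound_of_continuousOn hcg.continuousOn
  obtain ⟨M, hMd⟩ : ∃ M : ℝ, M = max M0 1 := ⟨_, rfl⟩
  obtain ⟨G1, hG1d⟩ : ∃ G1 : ℝ, G1 = max G0 1 := ⟨_, rfl⟩
  have hM1 : 1 ≤ M := by rw [hMd]; exact le_max_right _ _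
  have hG11 : 1 ≤ G1 := by rw [hG1d]; exact le_max_right _ _
  have hM : ∀ y ∈ frontier {x | 0 < f x}, ‖fderiv ℝ (fderiv ℝ f) y‖ ≤ M := fun y hy =>
    (hM0 y hy).trans (by rw [hMd]; exact le_max_left _ _)
  have hG1 : ∀ y ∈ frontier {x | 0 < f x}, ‖gradient f y‖ ≤ G1 := fun y hy =>
    (hG0 y hy).trans (by rw [hG1d]; exact le_max_left _ _)
  obtain ⟨η, hη⟩ : ∃ η : ℝ, η = min 1 (t0 / (4 * G1 ^ 3 * n)) := ⟨_, rfl⟩
  have hη0 : 0 < η := by
    rw [hη]
    exact lt_min one_pos (div_pos ht0 (by positivity))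
  have hη1 : η ≤ 1 := by
    rw [hη]
    exact min_le_left _ _
  have hη2 : 2 * η * n ≤ t0 / (2 * G1 ^ 3) := by
    have h1 : η ≤ t0 / (4 * G1 ^ 3 * n) := by
      rw [hη]
      exact min_le_right _ _
    have h2 : 2 * (t0 / (4 * G1 ^ 3 * n)) * n = t0 / (2 * G1 ^ 3) := by
      field_simp
      ring
    rw [← h2]
    exact mul_le_mul_of_nonneg_right (mul_le_mul_of_nonneg_left h1 (by norm_num)) (by linarith)
  obtain ⟨ω, hω⟩ : ∃ ω : ℝ, ω = η * g0 := ⟨_, rfl⟩
  have hω0 : 0 < ω := by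
    rw [hω]
    exact mul_pos hη0 hg0
  obtain ⟨ρ, hρ, hosc⟩ := Geom_unif (T := E n →L[ℝ] E n →L[ℝ] ℝ) hΓ hc2 hω0
  obtain ⟨C, hC⟩ : ∃ C : ℝ, C = M / g0 + 2 := ⟨_, rfl⟩
  have hC0 : 0 < C := by
    rw [hC]
    positivity
  obtain ⟨Q, hQ⟩ : ∃ Q : ℝ, Q = M + (M + ω) / 2 := ⟨_, rfl⟩
  have hQ0 : 0 < Q := by
    rw [hQ]
    positivity
  obtain ⟨δ, hδ⟩ : ∃ δ : ℝ, δ = min (ρ / 3) (min (2 / C) (min (η * g0 / (Q * C)) (g0 / Q))) :=
    ⟨_, rfl⟩
  have hδ0 : 0 < δ := by
    rw [hδ]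
    refine lt_min (by positivity) (lt_min (by positivity) (lt_min ?_ (div_pos hg0 hQ0)))
    exact div_pos (mul_pos hη0 hg0) (mul_pos hQ0 hC0)
  have hδ1 : δ ≤ ρ / 3 := by
    rw [hδ]
    exact min_le_left _ _
  have hδ2 : C * δ ≤ 2 := by
    have h1 : δ ≤ 2 / C := by
      rw [hδ]
      exact (min_le_right _ _).trans (min_le_left _ _)
    rwa [le_div_iff₀ hC0, mul_comm] at h1
  have hδ3 : Q * C * δ ≤ η * g0 := by
    have h1 : δ ≤ η * g0 / (Q * C) := by
      rw [hδ]
      exact (min_le_right _ _).trans ((min_le_right _ _).trans (min_le_left _ _))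
    rwa [le_div_iff₀ (mul_pos hQ0 hC0), mul_comm] at h1
  have hδ4 : Q * δ ≤ g0 := by
    have h1 : δ ≤ g0 / Q := by
      rw [hδ]
      exact (min_le_right _ _).trans ((min_le_right _ _).trans (min_le_right _ _))
    rwa [le_div_iff₀ hQ0, mul_comm] at h1
  refine ⟨C, t0 / (2 * G1 ^ 3), δ, hC0, by positivity, hδ0, ?_⟩
  intro x hx y hy hxy
  have hy' : f y ≤ 0 := not_lt.1 hy
  obtain ⟨hfy, hyΓ, hν⟩ := geom_normal hf hx hy' hxy fun h => (hg y h).1
  obtain ⟨ν, hνd⟩ : ∃ ν, ν = ‖x - y‖⁻¹ • (x - y) := ⟨_, rfl⟩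
  have hgy := hg0' y hyΓ
  have hgy1 := hG1 y hyΓ
  have hMy := hM y hyΓ
  have hty : t0 ≤ - tanLap f y := ht0' y hyΓ
  obtain ⟨g, hgd⟩ : ∃ g : ℝ, g = ‖gradient f y‖ := ⟨_, rfl⟩
  rw [← hgd] at hgy hgy1
  have hgpos : 0 < g := lt_of_lt_of_le hg0 hgy
  have hνg : gradient f y = g • ν := by
    rw [hνd, hν, smul_smul, ← hgd, mul_inv_cancel₀ hgpos.ne', one_smul]
  have hxy0 : x - y ≠ 0 := by
    intro h0
    rw [sub_eq_zero] at h0
    have hx' : 0 < f x := hx
    rw [h0] at hx'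
    linarith
  have hνn : ‖ν‖ = 1 := by
    rw [hνd, norm_smul, norm_inv, norm_norm, inv_mul_cancel₀ (norm_ne_zero_iff.2 hxy0)]
  obtain ⟨D, hD⟩ : ∃ D : E n →L[ℝ] E n →L[ℝ] ℝ, D = fderiv ℝ (fderiv ℝ f) y := ⟨_, rfl⟩
  rw [← hD] at hMy
  have hDh : ∀ v w, hess f y v w = D v w := by
    intro v w
    rw [hD]
    rfl
  obtain ⟨A, hA⟩ : ∃ A : E n →L[ℝ] E n, ∀ v w, (inner ℝ (A v) w : ℝ) = D v w :=
    ⟨InnerProductSpace.continuousLinearMapOfBilin (𝕜 := ℝ) D, fun v w =>
      InnerProductSpace.continuousLinearMapOfBilin_apply (𝕜 := ℝ) D v w⟩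
  have hAn : ∀ v, ‖A v‖ ≤ M * ‖v‖ := by
    intro v
    by_cases h0 : A v = 0
    · rw [h0, norm_zero]
      positivity
    · have h1 : 0 < ‖A v‖ := norm_pos_iff.2 h0
      have h2 : ‖A v‖ ^ 2 ≤ M * ‖v‖ * ‖A v‖ := by
        rw [← real_inner_self_eq_norm_sq, hA]
        refine (le_abs_self _).trans ?_
        rw [← Real.norm_eq_abs]
        refine (ContinuousLinearMap.le_opNorm₂ _ _ _).trans ?_
        exact mul_le_mul_of_nonneg_right (mul_le_mul_of_nonneg_right hMy (norm_nonneg _))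
          (norm_nonneg _)
      rw [pow_two] at h2
      exact le_of_mul_le_mul_right h2 h1
  have hBapp : ∀ v, ((-g⁻¹) • A - (2 * η) • ContinuousLinearMap.id ℝ (E n)) v =
      (-g⁻¹) • A v - (2 * η) • v := fun v => rfl
  refine ⟨(-g⁻¹) • A - (2 * η) • ContinuousLinearMap.id ℝ (E n), ?_, ?_, ?_⟩
  · refine ContinuousLinearMap.opNorm_le_bound _ hC0.le fun v => ?_
    rw [hBapp]
    refine (norm_sub_le _ _).trans ?_
    rw [norm_smul, norm_smul, norm_neg, norm_inv, Real.norm_eq_abs, Real.norm_eq_abs,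
      abs_of_pos hgpos, abs_of_pos (by positivity : 0 < 2 * η)]
    have h1 : g⁻¹ ≤ g0⁻¹ := inv_anti₀ hg0 hgy
    have h2 : g⁻¹ * ‖A v‖ ≤ g0⁻¹ * (M * ‖v‖) :=
      mul_le_mul h1 (hAn v) (norm_nonneg _) (by positivity)
    have h3 : 2 * η * ‖v‖ ≤ 2 * ‖v‖ := mul_le_mul_of_nonneg_right (by linarith) (norm_nonneg _)
    have h4 : C * ‖v‖ = g0⁻¹ * (M * ‖v‖) + 2 * ‖v‖ := by
      rw [hC]
      ring
    linarith
  · rw [← hνd]
    unfold trp
    have h1 : ∀ v : E n, (inner ℝ (((-g⁻¹) • A - (2 * η) • ContinuousLinearMap.id ℝ (E n)) v) v : ℝ)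
        = -g⁻¹ * D v v - 2 * η * ‖v‖ ^ 2 := by
      intro v
      rw [hBapp, inner_sub_left, real_inner_smul_left, real_inner_smul_left, hA,
        real_inner_self_eq_norm_sq]
    rw [Finset.sum_congr rfl fun k _ => h1 _, h1 ν, hνn]
    have h2 : ∀ k : Fin n, ‖(EuclideanSpace.single k (1 : ℝ) : E n)‖ = 1 := fun k => by simp
    simp only [h2]
    rw [Finset.sum_sub_distrib, ← Finset.mul_sum, Finset.sum_const, Finset.card_univ,
      Fintype.card_fin, nsmul_eq_mul]
    have h3 : tanLap f y = g ^ 2 * ((∑ k : Fin n, D (EuclideanSpace.single k 1)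
        (EuclideanSpace.single k 1)) - D ν ν) := by
      unfold tanLap
      simp only [hDh]
      have h4 : D (g • ν) (g • ν) = g * (g * D ν ν) := by
        simp only [map_smul, ContinuousLinearMap.smul_apply, smul_eq_mul]
      rw [← hgd, hνg, h4]
      ring
    obtain ⟨S, hS⟩ : ∃ S : ℝ, S = ∑ k : Fin n, D (EuclideanSpace.single k 1)
        (EuclideanSpace.single k 1) := ⟨_, rfl⟩
    rw [← hS] at h3 ⊢
    rw [h3] at hty
    have h4 : t0 / G1 ^ 3 ≤ g⁻¹ * (D ν ν - S) := by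
      have h5 : t0 ≤ g ^ 2 * (D ν ν - S) := by linarith
      have h6 : g ^ 3 ≤ G1 ^ 3 := pow_le_pow_left₀ hgpos.le hgy1 3
      have h7 : g⁻¹ * (D ν ν - S) = g ^ 2 * (D ν ν - S) / g ^ 3 := by
        field_simp
      rw [h7]
      have h8 : 0 ≤ g ^ 2 * (D ν ν - S) := by linarith
      calc t0 / G1 ^ 3 ≤ t0 / g ^ 3 :=
            div_le_div_of_nonneg_left ht0.le (by positivity) h6
        _ ≤ g ^ 2 * (D ν ν - S) / g ^ 3 := div_le_div_of_nonneg_right h5 (by positivity)
    have h9 : t0 / G1 ^ 3 = t0 / (2 * G1 ^ 3) + t0 / (2 * G1 ^ 3) := by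
      field_simp
      ring
    linarith
  · intro z hz hzδ s hs1 hs2
    rw [← hνd]
    have hzx : (inner ℝ z ν : ℝ) = 0 := by
      rw [hνd, real_inner_smul_right, hz, mul_zero]
    rw [hBapp, inner_sub_left, real_inner_smul_left, real_inner_smul_left, hA,
      real_inner_self_eq_norm_sq] at hs2
    obtain ⟨r, hr⟩ : ∃ r : ℝ, r = ‖z‖ := ⟨_, rfl⟩
    have hr0 : 0 ≤ r := by rw [hr]; exact norm_nonneg _
    rw [← hr] at hzδ hs2
    have hDz : |D z z| ≤ M * r * r := by
      rw [← Real.norm_eq_abs, hr]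
      refine (ContinuousLinearMap.le_opNorm₂ _ _ _).trans ?_
      exact mul_le_mul_of_nonneg_right (mul_le_mul_of_nonneg_right hMy (norm_nonneg _))
        (norm_nonneg _)
    obtain ⟨q, hq⟩ : ∃ q : ℝ, q = (-g⁻¹ * D z z - 2 * η * r ^ 2) / 2 := ⟨_, rfl⟩
    rw [← hq] at hs2
    have hqb : |q| ≤ C / 2 * r ^ 2 := by
      have h1 : g⁻¹ ≤ g0⁻¹ := inv_anti₀ hg0 hgy
      have h2 : |g⁻¹ * D z z| ≤ g0⁻¹ * (M * r * r) := by
        rw [abs_mul, abs_of_pos (inv_pos.2 hgpos)]
        exact mul_le_mul h1 hDz (abs_nonneg _) (by positivity)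
      have h3 := abs_le.1 h2
      have h4 : η * r ^ 2 ≤ 1 * r ^ 2 := mul_le_mul_of_nonneg_right hη1 (by positivity)
      have h4' : 0 ≤ η * r ^ 2 := by positivity
      have h5 : C / 2 * r ^ 2 = g0⁻¹ * (M * r * r) / 2 + r ^ 2 := by
        rw [hC]
        ring
      rw [h5, hq, abs_le]
      constructor
      · linarith [h3.2]
      · linarith [h3.1]
    obtain ⟨σ, hσ⟩ : ∃ σ : ℝ, σ = q - s := ⟨_, rfl⟩
    have hσ0 : 0 ≤ σ := by linarith
    have hsb : |s| ≤ C / 2 * r ^ 2 + σ := by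
      have h1 := abs_le.1 hqb
      rw [abs_le]
      constructor <;> linarith [h1.1, h1.2]
    have hsδ : |s| ≤ δ := by
      rw [abs_le]
      refine ⟨hs1, hs2.trans ((le_abs_self _).trans (hqb.trans ?_))⟩
      have h1 : r ^ 2 ≤ δ * δ := by
        rw [pow_two]
        exact mul_le_mul hzδ hzδ hr0 hδ0.le
      have h2 : C / 2 * r ^ 2 ≤ C / 2 * (δ * δ) := mul_le_mul_of_nonneg_left h1 (by positivity)
      have h3 : C * δ * δ ≤ 2 * δ := mul_le_mul_of_nonneg_right hδ2 hδ0.le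
      linarith
    obtain ⟨w, hw⟩ : ∃ w : E n, w = z + s • ν := ⟨_, rfl⟩
    have hwn : ‖w‖ ≤ r + |s| := by
      rw [hw, hr]
      refine (norm_add_le _ _).trans ?_
      rw [norm_smul, hνn, mul_one, Real.norm_eq_abs]
    have hw2 : ‖w‖ ^ 2 = r ^ 2 + s ^ 2 := by
      rw [hw, norm_add_sq_real, real_inner_smul_right, hzx, norm_smul, hνn, Real.norm_eq_abs,
        ← hr, mul_one, sq_abs]
      ring
    have htay := geom_taylor hf (y := y) (w := w) (ω := ω) (fun t ht => by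
      apply hosc y hyΓ
      rw [dist_eq_norm]
      have h1 : y - (y + t • w) = -(t • w) := by abel
      rw [h1, norm_neg, norm_smul, Real.norm_eq_abs, abs_of_nonneg ht.1]
      have h2 : t * ‖w‖ ≤ 1 * ‖w‖ := mul_le_mul_of_nonneg_right ht.2 (norm_nonneg _)
      linarith)
    have hgw : (inner ℝ (gradient f y) w : ℝ) = g * s := by
      rw [hνg, hw, real_inner_smul_left, inner_add_right, real_inner_smul_right,
        real_inner_self_eq_norm_sq, hνn, real_inner_comm, hzx]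
      ring
    have hDw : hess f y w w ≤ D z z + 2 * (M * |s| * r) + M * s ^ 2 := by
      have h4 : D (z + s • ν) (z + s • ν) =
          D z z + s * D z ν + s * D ν z + s * (s * D ν ν) := by
        simp only [map_add, map_smul, ContinuousLinearMap.add_apply,
          ContinuousLinearMap.smul_apply, smul_eq_mul]
        ring
      rw [hDh, hw, h4]
      have b1 : |D z ν| ≤ M * r := by
        rw [← Real.norm_eq_abs, hr]
        refine (ContinuousLinearMap.le_opNorm₂ _ _ _).trans ?_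
        rw [hνn, mul_one]
        exact mul_le_mul_of_nonneg_right hMy (norm_nonneg _)
      have b2 : |D ν z| ≤ M * r := by
        rw [← Real.norm_eq_abs, hr]
        refine (ContinuousLinearMap.le_opNorm₂ _ _ _).trans ?_
        rw [hνn, mul_one]
        exact mul_le_mul_of_nonneg_right hMy (norm_nonneg _)
      have b3 : |D ν ν| ≤ M := by
        rw [← Real.norm_eq_abs]
        refine (ContinuousLinearMap.le_opNorm₂ _ _ _).trans ?_
        rw [hνn, mul_one, mul_one]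
        exact hMy
      have c1 : s * D z ν ≤ |s| * (M * r) := by
        refine (le_abs_self _).trans ?_
        rw [abs_mul]
        exact mul_le_mul_of_nonneg_left b1 (abs_nonneg _)
      have c2 : s * D ν z ≤ |s| * (M * r) := by
        refine (le_abs_self _).trans ?_
        rw [abs_mul]
        exact mul_le_mul_of_nonneg_left b2 (abs_nonneg _)
      have c3 : s * (s * D ν ν) ≤ s ^ 2 * M := by
        have h1 : s * (s * D ν ν) = s ^ 2 * D ν ν := by ring
        rw [h1]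
        exact mul_le_mul_of_nonneg_left ((le_abs_self _).trans b3) (by positivity)
      linarith
    have hq2 : g * q = - D z z / 2 - η * g * r ^ 2 := by
      rw [hq]
      field_simp
    have hgs : g * s = - D z z / 2 - η * g * r ^ 2 - g * σ := by
      rw [← hq2, hσ]
      ring
    rw [hfy, hgw, hgs, hw2] at htay
    -- the final estimate
    have e1 : |s| * r ≤ (C / 2 * r ^ 2 + σ) * δ :=
      mul_le_mul hsb hzδ hr0 (by positivity)
    have e2 : s ^ 2 ≤ (C / 2 * r ^ 2 + σ) * δ := by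
      rw [← sq_abs, pow_two]
      exact mul_le_mul hsb hsδ (abs_nonneg _) (by positivity)
    have e3 : M * (|s| * r) ≤ M * ((C / 2 * r ^ 2 + σ) * δ) :=
      mul_le_mul_of_nonneg_left e1 (by linarith)
    have e4 : (M + ω) / 2 * s ^ 2 ≤ (M + ω) / 2 * ((C / 2 * r ^ 2 + σ) * δ) :=
      mul_le_mul_of_nonneg_left e2 (by linarith)
    have e5 : M * ((C / 2 * r ^ 2 + σ) * δ) + (M + ω) / 2 * ((C / 2 * r ^ 2 + σ) * δ) =
        (Q * C * δ) * r ^ 2 / 2 + Q * δ * σ := by
      rw [hQ]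
      ring
    have e6 : (Q * C * δ) * r ^ 2 ≤ (η * g0) * r ^ 2 :=
      mul_le_mul_of_nonneg_right hδ3 (by positivity)
    have e7 : Q * δ * σ ≤ g0 * σ := mul_le_mul_of_nonneg_right hδ4 hσ0
    have e8 : g0 * σ ≤ g * σ := mul_le_mul_of_nonneg_right hgy hσ0
    have e9 : η * g0 * r ^ 2 ≤ η * g * r ^ 2 :=
      mul_le_mul_of_nonneg_right (mul_le_mul_of_nonneg_left hgy hη0.le) (by positivity)
    have e10 : ω * r ^ 2 = η * g0 * r ^ 2 := by rw [hω]
    have hfin : f (y + w) ≤ 0 := by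
      have h1 : f (y + w) ≤ 0 + (- D z z / 2 - η * g * r ^ 2 - g * σ) +
          (D z z + 2 * (M * |s| * r) + M * s ^ 2) / 2 + ω * (r ^ 2 + s ^ 2) / 2 := by
        linarith
      have h2 : 0 + (- D z z / 2 - η * g * r ^ 2 - g * σ) +
          (D z z + 2 * (M * |s| * r) + M * s ^ 2) / 2 + ω * (r ^ 2 + s ^ 2) / 2 =
          - η * g * r ^ 2 - g * σ + M * (|s| * r) + (M + ω) / 2 * s ^ 2 + ω * r ^ 2 / 2 := by
        ring
      rw [h2] at h1
      linarith
    have hyw : y + z + s • ν = y + w := by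
      rw [hw, add_assoc]
    rw [hyw]
    exact not_lt.2 hfin

end HMor
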