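import Pool.Agent.W_55e37b_h43.Cap

set_option autoImplicit false

/-!
# MP_55e37b_an, large p: the capacity relative to the complement of a ball
-/

open MeasureTheory Metric Set Filter Topology
open scoped ENNReal

namespace HMor

variable {n : ℕ}

lemma sqrt_lip (a b δ : ℝ) (hδ : 0 < δ) :
    |Real.sqrt (a ^ 2 + δ ^ 2) - Real.sqrt (b ^ 2 + δ ^ 2)| ≤ |a - b| := by
  set A := Real.sqrt (a ^ 2 + δ ^ 2) with hA
  set B := Real.sqrt (b ^ 2 + δ ^ 2) with hB
  have hA2 : A ^ 2 = a ^ 2 + δ ^ 2 := Real.sq_sqrt (by positivity)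
  have hB2 : B ^ 2 = b ^ 2 + δ ^ 2 := Real.sq_sqrt (by positivity)
  have hA0 : 0 < A := Real.sqrt_pos.2 (by positivity)
  have hB0 : 0 < B := Real.sqrt_pos.2 (by positivity)
  have hAa : |a| ≤ A := Real.le_sqrt_of_sq_le (by rw [sq_abs]; nlinarith [sq_nonneg δ])
  have hBb : |b| ≤ B := Real.le_sqrt_of_sq_le (by rw [sq_abs]; nlinarith [sq_nonneg δ])
  have h1 : |A - B| * (A + B) = |a - b| * |a + b| := by
    rw [← abs_of_pos (add_pos hA0 hB0), ← abs_mul, ← abs_mul]
    congr 1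
    nlinarith
  have h2 : |a - b| * |a + b| ≤ |a - b| * (A + B) :=
    mul_le_mul_of_nonneg_left ((abs_add_le a b).trans (add_le_add hAa hBb)) (abs_nonneg _)
  exact le_of_mul_le_mul_right (h1.le.trans h2) (add_pos hA0 hB0)

/-- `(1 - 1/p)^p ≥ 1/4` for `p ≥ 2`. -/
lemma quarter {p : ℝ} (hp : 2 ≤ p) : 1 / 4 ≤ (1 - 1 / p) ^ p := by
  have hp0 : 0 < p := by linarith
  have h1 : 1 / p ≤ 1 / 2 := one_div_le_one_div_of_le (by norm_num) hp
  have h2 : 1 + (p / 2) * (-(1 / p)) ≤ (1 + -(1 / p)) ^ (p / 2) :=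
    one_add_mul_self_le_rpow_one_add (by linarith) (by linarith)
  have h3 : 1 + (p / 2) * (-(1 / p)) = 1 / 2 := by
    field_simp
    norm_num
  rw [h3, ← sub_eq_add_neg] at h2
  have h4 : (1 - 1 / p) ^ p = ((1 - 1 / p) ^ (p / 2)) ^ 2 := by
    rw [← Real.rpow_natCast, ← Real.rpow_mul (by linarith)]
    congr 1
    push_cast
    ring
  rw [h4]
  nlinarith

/-- The function `max (1 - √(‖x‖² + δ²)) 0 / (1 - δ)`, `δ = 1/p`: it is `1` at the origin, `0` for
`‖x‖ ≥ 1`, and its gradient (`WG.of_contDiff`, `WG.posPart`) is bounded by `(1 - δ)⁻¹` and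
vanishes off the unit ball; `(1 - 1/p)^(-p) ≤ 4` for `p ≥ 2`. -/
lemma ball_one (n : ℕ) : ∃ C : ℝ, 0 < C ∧ ∀ p : ℝ, 2 ≤ p →
    cp p {x : E n | 1 ≤ ‖x‖} ≤ C := by
  refine ⟨4 * (volume (closedBall (0 : E n) 1)).toReal + 1, by positivity, fun p hp => ?_⟩
  have hp0 : 0 < p := by linarith
  set δ : ℝ := 1 / p with hδ
  have hδ0 : 0 < δ := by positivity
  have hδ1 : δ ≤ 1 / 2 := one_div_le_one_div_of_le (by norm_num) hp
  set w : E n → ℝ := fun x => 1 - Real.sqrt (‖x‖ ^ 2 + δ ^ 2) with hw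
  have hcd : ContDiff ℝ 1 w := by
    refine contDiff_const.sub (ContDiff.sqrt ?_ fun x => ?_)
    · exact (contDiff_norm_sq ℝ).add contDiff_const
    · positivity
  have hlip : LipschitzWith 1 w := by
    refine LipschitzWith.of_dist_le_mul fun x y => ?_
    rw [NNReal.coe_one, one_mul, Real.dist_eq, dist_eq_norm]
    have h1 : w x - w y = -(Real.sqrt (‖x‖ ^ 2 + δ ^ 2) - Real.sqrt (‖y‖ ^ 2 + δ ^ 2)) := by
      simp only [hw]
      ring
    rw [h1, abs_neg]
    exact (sqrt_lip _ _ δ hδ0).trans (abs_norm_sub_norm_le x y)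
  have hgrad : ∀ x, ‖gradient w x‖ ≤ 1 := by
    intro x
    have h1 : ‖gradient w x‖ = ‖fderiv ℝ w x‖ := by
      unfold gradient
      rw [LinearIsometryEquiv.norm_map]
    rw [h1]
    simpa using norm_fderiv_le_of_lipschitz ℝ hlip (x₀ := x)
  have hgc : Continuous (gradient w) := BasicsAux.cont_gradient hcd
  have hset : MeasurableSet {x | 0 < w x} := (isOpen_lt continuous_const hcd.continuous).measurableSet
  have hsub : ∀ x, 0 < w x → x ∈ closedBall (0 : E n) 1 := by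
    intro x hx
    rw [mem_closedBall_zero_iff]
    by_contra h
    push Not at h
    have h1 : 1 ≤ Real.sqrt (‖x‖ ^ 2 + δ ^ 2) := by
      rw [Real.one_le_sqrt]
      nlinarith [sq_nonneg δ]
    simp only [hw] at hx
    linarith
  have hWG := ((WG.of_contDiff hcd).posPart).const_mul (1 - δ)⁻¹
  have h1δ : 0 < 1 - δ := by linarith
  set G : E n → E n := fun x => (1 - δ)⁻¹ • indicator {x | 0 < w x} (gradient w) x with hG
  have hGb : ∀ x, ‖G x‖ ≤ indicator (closedBall (0 : E n) 1) (fun _ => (1 - δ)⁻¹) x := by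
    intro x
    by_cases hx : 0 < w x
    · have h1 : x ∈ {x | 0 < w x} := hx
      rw [indicator_of_mem (hsub x hx)]
      simp only [hG]
      rw [indicator_of_mem h1, norm_smul, Real.norm_eq_abs, abs_of_pos (inv_pos.2 h1δ)]
      exact mul_le_of_le_one_right (inv_pos.2 h1δ).le (hgrad x)
    · have h1 : x ∉ {x | 0 < w x} := hx
      simp only [hG]
      rw [indicator_of_notMem h1, smul_zero, norm_zero]
      exact indicator_nonneg (fun _ _ => (inv_pos.2 h1δ).le) x
  have hGm : AEStronglyMeasurable G volume := by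
    have h1 : AEStronglyMeasurable (fun x => indicator {x | 0 < w x} (gradient w) x) volume :=
      hgc.aestronglyMeasurable.indicator hset
    exact h1.const_smul ((1 - δ)⁻¹)
  have hmem : MemLp G (ENNReal.ofReal p) volume := by
    have h1 : MemLp (indicator (closedBall (0 : E n) 1) (fun _ => (1 - δ)⁻¹)) (ENNReal.ofReal p)
        volume := memLp_indicator_const _ measurableSet_closedBall _
          (Or.inr measure_closedBall_lt_top.ne)
    refine h1.of_le hGm (Eventually.of_forall fun x => ?_)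
    refine (hGb x).trans ?_
    exact le_abs_self _
  have hcomp : Comp p {x : E n | 1 ≤ ‖x‖} (fun x => (1 - δ)⁻¹ * max (w x) 0) G := by
    refine ⟨⟨hWG.cont, hmem, hWG.weak⟩, fun x hx => ?_, ?_⟩
    · have hx' : 1 ≤ ‖x‖ := hx
      have h1 : w x ≤ 0 := by
        have h1 : 1 ≤ Real.sqrt (‖x‖ ^ 2 + δ ^ 2) := by
          rw [Real.one_le_sqrt]
          nlinarith [sq_nonneg δ]
        simp only [hw]
        linarith
      show (1 - δ)⁻¹ * max (w x) 0 = 0
      rw [max_eq_right h1, mul_zero]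
    · show (1 - δ)⁻¹ * max (w 0) 0 = 1
      have h1 : w 0 = 1 - δ := by
        simp only [hw]
        rw [norm_zero, zero_pow (by norm_num), zero_add, Real.sqrt_sq hδ0.le]
      rw [h1, max_eq_left h1δ.le, inv_mul_cancel₀ h1δ.ne']
  refine (cp_le hcomp).trans ?_
  have hbound : ∀ x, ‖G x‖ ^ p ≤ indicator (closedBall (0 : E n) 1) (fun _ => (4 : ℝ)) x := by
    intro x
    by_cases hx : x ∈ closedBall (0 : E n) 1
    · have h1 := hGb x
      rw [indicator_of_mem hx] at h1 ⊢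
      calc ‖G x‖ ^ p ≤ ((1 - δ)⁻¹) ^ p := Real.rpow_le_rpow (norm_nonneg _) h1 hp0.le
        _ = ((1 - δ) ^ p)⁻¹ := Real.inv_rpow h1δ.le _
        _ ≤ (1 / 4)⁻¹ := inv_anti₀ (by norm_num) (quarter hp)
        _ = 4 := by norm_num
    · have h1 := hGb x
      rw [indicator_of_notMem hx] at h1 ⊢
      have h2 : ‖G x‖ = 0 := le_antisymm h1 (norm_nonneg _)
      rw [h2, Real.zero_rpow hp0.ne']
  have hint : energy p G ≤ ∫ x, indicator (closedBall (0 : E n) 1) (fun _ => (4 : ℝ)) x := by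
    unfold energy
    refine integral_mono_of_nonneg (Eventually.of_forall fun x => by positivity) ?_
      (Eventually.of_forall hbound)
    rw [integrable_indicator_iff measurableSet_closedBall]
    exact integrableOn_const measure_closedBall_lt_top.ne
  refine hint.trans ?_
  rw [integral_indicator measurableSet_closedBall, setIntegral_const, smul_eq_mul, mul_comm]
  unfold Measure.real
  linarith

lemma ballc_adm {R : ℝ} (hR : 0 < R) : Adm {x : E n | R ≤ ‖x‖} := by
  refine ⟨isClosed_le continuous_const continuous_norm, fun h => ?_⟩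
  have h1 : R ≤ ‖(0 : E n)‖ := h
  rw [norm_zero] at h1
  linarith

/-- By scaling (`cp_smul`). -/
theorem ball_le (n : ℕ) : ∃ C : ℝ, 0 < C ∧ ∀ p : ℝ, 2 ≤ p → ∀ R : ℝ, 0 < R →
    cp p {x : E n | R ≤ ‖x‖} ≤ C * R ^ ((n : ℝ) - p) := by
  obtain ⟨C, hC, h⟩ := ball_one n
  refine ⟨C, hC, fun p hp R hR => ?_⟩
  have h1 : {x : E n | R ≤ ‖x‖} = {x : E n | R⁻¹ • x ∈ {x : E n | 1 ≤ ‖x‖}} := by
    ext x
    simp only [mem_ofPred_eq, norm_smul, norm_inv, Real.norm_eq_abs, abs_of_pos hR]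
    rw [inv_mul_eq_div, one_le_div hR]
  rw [h1, cp_smul (by linarith) hR, mul_comm]
  exact mul_le_mul_of_nonneg_right (h p hp) (Real.rpow_nonneg hR.le _)

/-- An upper bound of `cH` (`wall e 1 ⊆ {1 ≤ ‖x‖}`, `cp_wall_one`, `cp_mono`). -/
theorem cH_upper (n : ℕ) : ∃ C : ℝ, 0 < C ∧ ∀ p : ℝ, 2 ≤ p → ∀ e : E n, ‖e‖ = 1 →
    cH p e ≤ C := by
  obtain ⟨C, hC, h⟩ := ball_one n
  refine ⟨C, hC, fun p hp e he => ?_⟩
  rw [← cp_wall_one (by linarith) he]
  refine (cp_mono ?_ (ballc_adm one_pos)).trans (h p hp)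
  intro x hx
  have h1 : (1 : ℝ) ≤ inner ℝ x e := hx
  have h2 := real_inner_le_norm x e
  rw [he, mul_one] at h2
  exact h1.trans h2

end HMor
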