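import Pool.Agent.W_MP_55e37b_an.Defs
import Pool.Agent.W_MP_55e37b_an.Basics

set_option autoImplicit false

/-!
# MP_55e37b_an, large p: a cut-off function
-/

open MeasureTheory Metric Set Filter Topology
open scoped ENNReal

namespace HMor

variable {n : ℕ}

/-- the cut-off in the direction `e` -/
private noncomputable def chiTh (s : ℝ) : ℝ := Real.smoothTransition (4 / 3 - 16 / 3 * s ^ 2)

/-- the cut-off orthogonal to `e` -/
private noncomputable def chiEt (e : E n) (ρ : ℝ) (y : E n) : ℝ :=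
  Real.smoothTransition (4 / 3 - ‖y - (inner ℝ y e : ℝ) • e‖ ^ 2 / (3 * ρ ^ 2))

private lemma chiTh_contDiff : ContDiff ℝ ((⊤ : ℕ∞) : WithTop ℕ∞) chiTh := by
  unfold chiTh
  exact Real.smoothTransition.contDiff.comp
    (contDiff_const.sub (contDiff_const.mul (contDiff_id.pow 2)))

private lemma chiTh_zero {s : ℝ} (hs : 1 / 2 ≤ |s|) : chiTh s = 0 := by
  unfold chiTh
  apply Real.smoothTransition.zero_of_nonpos
  have h1 : (1 / 2 : ℝ) ^ 2 ≤ |s| ^ 2 := pow_le_pow_left₀ (by norm_num) hs 2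
  rw [sq_abs] at h1
  linarith

private lemma chiTh_one {s : ℝ} (hs : |s| ≤ 1 / 4) : chiTh s = 1 := by
  unfold chiTh
  apply Real.smoothTransition.one_of_one_le
  have h1 : |s| ^ 2 ≤ (1 / 4 : ℝ) ^ 2 := pow_le_pow_left₀ (abs_nonneg s) hs 2
  rw [sq_abs] at h1
  linarith

private lemma deriv_chiTh_zero {s : ℝ} (hs : 1 / 2 < |s|) : deriv chiTh s = 0 := by
  have h1 : chiTh =ᶠ[𝓝 s] fun _ => (0 : ℝ) := by
    have hopen : IsOpen {t : ℝ | 1 / 2 < |t|} := isOpen_lt continuous_const continuous_abs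
    filter_upwards [hopen.mem_nhds hs] with t ht
    exact chiTh_zero (le_of_lt ht)
  rw [h1.deriv_eq]
  simp

private lemma deriv_chiTh_bound : ∃ M : ℝ, 0 < M ∧ ∀ s, |deriv chiTh s| ≤ M := by
  have hc : Continuous (deriv chiTh) := chiTh_contDiff.continuous_deriv (by simp)
  obtain ⟨M, hM⟩ := (isCompact_Icc (a := (-(1 / 2) : ℝ)) (b := 1 / 2)).exists_bound_of_continuousOn
    hc.continuousOn
  refine ⟨max M 1, lt_of_lt_of_le one_pos (le_max_right _ _), fun s => ?_⟩
  by_cases h : |s| ≤ 1 / 2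
  · have h1 := hM s (abs_le.1 h)
    rw [Real.norm_eq_abs] at h1
    exact h1.trans (le_max_left _ _)
  · rw [deriv_chiTh_zero (not_le.1 h), abs_zero]
    exact zero_le_one.trans (le_max_right _ _)

private lemma chiEt_contDiff (e : E n) (ρ : ℝ) :
    ContDiff ℝ ((⊤ : ℕ∞) : WithTop ℕ∞) (chiEt e ρ) := by
  unfold chiEt
  refine Real.smoothTransition.contDiff.comp (contDiff_const.sub (ContDiff.div_const ?_ _))
  exact ContDiff.norm_sq ℝ (contDiff_id.sub
    ((contDiff_id.inner ℝ contDiff_const).smul contDiff_const))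

private lemma chiEt_zero {e : E n} {ρ : ℝ} (hρ : 0 < ρ) {y : E n}
    (hy : 2 * ρ ≤ ‖y - (inner ℝ y e : ℝ) • e‖) : chiEt e ρ y = 0 := by
  unfold chiEt
  apply Real.smoothTransition.zero_of_nonpos
  have h1 : (2 * ρ) ^ 2 ≤ ‖y - (inner ℝ y e : ℝ) • e‖ ^ 2 :=
    pow_le_pow_left₀ (by positivity) hy 2
  have h2 : 4 / 3 ≤ ‖y - (inner ℝ y e : ℝ) • e‖ ^ 2 / (3 * ρ ^ 2) := by
    rw [le_div_iff₀ (by positivity)]
    linarith
  linarith

private lemma chiEt_one {e : E n} {ρ : ℝ} (hρ : 0 < ρ) {y : E n}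
    (hy : ‖y - (inner ℝ y e : ℝ) • e‖ ≤ ρ) : chiEt e ρ y = 1 := by
  unfold chiEt
  apply Real.smoothTransition.one_of_one_le
  have h1 : ‖y - (inner ℝ y e : ℝ) • e‖ ^ 2 ≤ ρ ^ 2 := pow_le_pow_left₀ (norm_nonneg _) hy 2
  have h2 : ‖y - (inner ℝ y e : ℝ) • e‖ ^ 2 / (3 * ρ ^ 2) ≤ 1 / 3 := by
    rw [div_le_iff₀ (by positivity)]
    linarith
  linarith

private lemma chiEt_add {e : E n} (he : ‖e‖ = 1) (ρ t : ℝ) (y : E n) :
    chiEt e ρ (y + t • e) = chiEt e ρ y := by
  unfold chiEt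
  have hee : (inner ℝ e e : ℝ) = 1 := by rw [real_inner_self_eq_norm_sq, he, one_pow]
  have h1 : y + t • e - (inner ℝ (y + t • e) e : ℝ) • e = y - (inner ℝ y e : ℝ) • e := by
    rw [inner_add_left, real_inner_smul_left, hee, mul_one, add_smul]
    abel
  rw [h1]

private lemma chi_fderiv {e : E n} (he : ‖e‖ = 1) (ρ : ℝ) (y : E n) :
    fderiv ℝ (fun y => chiEt e ρ y * chiTh (inner ℝ y e)) y e =
      chiEt e ρ y * deriv chiTh (inner ℝ y e) := by
  have hee : (inner ℝ e e : ℝ) = 1 := by rw [real_inner_self_eq_norm_sq, he, one_pow]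
  have hcd : ContDiff ℝ ((⊤ : ℕ∞) : WithTop ℕ∞)
      (fun y : E n => chiEt e ρ y * chiTh (inner ℝ y e)) :=
    (chiEt_contDiff e ρ).mul (chiTh_contDiff.comp (contDiff_id.inner ℝ contDiff_const))
  have hd : DifferentiableAt ℝ (fun y : E n => chiEt e ρ y * chiTh (inner ℝ y e))
      (y + (0 : ℝ) • e) := (hcd.differentiable (by simp)).differentiableAt
  have h1 : HasDerivAt (fun t : ℝ => y + t • e) e 0 := by
    have h2 := ((hasDerivAt_id (0 : ℝ)).smul_const e).const_add y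
    simpa using h2
  have h3 := hd.hasFDerivAt.comp_hasDerivAt (0 : ℝ) h1
  have h4 : ((fun y : E n => chiEt e ρ y * chiTh (inner ℝ y e)) ∘ fun t : ℝ => y + t • e) =
      fun t : ℝ => chiEt e ρ y * chiTh (inner ℝ y e + t) := by
    funext t
    show chiEt e ρ (y + t • e) * chiTh (inner ℝ (y + t • e) e) = _
    rw [chiEt_add he, inner_add_left, real_inner_smul_left, hee, mul_one]
  rw [h4] at h3
  have h5 : HasDerivAt chiTh (deriv chiTh (inner ℝ y e + 0)) (inner ℝ y e + 0) :=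
    ((chiTh_contDiff.differentiable (by simp)).differentiableAt).hasDerivAt
  have h6 : HasDerivAt (fun t : ℝ => chiEt e ρ y * chiTh (inner ℝ y e + t))
      (chiEt e ρ y * deriv chiTh (inner ℝ y e + 0)) 0 :=
    (h5.comp_const_add _ _).const_mul _
  have h7 := h3.unique h6
  rw [zero_smul, add_zero, add_zero] at h7
  exact h7

private lemma chi_box {m : ℕ} (b : OrthonormalBasis (Fin (m + 2)) ℝ (E (m + 2)))
    {ρ : ℝ} (hρ : 0 < ρ) :
    volume ((fun y : E (m + 2) => (WithLp.ofLp (b.repr y) : Fin (m + 2) → ℝ)) ⁻¹'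
      Icc (-(Fin.cons (1 / 2) (fun _ => 2 * ρ) : Fin (m + 2) → ℝ))
        (Fin.cons (1 / 2) (fun _ => 2 * ρ))) = ENNReal.ofReal ((4 * ρ) ^ (m + 1)) := by
  have h1 : MeasurePreserving (fun y : E (m + 2) =>
      (WithLp.ofLp (b.repr y) : Fin (m + 2) → ℝ)) volume volume :=
    (PiLp.volume_preserving_ofLp (Fin (m + 2))).comp b.measurePreserving_repr
  rw [h1.measure_preimage measurableSet_Icc.nullMeasurableSet, Real.volume_Icc_pi,
    Fin.prod_univ_succ]
  simp only [Fin.cons_zero, Fin.cons_succ, Pi.neg_apply, Finset.prod_const, Finset.card_univ,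
    Fintype.card_fin]
  rw [← ENNReal.ofReal_pow (by linarith), ← ENNReal.ofReal_mul (by norm_num)]
  congr 1
  ring

/-- The cut-off: `χ = 1` for `|y·e| ≤ 1/4`, `‖y'‖ ≤ ρ` (`y' = y - (y·e) e`), `χ = 0` for
`|y·e| ≥ 1/2` or `‖y'‖ ≥ 2 ρ`: `χ y = η (‖y'‖² / ρ²) θ (y·e)` with fixed smooth `η`, `θ` on the
line.  `⟪e, ∇χ⟫ = η θ'` is bounded by a constant and vanishes off
`{‖y‖ ≤ 3, |y·b| ≤ 2 ρ}`, `b` a unit vector orthogonal to `e` (`n ≥ 2`), a set of volume `≤ C ρ`. -/
lemma exists_chi (n : ℕ) (hn : 2 ≤ n) : ∃ C : ℝ, 0 < C ∧ ∀ (e : E n), ‖e‖ = 1 → ∀ ρ : ℝ, 0 < ρ →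
    ρ ≤ 1 → ∃ χ : E n → ℝ, ContDiff ℝ ((⊤ : ℕ∞) : WithTop ℕ∞) χ ∧ HasCompactSupport χ ∧
      (∀ y, 0 ≤ χ y ∧ χ y ≤ 1) ∧ (∀ y, 1 / 2 ≤ inner ℝ y e → χ y = 0) ∧
      (∀ y, |inner ℝ y e| ≤ 1 / 4 → ‖y - (inner ℝ y e : ℝ) • e‖ ≤ ρ → χ y = 1) ∧
      - ∫ y in halfspace e 0, inner ℝ e (gradient χ y) ≤ C * ρ := by
  obtain ⟨m, rfl⟩ : ∃ m, n = m + 2 := ⟨n - 2, by omega⟩
  obtain ⟨M, hM0, hM⟩ := deriv_chiTh_bound
  refine ⟨M * 4 ^ (m + 1), by positivity, ?_⟩
  intro e he ρ hρ hρ1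
  have hth0 : ∀ s, 0 ≤ chiTh s := fun s => Real.smoothTransition.nonneg _
  have hth1 : ∀ s, chiTh s ≤ 1 := fun s => Real.smoothTransition.le_one _
  have het0 : ∀ y, 0 ≤ chiEt e ρ y := fun s => Real.smoothTransition.nonneg _
  have het1 : ∀ y, chiEt e ρ y ≤ 1 := fun s => Real.smoothTransition.le_one _
  refine ⟨fun y => chiEt e ρ y * chiTh (inner ℝ y e), ?_, ?_, ?_, ?_, ?_, ?_⟩
  · exact (chiEt_contDiff e ρ).mul (chiTh_contDiff.comp (contDiff_id.inner ℝ contDiff_const))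
  · refine HasCompactSupport.intro (isCompact_closedBall (0 : E (m + 2)) 3) (fun y hy => ?_)
    rw [mem_closedBall_zero_iff, not_le] at hy
    show chiEt e ρ y * chiTh (inner ℝ y e) = 0
    by_cases h : 1 / 2 ≤ |(inner ℝ y e : ℝ)|
    · rw [chiTh_zero h, mul_zero]
    · rw [not_le] at h
      have h1 : ‖y‖ ≤ ‖y - (inner ℝ y e : ℝ) • e‖ + ‖(inner ℝ y e : ℝ) • e‖ := by
        have h2 := norm_add_le (y - (inner ℝ y e : ℝ) • e) ((inner ℝ y e : ℝ) • e)
        rwa [sub_add_cancel] at h2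
      rw [norm_smul, he, mul_one, Real.norm_eq_abs] at h1
      rw [chiEt_zero hρ (by linarith), zero_mul]
  · exact fun y => ⟨mul_nonneg (het0 y) (hth0 _), mul_le_one₀ (het1 y) (hth0 _) (hth1 _)⟩
  · intro y hy
    show chiEt e ρ y * chiTh (inner ℝ y e) = 0
    rw [chiTh_zero (hy.trans (le_abs_self _)), mul_zero]
  · intro y hy1 hy2
    show chiEt e ρ y * chiTh (inner ℝ y e) = 1
    rw [chiTh_one hy1, chiEt_one hρ hy2, mul_one]
  · -- the orthonormal basis
    obtain ⟨b, hb⟩ := Orthonormal.exists_orthonormalBasis_extension_of_card_eq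
      (𝕜 := ℝ) (E := E (m + 2)) (ι := Fin (m + 2)) (by simp) (v := fun _ => e) (s := {0})
      (by
        rw [orthonormal_subsingleton_iff]
        intro i
        exact he)
    have hb0 : b 0 = e := hb 0 rfl
    set a : Fin (m + 2) → ℝ := Fin.cons (1 / 2) (fun _ => 2 * ρ) with ha
    set B : Set (E (m + 2)) := (fun y : E (m + 2) =>
      (WithLp.ofLp (b.repr y) : Fin (m + 2) → ℝ)) ⁻¹' Icc (-a) a with hB
    have hvol : volume B = ENNReal.ofReal ((4 * ρ) ^ (m + 1)) := chi_box b hρ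
    have hH : MeasurableSet (halfspace e 0) :=
      (isOpen_lt continuous_const (continuous_id.inner continuous_const)).measurableSet
    have hF : ∀ y : E (m + 2), inner ℝ e (gradient
        (fun y : E (m + 2) => chiEt e ρ y * chiTh (inner ℝ y e)) y) =
        chiEt e ρ y * deriv chiTh (inner ℝ y e) := by
      intro y
      rw [real_inner_comm, BasicsAux.inner_gradient', chi_fderiv he]
    simp only [hF]
    have hzero : ∀ y : E (m + 2), y ∉ B → chiEt e ρ y * deriv chiTh (inner ℝ y e) = 0 := by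
      intro y hy
      by_contra hne
      have h1 : |(inner ℝ y e : ℝ)| ≤ 1 / 2 := by
        by_contra h
        exact hne (by rw [deriv_chiTh_zero (not_le.1 h), mul_zero])
      have h2 : ‖y - (inner ℝ y e : ℝ) • e‖ < 2 * ρ := by
        by_contra h
        exact hne (by rw [chiEt_zero hρ (not_lt.1 h), zero_mul])
      apply hy
      have h3 : ∀ i, |b.repr y i| ≤ a i := by
        intro i
        rw [b.repr_apply_apply]
        refine Fin.cases ?_ (fun j => ?_) i
        · rw [hb0, ha, Fin.cons_zero, real_inner_comm]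
          exact h1
        · rw [ha, Fin.cons_succ]
          have h4 : (inner ℝ (b j.succ) e : ℝ) = 0 := by
            rw [← hb0]
            exact b.orthonormal.2 (Fin.succ_ne_zero j)
          have h5 : (inner ℝ (b j.succ) y : ℝ) =
              inner ℝ (b j.succ) (y - (inner ℝ y e : ℝ) • e) := by
            rw [inner_sub_right, real_inner_smul_right, h4, mul_zero, sub_zero]
          rw [h5]
          have h6 := abs_real_inner_le_norm (b j.succ) (y - (inner ℝ y e : ℝ) • e)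
          rw [b.orthonormal.1, one_mul] at h6
          linarith
      exact ⟨fun i => (abs_le.1 (h3 i)).1, fun i => (abs_le.1 (h3 i)).2⟩
    have hsub : ∫ y in halfspace e 0, chiEt e ρ y * deriv chiTh (inner ℝ y e) =
        ∫ y in halfspace e 0 ∩ B, chiEt e ρ y * deriv chiTh (inner ℝ y e) := by
      refine setIntegral_eq_of_subset_of_forall_sdiff_eq_zero hH inter_subset_left ?_
      intro y hy
      exact hzero y (fun h => hy.2 ⟨hy.1, h⟩)
    rw [hsub]
    have hfin : volume (halfspace e 0 ∩ B) < ∞ :=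
      (measure_mono inter_subset_right).trans_lt (by rw [hvol]; exact ENNReal.ofReal_lt_top)
    have hle := norm_setIntegral_le_of_norm_le_const (μ := volume) (s := halfspace e 0 ∩ B)
      (f := fun y => chiEt e ρ y * deriv chiTh (inner ℝ y e)) (C := M) hfin (fun y _ => by
        rw [Real.norm_eq_abs, abs_mul, abs_of_nonneg (het0 y)]
        calc chiEt e ρ y * |deriv chiTh (inner ℝ y e)| ≤ 1 * M :=
              mul_le_mul (het1 y) (hM _) (abs_nonneg _) zero_le_one
          _ = M := one_mul M)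
    have hreal : volume.real (halfspace e 0 ∩ B) ≤ (4 * ρ) ^ (m + 1) := by
      have h1 : volume.real (halfspace e 0 ∩ B) ≤ volume.real B :=
        measureReal_mono inter_subset_right (by rw [hvol]; exact ENNReal.ofReal_ne_top)
      have h2 : volume.real B = (4 * ρ) ^ (m + 1) := by
        rw [Measure.real, hvol, ENNReal.toReal_ofReal (by positivity)]
      rwa [h2] at h1
    have hpow : (4 * ρ) ^ (m + 1) ≤ 4 ^ (m + 1) * ρ := by
      rw [mul_pow]
      exact mul_le_mul_of_nonneg_left (pow_le_of_le_one hρ.le hρ1 (by omega)) (by positivity)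
    calc -∫ y in halfspace e 0 ∩ B, chiEt e ρ y * deriv chiTh (inner ℝ y e)
        ≤ ‖∫ y in halfspace e 0 ∩ B, chiEt e ρ y * deriv chiTh (inner ℝ y e)‖ :=
          neg_le_abs _
      _ ≤ M * volume.real (halfspace e 0 ∩ B) := hle
      _ ≤ M * (4 ^ (m + 1) * ρ) := mul_le_mul_of_nonneg_left (hreal.trans hpow) hM0.le
      _ = M * 4 ^ (m + 1) * ρ := by ring

end HMor
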