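import Pool.Agent.W_MP_55e37b_an.Defs
import Pool.Agent.W_MP_55e37b_an.EL
import Pool.Agent.W_MP_55e37b_an.Ineq

set_option autoImplicit false

/-!
# MP_55e37b_an, large p: the derivative of the energy
-/

open MeasureTheory Metric Set Filter Topology
open scoped ENNReal

namespace HMor

variable {n : ℕ}

private lemma ed_young {p : ℝ} (hp : 1 < p) {a b : ℝ} (ha : 0 ≤ a) (hb : 0 ≤ b) :
    a ^ (p - 1) * b ≤ a ^ p + b ^ p := by
  have key : ∀ c : ℝ, 0 ≤ c → c ^ (p - 1) * c = c ^ p := by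
    intro c hc
    rcases hc.eq_or_lt with h | h
    · rw [← h, mul_zero, Real.zero_rpow (by linarith)]
    · have := Real.rpow_add_one (ne_of_gt h) (p - 1)
      rw [← this]
      congr 1
      ring
  rcases le_total a b with h | h
  · have h1 : a ^ (p - 1) * b ≤ b ^ (p - 1) * b :=
      mul_le_mul_of_nonneg_right (Real.rpow_le_rpow ha h (by linarith)) hb
    rw [key b hb] at h1
    have := Real.rpow_nonneg ha p
    linarith
  · have h1 : a ^ (p - 1) * b ≤ a ^ (p - 1) * a :=
      mul_le_mul_of_nonneg_left h (Real.rpow_nonneg ha _)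
    rw [key a ha] at h1
    have := Real.rpow_nonneg hb p
    linarith

private lemma ed_abs_le {V : Type*} [NormedAddCommGroup V] [InnerProductSpace ℝ V] {p : ℝ}
    (b w : V) :
    |‖b‖ ^ (p - 2) * inner ℝ b w| ≤ ‖b‖ ^ (p - 1) * ‖w‖ := by
  rcases eq_or_ne b 0 with h | h
  · subst h
    simp only [inner_zero_left, mul_zero, abs_zero]
    positivity
  · have hb : 0 < ‖b‖ := norm_pos_iff.mpr h
    have h1 : |inner ℝ b w| ≤ ‖b‖ * ‖w‖ := abs_real_inner_le_norm b w
    have h2 : ‖b‖ ^ (p - 1) = ‖b‖ ^ (p - 2) * ‖b‖ := by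
      rw [← Real.rpow_add_one (ne_of_gt hb)]
      congr 1
      ring
    rw [abs_mul, abs_of_nonneg (Real.rpow_nonneg hb.le _), h2, mul_assoc]
    exact mul_le_mul_of_nonneg_left h1 (Real.rpow_nonneg hb.le _)

private lemma ed_abs_le' {V : Type*} [NormedAddCommGroup V] [InnerProductSpace ℝ V] {p : ℝ}
    (hp : 1 < p) (b w : V) :
    |‖b‖ ^ (p - 2) * inner ℝ b w| ≤ ‖b‖ ^ p + ‖w‖ ^ p :=
  (ed_abs_le b w).trans (ed_young hp (norm_nonneg _) (norm_nonneg _))

private lemma ed_continuous {V : Type*} [NormedAddCommGroup V] [InnerProductSpace ℝ V] {p : ℝ}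
    (hp : 1 < p) (w : V) :
    Continuous (fun b : V => ‖b‖ ^ (p - 2) * inner ℝ b w) := by
  rw [continuous_iff_continuousAt]
  intro b
  rcases eq_or_ne b 0 with h | h
  · subst h
    unfold ContinuousAt
    simp only [inner_zero_left, mul_zero]
    have h1 : Tendsto (fun b : V => ‖b‖ ^ (p - 1) * ‖w‖) (𝓝 0) (𝓝 0) := by
      have h2 : Continuous (fun b : V => ‖b‖ ^ (p - 1) * ‖w‖) :=
        (continuous_norm.rpow_const (fun _ => Or.inr (by linarith))).mul continuous_const
      have h3 := h2.tendsto 0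
      simpa [Real.zero_rpow (by linarith : p - 1 ≠ 0)] using h3
    exact squeeze_zero_norm (fun b => by
      rw [Real.norm_eq_abs]
      exact ed_abs_le b w) h1
  · have hb : ‖b‖ ≠ 0 := norm_ne_zero_iff.mpr h
    exact (continuous_norm.continuousAt.rpow_const (Or.inl hb)).mul
      (continuousAt_id.inner continuousAt_const)

private lemma ed_integrable_rpow {p : ℝ} (hp : 1 < p) {g : E n → E n}
    (hg : MemLp g (ENNReal.ofReal p) volume) :
    Integrable (fun x => ‖g x‖ ^ p) volume := by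
  have h := hg.integrable_norm_rpow (by simp; linarith) ENNReal.ofReal_ne_top
  simpa [ENNReal.toReal_ofReal (by linarith : (0 : ℝ) ≤ p)] using h

private lemma ed_meas {p : ℝ} {g h : E n → E n}
    (hg : AEStronglyMeasurable g volume) (hh : AEStronglyMeasurable h volume) :
    AEStronglyMeasurable (fun x => ‖g x‖ ^ (p - 2) * inner ℝ (g x) (h x)) volume :=
  ((hg.norm.aemeasurable.pow_const (p - 2)).aestronglyMeasurable).mul (hg.inner hh)

/-- The derivative of the energy: `h ↦ ∫ ‖g - h ∇χ‖^p` has right derivative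
`- p ∫ ‖g‖^(p-2) ⟪g, ∇χ⟫` at `0`; only the upper estimate is needed: by `rpow_tangent` (convexity)
`‖g‖^p ≥ ‖g - h w‖^p + p h ‖g - h w‖^(p-2) ⟪g - h w, w⟫`, i.e.
`∫ ‖g - h w‖^p ≤ ∫ ‖g‖^p - p h ∫ ‖g - h w‖^(p-2) ⟪g - h w, w⟫`, and the last integral is continuous
at `h = 0` (dominated convergence as in `IsMin.euler`). -/
lemma energy_deriv {p : ℝ} (hp : 2 ≤ p) {g w : E n → E n}
    (hg : MemLp g (ENNReal.ofReal p) volume) (hw : MemLp w (ENNReal.ofReal p) volume)
    {ε : ℝ} (hε : 0 < ε) :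
    ∃ h0 : ℝ, 0 < h0 ∧ ∀ h : ℝ, 0 < h → h < h0 →
      energy p (fun x => g x - h • w x) ≤
        energy p g + h * (- (p * ∫ x, ‖g x‖ ^ (p - 2) * inner ℝ (g x) (w x)) + ε) := by
  have hp1 : 1 < p := by linarith
  have hp0 : 0 < p := by linarith
  set F : ℝ → ℝ := fun t => ∫ x, ‖g x - t • w x‖ ^ (p - 2) *
    inner ℝ (g x - t • w x) (w x) with hF
  have hb : ∀ t : ℝ, MemLp (fun x => g x - t • w x) (ENNReal.ofReal p) volume :=
    fun t => hg.sub (hw.const_smul t)
  have hcont : Tendsto F (𝓝 0) (𝓝 (F 0)) := by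
    simp only [hF]
    refine tendsto_integral_filter_of_dominated_convergence
      (fun x => (‖g x‖ + ‖w x‖) ^ p + ‖w x‖ ^ p) ?_ ?_ ?_ ?_
    · exact Eventually.of_forall fun t => ed_meas (hb t).1 hw.1
    · have h1 : ∀ᶠ t : ℝ in 𝓝 0, |t| < 1 := by
        filter_upwards [Metric.ball_mem_nhds (0 : ℝ) one_pos] with t ht
        simpa [Real.dist_eq] using ht
      filter_upwards [h1] with t ht
      refine Eventually.of_forall fun x => ?_
      rw [Real.norm_eq_abs]
      refine (ed_abs_le' hp1 _ _).trans ?_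
      have h2 : ‖g x - t • w x‖ ≤ ‖g x‖ + ‖w x‖ := by
        refine (norm_sub_le _ _).trans ?_
        rw [norm_smul, Real.norm_eq_abs]
        have := mul_le_mul_of_nonneg_right ht.le (norm_nonneg (w x))
        linarith
      have h3 := Real.rpow_le_rpow (norm_nonneg _) h2 (by linarith : (0 : ℝ) ≤ p)
      linarith
    · have h1 : MemLp (fun x => ‖g x‖ + ‖w x‖) (ENNReal.ofReal p) volume :=
        hg.norm.add hw.norm
      have h2 := h1.integrable_norm_rpow (by simp; linarith) ENNReal.ofReal_ne_top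
      have h3 : Integrable (fun x => (‖g x‖ + ‖w x‖) ^ p) volume := by
        refine h2.congr (Eventually.of_forall fun x => ?_)
        simp only [ENNReal.toReal_ofReal (by linarith : (0 : ℝ) ≤ p), Real.norm_eq_abs]
        rw [abs_of_nonneg (by positivity)]
      exact h3.add (ed_integrable_rpow hp1 hw)
    · refine Eventually.of_forall fun x => ?_
      have h1 : Continuous (fun t : ℝ => g x - t • w x) := by fun_prop
      exact ((ed_continuous hp1 (w x)).comp h1).tendsto 0
  have hF0 : F 0 = ∫ x, ‖g x‖ ^ (p - 2) * inner ℝ (g x) (w x) := by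
    simp [hF]
  have hev : ∀ᶠ t in 𝓝 (0 : ℝ), F 0 - ε / p < F t :=
    hcont.eventually (lt_mem_nhds (sub_lt_self _ (by positivity)))
  obtain ⟨h0, hh0, hball⟩ := Metric.eventually_nhds_iff.1 hev
  refine ⟨h0, hh0, fun h hh hlt => ?_⟩
  have hFh : F 0 - ε / p < F h := hball (by rw [Real.dist_eq, sub_zero, abs_of_pos hh]; exact hlt)
  have hib := integrable_el hp1 (hb h) hw
  have hbp := ed_integrable_rpow hp1 (hb h)
  have hint : ∫ x, (‖g x - h • w x‖ ^ p + h * p * (‖g x - h • w x‖ ^ (p - 2) *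
      inner ℝ (g x - h • w x) (w x))) ≤ ∫ x, ‖g x‖ ^ p := by
    refine integral_mono (hbp.add (hib.const_mul (h * p))) (ed_integrable_rpow hp1 hg)
      (fun x => ?_)
    have h1 := rpow_tangent hp1 (g x) (g x - h • w x)
    have h2 : g x - (g x - h • w x) = h • w x := by abel
    rw [h2, inner_smul_right] at h1
    have h3 : ‖g x - h • w x‖ ^ p + h * p * (‖g x - h • w x‖ ^ (p - 2) *
        inner ℝ (g x - h • w x) (w x)) = ‖g x - h • w x‖ ^ p + p *
        (‖g x - h • w x‖ ^ (p - 2) * (h * inner ℝ (g x - h • w x) (w x))) := by ring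
    rw [← h3] at h1
    exact h1
  rw [integral_add hbp (hib.const_mul _), integral_const_mul] at hint
  have hhp : 0 < h * p := mul_pos hh hp0
  have h5 : h * p * (F 0 - ε / p) ≤ h * p * F h := mul_le_mul_of_nonneg_left hFh.le hhp.le
  have h6 : h * p * (F 0 - ε / p) = h * (p * F 0 - ε) := by field_simp
  rw [h6, hF0] at h5
  simp only [hF] at h5
  unfold energy
  linarith

end HMor
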