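import Pool.Agent.W_MP_55e37b_an.Defs
import Pool.Agent.W_MP_55e37b_an.PosPart
import Pool.Agent.W_MP_55e37b_an.Exist
import Pool.Agent.W_MP_55e37b_an.EL
import Pool.Agent.W_MP_55e37b_an.Comp
import Pool.Agent.W_MP_55e37b_an.Upper
import Pool.Agent.W_MP_55e37b_an.Bridge

set_option autoImplicit false

/-!
# MP_55e37b_an, large p: the minimiser of the halfspace is below the distance
-/

open MeasureTheory Metric Set Filter Topology
open scoped ENNReal

namespace HMor

variable {n : ℕ}

private lemma slab_linear (e : E n) : WG (fun x : E n => (inner ℝ x e : ℝ)) (fun _ => e) := by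
  have h1 : ContDiff ℝ 1 (fun x : E n => (inner ℝ x e : ℝ)) := contDiff_id.inner ℝ contDiff_const
  have h2 := WG.of_contDiff h1
  have h3 : gradient (fun x : E n => (inner ℝ x e : ℝ)) = fun _ => e := by
    funext x
    refine ext_inner_right ℝ fun v => ?_
    rw [BasicsAux.inner_gradient']
    have h4 : HasFDerivAt (fun x : E n => (inner ℝ x e : ℝ)) (innerSL ℝ e : E n →L[ℝ] ℝ) x := by
      have h5 := (innerSL ℝ e : E n →L[ℝ] ℝ).hasFDerivAt (x := x)
      refine h5.congr_of_eventuallyEq (Eventually.of_forall fun y => ?_)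
      simp only [innerSL_apply_apply]
      exact real_inner_comm _ _
    rw [h4.fderiv, innerSL_apply_apply]
  rwa [h3] at h2

/-- `∫ ⟪g, v⟫ = 0` if `φ` and `g` vanish off a ball. -/
private lemma slab_int_zero {φ : E n → ℝ} {g : E n → E n} (h : WG φ g) {R : ℝ} (hR : 0 < R)
    (h0 : ∀ x : E n, R < ‖x‖ → φ x = 0) (h0' : ∀ x : E n, R < ‖x‖ → g x = 0) (v : E n) :
    ∫ x, inner ℝ (g x) v = 0 := by
  let f : ContDiffBump (0 : E n) := ⟨R + 1, R + 2, by linarith, by linarith⟩
  have h1 := h.weak f f.contDiff f.hasCompactSupport v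
  have h2 : ∀ x, φ x * fderiv ℝ (⇑f) x v = 0 := by
    intro x
    by_cases hx : R < ‖x‖
    · rw [h0 x hx, zero_mul]
    · have h3 : (⇑f) =ᶠ[𝓝 x] fun _ => (1 : ℝ) := by
        have h4 : x ∈ ball (0 : E n) (R + 1) := by
          rw [mem_ball_zero_iff]
          linarith
        filter_upwards [isOpen_ball.mem_nhds h4] with y hy
        exact f.one_of_mem_closedBall (ball_subset_closedBall hy)
      rw [h3.fderiv_eq]
      simp
  have h3 : ∀ x, inner ℝ (g x) v * f x = inner ℝ (g x) v := by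
    intro x
    by_cases hx : R < ‖x‖
    · rw [h0' x hx, inner_zero_left, zero_mul]
    · have h4 : x ∈ closedBall (0 : E n) (R + 1) := by
        rw [mem_closedBall_zero_iff]
        linarith
      rw [f.one_of_mem_closedBall h4, mul_one]
  simp only [h2, h3, integral_zero] at h1
  linarith

/-- `u ≤ y·e` on `H`.  Let `ℓ y = max (y·e) 0` (a `WG` function by `WG.posPart`, gradient the
indicator of `{0 < y·e}` times `e`).  Given `δ > 0` let `φ = max (u - ℓ - δ) 0`.  It vanishes off `H`
(`u = ℓ = 0` there), for `y·e ≥ 1` (`u ≤ 1 ≤ ℓ`), at `e`, and outside a ball (`IsMin.decay`), so it has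
compact support and its gradient `gφ = g - e` on `{u > ℓ + δ}`, `0` elsewhere, is in `L^p`.
`IsMin.euler` gives `∫ ‖g‖^(p-2) ⟪g, gφ⟫ = 0`, and `∫ ⟪e, gφ⟫ = 0`. Now `comparison` gives `φ = 0`.
So `u ≤ ℓ + δ` for every `δ > 0`. -/
lemma slab_le (hn : 2 ≤ n) {p : ℝ} (hp : (n : ℝ) < p) {e : E n} (he : ‖e‖ = 1)
    {u : E n → ℝ} {g : E n → E n} (h : IsMin p (halfspace e 0) e u g)
    (hu : ∀ x, 0 ≤ u x ∧ u x ≤ 1) :
    ∀ y : E n, 0 ≤ inner ℝ y e → u y ≤ inner ℝ y e := by
  have hn2 : (2 : ℝ) ≤ n := by exact_mod_cast hn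
  have hp2 : 2 < p := by linarith
  have hp1 : (1 : ℝ) ≤ p := by linarith
  have hp1' : (1 : ℝ) < p := by linarith
  have hee : inner ℝ e e = (1 : ℝ) := by rw [real_inner_self_eq_norm_sq, he, one_pow]
  intro y hy
  refine le_of_forall_pos_le_add fun δ hδ => ?_
  obtain ⟨C, hC, hdec⟩ := h.decay hn hp he hu
  have hm : 0 < ((n : ℝ) - 1) / (p - 1) := div_pos (by linarith) (by linarith)
  -- the radius
  obtain ⟨R, hR, hRδ⟩ : ∃ R : ℝ, 0 < R ∧ ∀ x : E n, R < ‖x‖ → u x ≤ δ := by
    have h1 : Tendsto (fun t : ℝ => C * t ^ (-(((n : ℝ) - 1) / (p - 1)))) atTop (𝓝 (C * 0)) :=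
      (tendsto_rpow_neg_atTop hm).const_mul C
    rw [mul_zero] at h1
    obtain ⟨R, hR⟩ := (h1.eventually (gt_mem_nhds hδ)).exists_forall_of_atTop
    refine ⟨max R 1, by positivity, fun x hx => ?_⟩
    have h2 : R ≤ ‖x‖ := (le_max_left _ _).trans hx.le
    have h3 : 0 < ‖x‖ := lt_of_lt_of_le one_pos ((le_max_right R 1).trans hx.le)
    exact (hdec x (norm_pos_iff.1 h3)).trans (hR _ h2).le
  let ℓ : E n → ℝ := fun x => max (inner ℝ x e) 0
  let H : Set (E n) := {x | 0 < (inner ℝ x e : ℝ)}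
  have hWℓ : WG ℓ (indicator H (fun _ => e)) := (slab_linear e).posPart
  let A : Set (E n) := {x | 0 < u x - ℓ x - δ}
  let φ : E n → ℝ := fun x => max (u x - ℓ x - δ) 0
  let gφ : E n → E n := indicator A (fun x => g x - indicator H (fun _ => e) x - 0)
  have hWG : WG φ gφ := ((((h.mem.isD.wg hp1).sub hWℓ).sub (WG.const δ)).posPart)
  have hAo : IsOpen A := by
    refine isOpen_lt continuous_const ?_
    exact (h.mem.isD.cont.sub hWℓ.cont).sub continuous_const
  have hAH : ∀ x ∈ A, x ∈ H := by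
    intro x hx
    by_contra hxH
    have h1 : 0 < u x - ℓ x - δ := hx
    rw [h.mem.zero x hxH] at h1
    have : 0 ≤ ℓ x := le_max_right _ _
    linarith
  have hAR : ∀ x ∈ A, ‖x‖ ≤ R := by
    intro x hx
    by_contra hxR
    have h1 : 0 < u x - ℓ x - δ := hx
    have h2 := hRδ x (not_le.1 hxR)
    have : 0 ≤ ℓ x := le_max_right _ _
    linarith
  have hφA : ∀ x, x ∉ A → φ x = 0 := fun x hx => max_eq_right (not_lt.1 hx)
  have hgφA : ∀ x, x ∉ A → gφ x = 0 := fun x hx => indicator_of_notMem hx _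
  have hgφA' : ∀ x ∈ A, gφ x = g x - e := by
    intro x hx
    show indicator A (fun x => g x - indicator H (fun _ => e) x - 0) x = g x - e
    rw [indicator_of_mem hx, indicator_of_mem (hAH x hx), sub_zero]
  have heA : MemLp (indicator A (fun _ => e)) (ENNReal.ofReal p) volume := by
    refine memLp_indicator_const _ hAo.measurableSet _ (Or.inr ?_)
    refine ne_top_of_le_ne_top (measure_closedBall_lt_top (x := (0 : E n)) (r := R)).ne
      (measure_mono fun x hx => ?_)
    rw [mem_closedBall_zero_iff]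
    exact hAR x hx
  have hgφeq : gφ = fun x => indicator A g x - indicator A (fun _ => e) x := by
    funext x
    by_cases hx : x ∈ A
    · rw [hgφA' x hx, indicator_of_mem hx, indicator_of_mem hx]
    · rw [hgφA x hx, indicator_of_notMem hx, indicator_of_notMem hx, sub_zero]
  have hgφm : MemLp gφ (ENNReal.ofReal p) volume := by
    rw [hgφeq]
    exact (h.mem.isD.memLp.indicator hAo.measurableSet).sub heA
  have hφD : IsD p φ gφ := ⟨hWG.cont, hgφm, hWG.weak⟩
  have hφH : ∀ x, x ∉ halfspace e 0 → φ x = 0 := fun x hx => hφA x fun hx' => hx (hAH x hx')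
  have hφe : φ e = 0 := by
    refine hφA e fun hx => ?_
    have h1 : 0 < u e - ℓ e - δ := hx
    have h2 : ℓ e = 1 := by
      show max (inner ℝ e e) (0 : ℝ) = 1
      rw [hee]
      norm_num
    rw [h.one, h2] at h1
    linarith
  have heuler := h.euler hp1' ⟨hφD, hφH⟩ hφe
  have hzero : ∫ x, inner ℝ (gφ x) e = 0 := by
    refine slab_int_zero hWG hR (fun x hx => hφA x fun hA => ?_) (fun x hx => hgφA x fun hA => ?_) e
    · exact absurd (hAR x hA) (not_le.2 hx)
    · exact absurd (hAR x hA) (not_le.2 hx)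
  have hint1 := integrable_el hp1' h.mem.isD.memLp hgφm
  have hint2 : Integrable (fun x => ‖e‖ ^ (p - 2) * inner ℝ e (gφ x)) volume := by
    refine (integrable_el hp1' heA hgφm).congr (Eventually.of_forall fun x => ?_)
    by_cases hx : x ∈ A
    · simp only [indicator_of_mem hx]
    · simp only [indicator_of_notMem hx, hgφA x hx, inner_zero_right, mul_zero]
  have hval2 : ∫ x, ‖e‖ ^ (p - 2) * inner ℝ e (gφ x) = 0 := by
    rw [← hzero]
    refine integral_congr_ae (Eventually.of_forall fun x => ?_)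
    simp only [he, Real.one_rpow, one_mul]
    exact real_inner_comm _ _
  have hfin := comparison (by omega : 1 ≤ n) hp (g := fun _ => e) (h := g) hφD
    (Eventually.of_forall fun x hx => by
      by_cases hxA : x ∈ A
      · exact hgφA' x hxA
      · exact absurd (hgφA x hxA) hx)
    (hint1.sub hint2) (by rw [integral_sub hint1 hint2, heuler, hval2, sub_zero]) hφe y
  have h3 : u y - ℓ y - δ ≤ 0 := by
    rw [← hfin]
    exact le_max_left _ _
  have h4 : ℓ y = inner ℝ y e := max_eq_left hy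
  rw [h4] at h3
  linarith

end HMor
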