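import Pool.Agent.W_MP_55e37b_an.Defs
import Pool.Agent.W_MP_55e37b_an.PosPart
import Pool.Agent.W_MP_55e37b_an.Exist
import Pool.Agent.W_MP_55e37b_an.EL
import Pool.Agent.W_MP_55e37b_an.Comp
import Pool.Agent.W_MP_55e37b_an.Upper
import Pool.Agent.W_MP_55e37b_an.Bridge
import Pool.Agent.W_55e37b_h43.Slab

set_option autoImplicit false

/-!
# MP_55e37b_an, large p: the flux comparison
-/

open MeasureTheory Metric Set Filter Topology
open scoped ENNReal

namespace HMor

open BasicsAux BridgeAux

variable {n : ℕ}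

private lemma Flux_gradient (e x : E n) : gradient (fun y : E n => (inner ℝ y e : ℝ)) x = e := by
  have h1 : HasFDerivAt (fun y : E n => (inner ℝ y e : ℝ)) (innerSL ℝ e) x := by
    have h2 := (innerSL ℝ e).hasFDerivAt (x := x)
    refine h2.congr_of_eventuallyEq (Eventually.of_forall fun y => ?_)
    exact real_inner_comm _ _
  refine ext_inner_right ℝ fun v => ?_
  rw [inner_gradient', h1.fderiv]
  rfl

private lemma Flux_wg (e : E n) : WG (fun y : E n => (inner ℝ y e : ℝ)) (fun _ => e) := by
  have h1 : ContDiff ℝ 1 (fun y : E n => (inner ℝ y e : ℝ)) := contDiff_id.inner ℝ contDiff_const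
  have h2 := WG.of_contDiff h1
  have h3 : gradient (fun y : E n => (inner ℝ y e : ℝ)) = fun _ => e :=
    funext fun x => Flux_gradient e x
  rwa [h3] at h2

private lemma Flux_unit {p : ℝ} {e : E n} (he : ‖e‖ = 1) (S : Set (E n)) (y v : E n) :
    ‖indicator S (fun _ => e) y‖ ^ (p - 2) * inner ℝ (indicator S (fun _ => e) y) v =
      inner ℝ (indicator S (fun _ => e) y) v := by
  by_cases hy : y ∈ S
  · rw [indicator_of_mem hy, he, Real.one_rpow, one_mul]
  · rw [indicator_of_notMem hy, inner_zero_left, mul_zero]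

private lemma Flux_mono {p : ℝ} (hp : 1 < p) {e : E n} (he : ‖e‖ = 1) (S : Set (E n))
    (y b : E n) :
    0 ≤ inner ℝ (indicator S (fun _ => e) y) (indicator S (fun _ => e) y - b) -
      ‖b‖ ^ (p - 2) * inner ℝ b (indicator S (fun _ => e) y - b) := by
  rw [← Flux_unit (p := p) he S y]
  by_cases h : indicator S (fun _ => e) y = b
  · rw [h, sub_self]
  · exact (rpow_mono hp h).le

/-- The flux comparison.  `χ ≥ 0` is smooth with compact support in `{y·e < 1}`.
Let `ℓ y = max (y·e) 0`, `w = ℓ - u ≥ 0` on `{y·e < 1}` (`slab_le`), `w = 0` off `H`.  For `δ > 0`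
the function `φ = χ * min (w / δ) 1` is in `D_0^{1,p}(H)`, vanishes at `e`, has compact support.
`IsMin.euler`: `∫ ‖g‖^(p-2) ⟪g, gφ⟫ = 0`; and `∫ ⟪e, gφ⟫ = 0`.  Subtract:
`∫ min (w/δ) 1 * ⟪e - ‖g‖^(p-2) g, ∇χ⟫ = - δ⁻¹ ∫_{0 < w < δ} χ ⟪e - ‖g‖^(p-2) g, e - g⟫ ≤ 0`
(monotonicity).  `δ → 0` (dominated convergence): `∫_{w > 0} ⟪e - ‖g‖^(p-2) g, ∇χ⟫ ≤ 0`, and on
`{w = 0} ∩ H` one has `g = e` a.e. (`WG.ae_zero` for `ℓ - u`).  So
`- ∫ ‖g‖^(p-2) ⟪g, ∇χ⟫ ≤ - ∫_H ⟪e, ∇χ⟫`. -/
lemma flux_le (hn : 2 ≤ n) {p : ℝ} (hp : (n : ℝ) < p) {e : E n} (he : ‖e‖ = 1)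
    {u : E n → ℝ} {g : E n → E n} (h : IsMin p (halfspace e 0) e u g)
    (hu : ∀ x, 0 ≤ u x ∧ u x ≤ 1) {χ : E n → ℝ}
    (hχ : ContDiff ℝ ((⊤ : ℕ∞) : WithTop ℕ∞) χ) (hc : HasCompactSupport χ)
    (h0 : ∀ y, 0 ≤ χ y) (h1 : ∀ y, 3 / 4 ≤ inner ℝ y e → χ y = 0) :
    - ∫ y, ‖g y‖ ^ (p - 2) * inner ℝ (g y) (gradient χ y) ≤
      - ∫ y in halfspace e 0, inner ℝ e (gradient χ y) := by
  classical
  have hn2 : (2 : ℝ) ≤ n := by exact_mod_cast hn
  have hp1 : 1 < p := by linarith
  have hg : MemLp g (ENNReal.ofReal p) volume := h.mem.isD.memLp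
  have hχ1 := one_of_smooth hχ
  have hHm : MeasurableSet (halfspace e (0 : ℝ) : Set (E n)) :=
    (isOpen_lt continuous_const (continuous_id.inner continuous_const)).measurableSet
  obtain ⟨gl, hgl⟩ : ∃ gl : E n → E n, gl = indicator (halfspace e 0) (fun _ => e) := ⟨_, rfl⟩
  have hℓ : WG (fun y : E n => max (inner ℝ y e : ℝ) 0) gl := by
    rw [hgl]
    exact (Flux_wg e).posPart
  obtain ⟨w, hwdef⟩ : ∃ w : E n → ℝ, ∀ y, w y = max (inner ℝ y e : ℝ) 0 - u y :=
    ⟨_, fun _ => rfl⟩
  have hw : WG w (fun y => gl y - g y) := by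
    have h2 := hℓ.sub (h.mem.isD.wg hp1.le)
    have h3 : w = fun y => max (inner ℝ y e : ℝ) 0 - u y := funext hwdef
    rwa [← h3] at h2
  have hwoff : ∀ y, y ∉ halfspace e 0 → w y = 0 := by
    intro y hy
    have h2 : (inner ℝ y e : ℝ) ≤ 0 := mem_compl_halfspace.1 hy
    rw [hwdef, max_eq_right h2, h.mem.zero y hy, sub_zero]
  have hwnn : ∀ y, 0 ≤ w y := by
    intro y
    rw [hwdef]
    rcases le_total 0 (inner ℝ y e : ℝ) with h2 | h2
    · rw [max_eq_left h2]
      have := slab_le hn hp he h hu y h2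
      linarith
    · have h3 : y ∉ halfspace e 0 := mem_compl_halfspace.2 h2
      rw [max_eq_right h2, h.mem.zero y h3, sub_zero]
  -- the integrand `B`
  obtain ⟨B, hBdef⟩ : ∃ B : E n → ℝ, ∀ y, B y = inner ℝ (gl y) (gradient χ y) -
      ‖g y‖ ^ (p - 2) * inner ℝ (g y) (gradient χ y) := ⟨_, fun _ => rfl⟩
  have hgχ : MemLp (gradient χ) (ENNReal.ofReal p) volume :=
    (cont_gradient hχ1).memLp_of_hasCompactSupport (supp_gradient hc)
  have hB1 : Integrable (fun y => (inner ℝ (gl y) (gradient χ y) : ℝ)) volume := by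
    have h2 : Integrable (fun y => (inner ℝ e (gradient χ y) : ℝ)) volume :=
      (continuous_const.inner (cont_gradient hχ1)).integrable_of_hasCompactSupport
        ((supp_gradient hc).comp_left (g := fun z : E n => (inner ℝ e z : ℝ)) (inner_zero_right e))
    refine (h2.indicator hHm).congr (Eventually.of_forall fun y => ?_)
    show indicator (halfspace e 0) (fun y => (inner ℝ e (gradient χ y) : ℝ)) y =
      inner ℝ (gl y) (gradient χ y)
    rw [hgl]
    by_cases hy : y ∈ halfspace e 0
    · rw [indicator_of_mem hy, indicator_of_mem hy]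
    · rw [indicator_of_notMem hy, indicator_of_notMem hy, inner_zero_left]
  have hB2 : Integrable (fun y => ‖g y‖ ^ (p - 2) * inner ℝ (g y) (gradient χ y)) volume :=
    integrable_el hp1 hg hgχ
  have hBi : Integrable B volume := by
    have h2 : B = fun y => inner ℝ (gl y) (gradient χ y) -
      ‖g y‖ ^ (p - 2) * inner ℝ (g y) (gradient χ y) := funext hBdef
    rw [h2]
    exact hB1.sub hB2
  -- bound for `χ`
  obtain ⟨C, hC⟩ := hc.exists_bound_of_continuous hχ.continuous
  have hχLp : MemLp χ (ENNReal.ofReal p) volume :=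
    hχ.continuous.memLp_of_hasCompactSupport hc
  have hee : (inner ℝ e e : ℝ) = 1 := by rw [real_inner_self_eq_norm_sq, he, one_pow]
  -- one step
  have step : ∀ K : ℝ, 0 < K → ∫ y, min (K * w y) 1 * B y ≤ 0 := by
    intro K hK
    have hm := (hw.const_mul K).pmin (WG.const (n := n) 1)
    obtain ⟨m, hmdef⟩ : ∃ m : E n → ℝ, ∀ y, m y = min (K * w y) 1 := ⟨_, fun _ => rfl⟩
    obtain ⟨gm, hgm⟩ : ∃ gm : E n → E n, ∀ y, gm y = if (1 : ℝ) < K * w y then (0 : E n) else
      K • (gl y - g y) := ⟨_, fun _ => rfl⟩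
    have hm' : WG m gm := by
      have e1 : m = fun y => min (K * w y) 1 := funext hmdef
      have e2 : gm = fun y => if (1 : ℝ) < K * w y then (0 : E n) else K • (gl y - g y) :=
        funext hgm
      rw [e1, e2]
      exact hm
    have hm0 : ∀ y, 0 ≤ m y := fun y => by
      rw [hmdef]
      exact le_min (mul_nonneg hK.le (hwnn y)) zero_le_one
    have hm1 : ∀ y, m y ≤ 1 := fun y => by
      rw [hmdef]
      exact min_le_right _ _
    have hmoff : ∀ y, y ∉ halfspace e 0 → m y = 0 := by
      intro y hy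
      rw [hmdef, hwoff y hy, mul_zero, min_eq_left zero_le_one]
    have hφw := hm'.mul_smooth hχ
    have hgmLp : MemLp (fun y => χ y • gm y) (ENNReal.ofReal p) volume := by
      have h2 : MemLp (fun y => ‖χ y‖ + C * ‖g y‖) (ENNReal.ofReal p) volume :=
        hχLp.norm.add (hg.norm.const_mul C)
      have h3 : AEStronglyMeasurable (fun y => χ y • gm y) volume :=
        hχ.continuous.aestronglyMeasurable.smul hm'.locInt.aestronglyMeasurable
      refine h2.of_le_mul (c := K) h3 (Eventually.of_forall fun y => ?_)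
      have hC0 : 0 ≤ C := (norm_nonneg _).trans (hC y)
      have h4 : ‖gl y‖ ≤ 1 := by
        rw [hgl]
        by_cases hy : y ∈ halfspace e 0
        · rw [indicator_of_mem hy, he]
        · rw [indicator_of_notMem hy, norm_zero]
          exact zero_le_one
      have h5 : ‖gm y‖ ≤ K * (1 + ‖g y‖) := by
        rw [hgm]
        split_ifs
        · rw [norm_zero]
          positivity
        · rw [norm_smul, Real.norm_eq_abs, abs_of_pos hK]
          refine mul_le_mul_of_nonneg_left ?_ hK.le
          exact (norm_sub_le _ _).trans (by linarith)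
      have h6 : 0 ≤ ‖χ y‖ + C * ‖g y‖ := by positivity
      rw [norm_smul, Real.norm_of_nonneg h6]
      calc ‖χ y‖ * ‖gm y‖ ≤ ‖χ y‖ * (K * (1 + ‖g y‖)) :=
            mul_le_mul_of_nonneg_left h5 (norm_nonneg _)
        _ = K * (‖χ y‖ + ‖χ y‖ * ‖g y‖) := by ring
        _ ≤ K * (‖χ y‖ + C * ‖g y‖) := by
            refine mul_le_mul_of_nonneg_left ?_ hK.le
            have := mul_le_mul_of_nonneg_right (hC y) (norm_nonneg (g y))
            linarith
    have hmχ : MemLp (fun y => m y • gradient χ y) (ENNReal.ofReal p) volume := by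
      refine hgχ.mono (hm'.cont.aestronglyMeasurable.smul
        (cont_gradient hχ1).aestronglyMeasurable) (Eventually.of_forall fun y => ?_)
      rw [norm_smul, Real.norm_of_nonneg (hm0 y)]
      exact mul_le_of_le_one_left (norm_nonneg _) (hm1 y)
    have hgφ : MemLp (fun y => χ y • gm y + m y • gradient χ y) (ENNReal.ofReal p) volume :=
      hgmLp.add hmχ
    have hφ : IsD0 p (halfspace e 0) (fun y => χ y * m y)
        (fun y => χ y • gm y + m y • gradient χ y) := by
      refine ⟨⟨hφw.cont, hgφ, hφw.weak⟩, fun y hy => ?_⟩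
      rw [hmoff y hy, mul_zero]
    have hφe : (fun y => χ y * m y) e = 0 := by
      show χ e * m e = 0
      rw [h1 e (by rw [hee]; norm_num), zero_mul]
    have h2 := h.euler hp1 hφ hφe
    have h3 := hm'.weak χ hχ hc e
    have i1 := int1 hm'.cont hχ1 hc e
    have i2 := int2 hm'.locInt hχ.continuous hc e
    have hae : (fun y => (inner ℝ (gl y) (χ y • gm y + m y • gradient χ y) : ℝ)) =ᵐ[volume]
        fun y => inner ℝ (gm y) e * χ y + m y * fderiv ℝ χ y e := by
      filter_upwards [(h.mem.isD.wg hp1.le).ae_zero] with y hy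
      by_cases hyH : y ∈ halfspace e 0
      · rw [hgl, indicator_of_mem hyH, inner_add_right, real_inner_smul_right,
          real_inner_smul_right, real_inner_comm (gm y) e, real_inner_comm (gradient χ y) e,
          inner_gradient']
        ring
      · have hg0 : g y = 0 := hy (h.mem.zero y hyH)
        have hgl0 : gl y = 0 := by rw [hgl, indicator_of_notMem hyH]
        have hgm0 : gm y = 0 := by
          rw [hgm, hg0, hgl0, sub_zero, smul_zero, ite_self]
        rw [hgl0, hgm0, hmoff y hyH]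
        simp
    have i3 : Integrable
        (fun y => (inner ℝ (gl y) (χ y • gm y + m y • gradient χ y) : ℝ)) volume :=
      (i2.add i1).congr hae.symm
    have h4 : ∫ y, (inner ℝ (gl y) (χ y • gm y + m y • gradient χ y) : ℝ) = 0 := by
      rw [integral_congr_ae hae, integral_add i2 i1, h3]
      ring
    have i4 : Integrable (fun y => ‖g y‖ ^ (p - 2) *
        inner ℝ (g y) (χ y • gm y + m y • gradient χ y)) volume := integrable_el hp1 hg hgφ
    have h5 : ∫ y, ((inner ℝ (gl y) (χ y • gm y + m y • gradient χ y) : ℝ) -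
        ‖g y‖ ^ (p - 2) * inner ℝ (g y) (χ y • gm y + m y • gradient χ y)) = 0 := by
      rw [integral_sub i3 i4, h4, h2, sub_zero]
    have i5 : Integrable (fun y => m y * B y) volume := by
      refine hBi.mono (hm'.cont.aestronglyMeasurable.mul hBi.aestronglyMeasurable)
        (Eventually.of_forall fun y => ?_)
      rw [norm_mul, Real.norm_of_nonneg (hm0 y)]
      exact mul_le_of_le_one_left (norm_nonneg _) (hm1 y)
    have h6 : ∫ y, m y * B y ≤ ∫ y, ((inner ℝ (gl y) (χ y • gm y + m y • gradient χ y) : ℝ) -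
        ‖g y‖ ^ (p - 2) * inner ℝ (g y) (χ y • gm y + m y • gradient χ y)) := by
      refine integral_mono i5 (i3.sub i4) fun y => ?_
      show m y * B y ≤ (inner ℝ (gl y) (χ y • gm y + m y • gradient χ y) : ℝ) -
        ‖g y‖ ^ (p - 2) * inner ℝ (g y) (χ y • gm y + m y • gradient χ y)
      rw [hBdef, inner_add_right, inner_add_right, real_inner_smul_right, real_inner_smul_right,
        real_inner_smul_right, real_inner_smul_right]
      have h7 : 0 ≤ χ y * ((inner ℝ (gl y) (gm y) : ℝ) -
          ‖g y‖ ^ (p - 2) * inner ℝ (g y) (gm y)) := by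
        refine mul_nonneg (h0 y) ?_
        rw [hgm]
        split_ifs
        · simp
        · rw [real_inner_smul_right, real_inner_smul_right]
          have h8 := Flux_mono hp1 he (halfspace e 0) y (g y)
          rw [← hgl] at h8
          have h9 := mul_nonneg hK.le h8
          have h10 : K * ((inner ℝ (gl y) (gl y - g y) : ℝ) -
              ‖g y‖ ^ (p - 2) * inner ℝ (g y) (gl y - g y)) =
              K * inner ℝ (gl y) (gl y - g y) -
              ‖g y‖ ^ (p - 2) * (K * inner ℝ (g y) (gl y - g y)) := by ring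
          rw [← h10]
          exact h9
      have h11 : χ y * (inner ℝ (gl y) (gm y) : ℝ) + m y * inner ℝ (gl y) (gradient χ y) -
          ‖g y‖ ^ (p - 2) * (χ y * inner ℝ (g y) (gm y) + m y * inner ℝ (g y) (gradient χ y)) =
          χ y * ((inner ℝ (gl y) (gm y) : ℝ) - ‖g y‖ ^ (p - 2) * inner ℝ (g y) (gm y)) +
          m y * ((inner ℝ (gl y) (gradient χ y) : ℝ) -
            ‖g y‖ ^ (p - 2) * inner ℝ (g y) (gradient χ y)) := by ring
      rw [h11]
      linarith
    rw [h5] at h6
    have h12 : (fun y => min (K * w y) 1 * B y) = fun y => m y * B y :=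
      funext fun y => by rw [hmdef]
    rw [h12]
    exact h6
  -- the limit
  have hlim : Tendsto (fun k : ℕ => ∫ y, min (((k : ℝ) + 1) * w y) 1 * B y) atTop
      (𝓝 (∫ y, B y)) := by
    refine tendsto_integral_of_dominated_convergence (fun y => ‖B y‖) ?_ hBi.norm ?_ ?_
    · intro k
      exact ((continuous_const.mul hw.cont).min continuous_const).aestronglyMeasurable.mul
        hBi.aestronglyMeasurable
    · intro k
      refine Eventually.of_forall fun y => ?_
      have h2 : 0 ≤ min (((k : ℝ) + 1) * w y) 1 :=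
        le_min (mul_nonneg (by positivity) (hwnn y)) zero_le_one
      rw [norm_mul, Real.norm_of_nonneg h2]
      exact mul_le_of_le_one_left (norm_nonneg _) (min_le_right _ _)
    · filter_upwards [hw.ae_zero] with y hy
      rcases (hwnn y).eq_or_lt with h2 | h2
      · have h3 : gl y - g y = 0 := hy h2.symm
        have h4 : g y = gl y := (sub_eq_zero.1 h3).symm
        have h5 : B y = 0 := by
          rw [hBdef, h4, hgl, Flux_unit he, sub_self]
        simp only [h5, mul_zero]
        exact tendsto_const_nhds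
      · have h3 : ∀ᶠ k : ℕ in atTop, min (((k : ℝ) + 1) * w y) 1 * B y = B y := by
          obtain ⟨N, hN⟩ := exists_nat_gt (1 / w y)
          filter_upwards [eventually_ge_atTop N] with k hk
          have h4 : (N : ℝ) ≤ k := by exact_mod_cast hk
          have h5 : 1 < N * w y := by
            rw [div_lt_iff₀ h2] at hN
            exact hN
          have h6 : (N : ℝ) * w y ≤ ((k : ℝ) + 1) * w y :=
            mul_le_mul_of_nonneg_right (by linarith) h2.le
          rw [min_eq_right (by linarith), one_mul]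
        exact tendsto_const_nhds.congr' (h3.mono fun k hk => hk.symm)
  have hfin : ∫ y, B y ≤ 0 := le_of_tendsto' hlim fun k => step _ (by positivity)
  have hsplit : ∫ y, B y = (∫ y in halfspace e 0, (inner ℝ e (gradient χ y) : ℝ)) -
      ∫ y, ‖g y‖ ^ (p - 2) * inner ℝ (g y) (gradient χ y) := by
    have e1 : B = fun y => inner ℝ (gl y) (gradient χ y) -
      ‖g y‖ ^ (p - 2) * inner ℝ (g y) (gradient χ y) := funext hBdef
    rw [e1, integral_sub hB1 hB2, ← integral_indicator hHm]
    congr 2
    funext y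
    rw [hgl]
    by_cases hy : y ∈ halfspace e 0
    · rw [indicator_of_mem hy, indicator_of_mem hy]
    · rw [indicator_of_notMem hy, indicator_of_notMem hy, inner_zero_left]
  linarith

end HMor
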