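import Pool.Agent.W_MP_55e37b_an.Defs
import Pool.Agent.W_MP_55e37b_an.PosPart
import Pool.Agent.W_MP_55e37b_an.Exist
import Pool.Agent.W_MP_55e37b_an.EL
import Pool.Agent.W_MP_55e37b_an.Comp
import Pool.Agent.W_MP_55e37b_an.Upper
import Pool.Agent.W_MP_55e37b_an.Bridge
import Pool.Agent.W_55e37b_h43.Flux
import Pool.Agent.W_55e37b_h43.Chi
import Pool.Agent.W_55e37b_h43.EDer

set_option autoImplicit false

/-!
# MP_55e37b_an, large p: raising the wall near the axis
-/

open MeasureTheory Metric Set Filter Topology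
open scoped ENNReal

namespace HMor

variable {n : ℕ}

/-- Raising the wall: the function `max (u - h χ) 0`, `h < 1/4`; on the bump `u ≤ y·e ≤ h`
(`slab_le`).  Energy: `energy_deriv` (with `w = ∇χ`) and `flux_le`; the minimiser exists by
`exists_min` and its energy is `cH p e`. -/
theorem bump_le (n : ℕ) (hn : 2 ≤ n) : ∃ C : ℝ, 0 < C ∧ ∀ p : ℝ, (n : ℝ) < p → ∀ e : E n,
    ‖e‖ = 1 → ∀ ρ : ℝ, 0 < ρ → ρ ≤ 1 → ∀ ε : ℝ, 0 < ε → ∃ h0 : ℝ, 0 < h0 ∧ ∀ h : ℝ, 0 < h →
    h < h0 → ∃ (v : E n → ℝ) (gv : E n → E n), IsD p v gv ∧ v e = 1 ∧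
      (∀ y, inner ℝ y e ≤ 0 → v y = 0) ∧
      (∀ y, inner ℝ y e ≤ h → ‖y - (inner ℝ y e : ℝ) • e‖ ≤ ρ → v y = 0) ∧
      energy p gv ≤ cH p e + h * (p * (C * ρ) + ε) := by
  obtain ⟨C, hC, hchi⟩ := exists_chi n hn
  refine ⟨C, hC, ?_⟩
  intro p hp e he ρ hρ hρ1 ε hε
  have hnR : (2 : ℝ) ≤ n := by exact_mod_cast hn
  have hp2 : 2 ≤ p := by linarith
  have hp1 : 1 ≤ p := by linarith
  have hp0 : 0 < p := by linarith
  have hee : (inner ℝ e e : ℝ) = 1 := by
    rw [real_inner_self_eq_norm_sq, he, one_pow]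
  have hopen : IsOpen (halfspace e 0) :=
    isOpen_lt continuous_const (continuous_id.inner continuous_const)
  have hmem : e ∈ halfspace e 0 := by
    show (0 : ℝ) < inner ℝ e e
    rw [hee]
    exact one_pos
  have hne : halfspace e 0 ≠ univ := by
    intro h
    have h1 : (0 : E n) ∈ halfspace e 0 := by
      rw [h]
      exact mem_univ _
    have h2 : (0 : ℝ) < inner ℝ (0 : E n) e := h1
    rw [inner_zero_left] at h2
    exact lt_irrefl _ h2
  obtain ⟨u, g, hmin, hu⟩ := exists_min (by omega : 1 ≤ n) hp hp2 hopen hne hmem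
  obtain ⟨χ, hχ, hc, h01, hχ0, hχ1, hflux⟩ := hchi e he ρ hρ hρ1
  have hχ1' : ContDiff ℝ 1 χ := hχ.of_le (by simp)
  have hDχ : IsD p χ (gradient χ) := IsD.of_contDiff hχ1' hc
  have hcH : energy p g ≤ cH p e := by
    apply le_csInf
    · exact ⟨_, u, g, hmin.mem, hmin.one, rfl⟩
    · rintro c ⟨u', g', h1, h2, rfl⟩
      exact hmin.le u' g' h1 h2
  obtain ⟨h0, hh0, hder⟩ := energy_deriv hp2 hmin.mem.isD.memLp hDχ.memLp hε
  have hfl := flux_le hn hp he hmin hu hχ hc (fun y => (h01 y).1)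
    (fun y hy => hχ0 y (by linarith))
  refine ⟨min h0 (1 / 4), lt_min hh0 (by norm_num), ?_⟩
  intro h hh hlt
  have hlt1 : h < h0 := hlt.trans_le (min_le_left _ _)
  have hlt2 : h < 1 / 4 := hlt.trans_le (min_le_right _ _)
  have hD := hmin.mem.isD.sub hp1 (hDχ.const_mul hp1 h)
  have hW := (hD.wg hp1).posPart
  have hm : MeasurableSet {x : E n | 0 < u x - h * χ x} :=
    (isOpen_lt continuous_const hD.cont).measurableSet
  have hle : ∀ x, ‖indicator {x : E n | 0 < u x - h * χ x}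
      (fun x => g x - h • gradient χ x) x‖ ≤ ‖g x - h • gradient χ x‖ := fun x =>
    norm_indicator_le_norm_self _ x
  have hL : MemLp (indicator {x : E n | 0 < u x - h * χ x}
      (fun x => g x - h • gradient χ x)) (ENNReal.ofReal p) volume :=
    hD.memLp.indicator hm
  have hDv : IsD p (fun x => max (u x - h * χ x) 0) (indicator {x : E n | 0 < u x - h * χ x}
      (fun x => g x - h • gradient χ x)) := ⟨hW.cont, hL, hW.weak⟩
  have hneg : ∀ y, (inner ℝ y e : ℝ) ≤ 0 → u y - h * χ y ≤ 0 := by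
    intro y hy
    have h1 : u y = 0 := hmin.mem.zero y (by
      intro h2
      have h3 : (0 : ℝ) < inner ℝ y e := h2
      linarith)
    rw [h1]
    have := mul_nonneg hh.le (h01 y).1
    linarith
  refine ⟨_, _, hDv, ?_, ?_, ?_, ?_⟩
  · show max (u e - h * χ e) 0 = 1
    rw [hmin.one, hχ0 e (by rw [hee]; norm_num), mul_zero, sub_zero, max_eq_left zero_le_one]
  · intro y hy
    exact max_eq_right (hneg y hy)
  · intro y hy hyρ
    apply max_eq_right
    by_cases h1 : (inner ℝ y e : ℝ) ≤ 0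
    · exact hneg y h1
    · push Not at h1
      have h2 := slab_le hn hp he hmin hu y h1.le
      have h3 : χ y = 1 := hχ1 y (by
        rw [abs_of_pos h1]
        linarith) hyρ
      rw [h3, mul_one]
      linarith
  · have h1 : energy p (indicator {x : E n | 0 < u x - h * χ x}
        (fun x => g x - h • gradient χ x)) ≤ energy p (fun x => g x - h • gradient χ x) := by
      unfold energy
      apply integral_mono (hDv.integrable_rpow hp0) (hD.integrable_rpow hp0)
      intro x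
      exact Real.rpow_le_rpow (norm_nonneg _) (hle x) hp0.le
    refine h1.trans ((hder h hh hlt1).trans ?_)
    have h2 : -(p * ∫ x, ‖g x‖ ^ (p - 2) * inner ℝ (g x) (gradient χ x)) ≤ p * (C * ρ) := by
      have h3 := hfl.trans hflux
      have h4 := mul_le_mul_of_nonneg_left h3 hp0.le
      rw [mul_neg] at h4
      exact h4
    have h5 := mul_le_mul_of_nonneg_left (add_le_add_left h2 ε) hh.le
    linarith

end HMor
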