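import Pool.Agent.W_MP_55e37b_an.Defs
import Pool.Agent.W_MP_55e37b_an.PosPart
import Pool.Agent.W_MP_55e37b_an.Exist
import Pool.Agent.W_MP_55e37b_an.Sim

set_option autoImplicit false

/-!
# MP_55e37b_an, large p: the capacity of the origin relative to a closed set

`cp p F` is the infimum of the energies of the functions `u` of `D^{1,p}(ℝⁿ)` which vanish on `F`
and have `u 0 = 1`.  It is monotone, submodular, invariant under linear isometries and homogeneous
of degree `n - p`.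
-/

open MeasureTheory Metric Set Filter Topology
open scoped ENNReal Pointwise

namespace HMor

variable {n : ℕ}

/-- `u` (with weak gradient `g`) is a competitor for `F`. -/
def Comp (p : ℝ) (F : Set (E n)) (u : E n → ℝ) (g : E n → E n) : Prop :=
  IsD p u g ∧ (∀ x ∈ F, u x = 0) ∧ u 0 = 1

/-- The `p`-capacity of the origin relative to `F`. -/
noncomputable def cp (p : ℝ) (F : Set (E n)) : ℝ :=
  sInf {c : ℝ | ∃ (u : E n → ℝ) (g : E n → E n), Comp p F u g ∧ c = energy p g}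

/-- Admissible sets. -/
def Adm (F : Set (E n)) : Prop := IsClosed F ∧ (0 : E n) ∉ F

lemma Adm.union {F G : Set (E n)} (hF : Adm F) (hG : Adm G) : Adm (F ∪ G) :=
  ⟨hF.1.union hG.1, fun h => h.elim hF.2 hG.2⟩

lemma Adm.inter {F G : Set (E n)} (hF : Adm F) (hG : Adm G) : Adm (F ∩ G) :=
  ⟨hF.1.inter hG.1, fun h => hF.2 h.1⟩

lemma Adm.empty : Adm (∅ : Set (E n)) := ⟨isClosed_empty, fun h => h⟩

lemma cp_le {p : ℝ} {F : Set (E n)} {u : E n → ℝ} {g : E n → E n} (h : Comp p F u g) :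
    cp p F ≤ energy p g := by
  refine csInf_le ⟨0, ?_⟩ ⟨u, g, h, rfl⟩
  rintro c ⟨u', g', _, rfl⟩
  exact Exist.energy_nonneg p g'

lemma cp_nonneg (p : ℝ) (F : Set (E n)) : 0 ≤ cp p F := by
  refine Real.sInf_nonneg ?_
  rintro c ⟨u', g', _, rfl⟩
  exact Exist.energy_nonneg p g'

lemma cap_nonempty (p : ℝ) {F : Set (E n)} (hF : Adm F) :
    {c : ℝ | ∃ (u : E n → ℝ) (g : E n → E n), Comp p F u g ∧ c = energy p g}.Nonempty := by
  obtain ⟨u, g, hu, h1⟩ := Exist.competitor (p := p) hF.1.isOpen_compl hF.2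
  exact ⟨_, u, g, ⟨hu.isD, fun x hx => hu.zero x (fun h => h hx), h1⟩, rfl⟩

/-- Use `Exist.competitor` (with `Ω = Fᶜ`, `a = 0`) for the existence of competitors. -/
lemma cp_exists_lt {p : ℝ} {F : Set (E n)} (hF : Adm F) {ε : ℝ} (hε : 0 < ε) :
    ∃ (u : E n → ℝ) (g : E n → E n), Comp p F u g ∧ energy p g < cp p F + ε := by
  obtain ⟨c, ⟨u, g, hu, rfl⟩, hc⟩ := exists_lt_of_csInf_lt (cap_nonempty p hF)
    (lt_add_of_pos_right (cp p F) hε)
  exact ⟨u, g, hu, hc⟩

/-- Competitors may be taken nonnegative (`IsD.abs`). -/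
lemma cp_exists_lt_nonneg {p : ℝ} (hp : 1 ≤ p) {F : Set (E n)} (hF : Adm F) {ε : ℝ} (hε : 0 < ε) :
    ∃ (u : E n → ℝ) (g : E n → E n), Comp p F u g ∧ (∀ x, 0 ≤ u x) ∧
      energy p g < cp p F + ε := by
  obtain ⟨u, g, ⟨hu, hu0, hu1⟩, hE⟩ := cp_exists_lt (p := p) hF hε
  obtain ⟨g', hg', hn'⟩ := hu.abs hp
  refine ⟨_, g', ⟨hg', fun x hx => ?_, ?_⟩, fun x => abs_nonneg _, ?_⟩
  · rw [hu0 x hx, abs_zero]
  · rw [hu1, abs_one]
  · have h1 : energy p g' = energy p g := by
      unfold energy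
      simp only [hn']
    rw [h1]
    exact hE

lemma le_cp {p : ℝ} {F : Set (E n)} (hF : Adm F) {c : ℝ}
    (h : ∀ (u : E n → ℝ) (g : E n → E n), Comp p F u g → c ≤ energy p g) : c ≤ cp p F := by
  refine le_csInf (cap_nonempty p hF) ?_
  rintro c' ⟨u, g, hu, rfl⟩
  exact h u g hu

lemma cp_mono {p : ℝ} {F G : Set (E n)} (hFG : F ⊆ G) (hG : Adm G) : cp p F ≤ cp p G :=
  le_cp hG fun _ _ hu => cp_le ⟨hu.1, fun x hx => hu.2.1 x (hFG hx), hu.2.2⟩

/-- Submodularity: for nonnegative competitors `u` of `F` and `v` of `G` the minimum is a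
competitor of `F ∪ G`, the maximum one of `F ∩ G`, and the sum of their energies is the sum of the
energies of `u` and `v` (`WG.pmin`, `WG.pmax`: at every point the two gradients are `g x`, `h x` in
some order). -/
lemma cp_submod {p : ℝ} (hp : 1 ≤ p) {F G : Set (E n)} (hF : Adm F) (hG : Adm G) :
    cp p (F ∪ G) + cp p (F ∩ G) ≤ cp p F + cp p G := by
  classical
  refine le_of_forall_pos_le_add fun ε hε => ?_
  obtain ⟨u, g, ⟨hu, hu0, hu1⟩, hup, hE⟩ := cp_exists_lt_nonneg hp hF (half_pos hε)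
  obtain ⟨v, h, ⟨hv, hv0, hv1⟩, hvp, hE'⟩ := cp_exists_lt_nonneg hp hG (half_pos hε)
  have hp0 : 0 < p := by linarith
  have hset : MeasurableSet {x | v x < u x} := (isOpen_lt hv.cont hu.cont).measurableSet
  have hmem1 : MemLp (fun x => if v x < u x then g x else h x) (ENNReal.ofReal p) volume := by
    have h1 := (hu.memLp.indicator hset).add (hv.memLp.indicator hset.compl)
    refine h1.ae_eq (Eventually.of_forall fun x => ?_)
    by_cases hx : v x < u x
    · simp [indicator, hx]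
    · simp [indicator, hx]
  have hmem2 : MemLp (fun x => if v x < u x then h x else g x) (ENNReal.ofReal p) volume := by
    have h1 := (hv.memLp.indicator hset).add (hu.memLp.indicator hset.compl)
    refine h1.ae_eq (Eventually.of_forall fun x => ?_)
    by_cases hx : v x < u x
    · simp [indicator, hx]
    · simp [indicator, hx]
  have hmax : IsD p (fun x => max (u x) (v x)) (fun x => if v x < u x then g x else h x) :=
    ⟨hu.cont.max hv.cont, hmem1, ((hu.wg hp).pmax (hv.wg hp)).weak⟩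
  have hmin : IsD p (fun x => min (u x) (v x)) (fun x => if v x < u x then h x else g x) :=
    ⟨hu.cont.min hv.cont, hmem2, ((hu.wg hp).pmin (hv.wg hp)).weak⟩
  have h1 : cp p (F ∪ G) ≤ energy p (fun x => if v x < u x then h x else g x) := by
    refine cp_le ⟨hmin, fun x hx => ?_, ?_⟩
    · rcases hx with hx | hx
      · show min (u x) (v x) = 0
        rw [hu0 x hx, min_eq_left (hvp x)]
      · show min (u x) (v x) = 0
        rw [hv0 x hx, min_eq_right (hup x)]
    · show min (u 0) (v 0) = 1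
      rw [hu1, hv1, min_self]
  have h2 : cp p (F ∩ G) ≤ energy p (fun x => if v x < u x then g x else h x) := by
    refine cp_le ⟨hmax, fun x hx => ?_, ?_⟩
    · show max (u x) (v x) = 0
      rw [hu0 x hx.1, hv0 x hx.2, max_self]
    · show max (u 0) (v 0) = 1
      rw [hu1, hv1, max_self]
  have h3 : energy p (fun x => if v x < u x then h x else g x) +
      energy p (fun x => if v x < u x then g x else h x) = energy p g + energy p h := by
    unfold energy
    rw [← integral_add (hmin.integrable_rpow hp0) (hmax.integrable_rpow hp0),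
      ← integral_add (hu.integrable_rpow hp0) (hv.integrable_rpow hp0)]
    refine integral_congr_ae (Eventually.of_forall fun x => ?_)
    by_cases hx : v x < u x
    · simp only [hx, if_true]
      ring
    · simp only [hx, if_false]
  linarith

/-- Invariance under linear isometries (`IsD.comp_sim` with `t = 1`, `b = 0`). -/
private lemma cap_isom_sub {p : ℝ} (hp : 1 ≤ p) (A : E n ≃ₗᵢ[ℝ] E n) (F : Set (E n)) :
    {c : ℝ | ∃ (u : E n → ℝ) (g : E n → E n), Comp p F u g ∧ c = energy p g} ⊆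
      {c : ℝ | ∃ (u : E n → ℝ) (g : E n → E n), Comp p (A ⁻¹' F) u g ∧ c = energy p g} := by
  rintro c ⟨u, g, ⟨hu, hu0, hu1⟩, rfl⟩
  refine ⟨_, _, ⟨hu.comp_sim hp A 0 one_pos, fun x hx => ?_, ?_⟩, ?_⟩
  · show u (0 + (1 : ℝ) • A x) = 0
    rw [zero_add, one_smul]
    exact hu0 _ hx
  · show u (0 + (1 : ℝ) • A 0) = 1
    rw [zero_add, one_smul, map_zero, hu1]
  · rw [energy_comp_sim p g A 0 one_pos, Real.one_rpow, one_mul]

lemma cp_isom {p : ℝ} (hp : 1 ≤ p) (A : E n ≃ₗᵢ[ℝ] E n) (F : Set (E n)) :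
    cp p (A ⁻¹' F) = cp p F := by
  unfold cp
  congr 1
  refine Subset.antisymm ?_ (cap_isom_sub hp A F)
  have h1 := cap_isom_sub hp A.symm (A ⁻¹' F)
  have h2 : A.symm ⁻¹' (A ⁻¹' F) = F := by
    ext x
    simp
  rwa [h2] at h1

/-- Scaling (`IsD.comp_sim` with `A = 1`, `b = 0`; `energy_comp_sim`): if `u` is a competitor for
`F` then `x ↦ u (s⁻¹ x)` is one for `s F`, with energy `s ^ (n - p)` times that of `u`. -/
private lemma cap_smul_comp {p : ℝ} (hp : 1 ≤ p) {s : ℝ} (hs : 0 < s) {F : Set (E n)}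
    {u : E n → ℝ} {g : E n → E n} (h : Comp p F u g) :
    ∃ (u' : E n → ℝ) (g' : E n → E n), Comp p {x : E n | s⁻¹ • x ∈ F} u' g' ∧
      energy p g' = s ^ ((n : ℝ) - p) * energy p g := by
  obtain ⟨hu, hu0, hu1⟩ := h
  refine ⟨_, _, ⟨hu.comp_sim hp (LinearIsometryEquiv.refl ℝ (E n)) 0 (inv_pos.2 hs),
    fun x hx => ?_, ?_⟩, ?_⟩
  · show u (0 + s⁻¹ • x) = 0
    rw [zero_add]
    exact hu0 _ hx
  · show u (0 + s⁻¹ • (0 : E n)) = 1
    rw [zero_add, smul_zero, hu1]
  · rw [energy_comp_sim p g _ 0 (inv_pos.2 hs), Real.inv_rpow hs.le, ← Real.rpow_neg hs.le]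
    congr 2
    ring

lemma cp_smul {p : ℝ} (hp : 1 ≤ p) {s : ℝ} (hs : 0 < s) (F : Set (E n)) :
    cp p {x : E n | s⁻¹ • x ∈ F} = s ^ ((n : ℝ) - p) * cp p F := by
  have hs' : 0 < s ^ ((n : ℝ) - p) := Real.rpow_pos_of_pos hs _
  have h0 : {c : ℝ | ∃ (u : E n → ℝ) (g : E n → E n),
      Comp p {x : E n | s⁻¹ • x ∈ F} u g ∧ c = energy p g} =
      s ^ ((n : ℝ) - p) • {c : ℝ | ∃ (u : E n → ℝ) (g : E n → E n), Comp p F u g ∧
        c = energy p g} := by
    ext c
    rw [Set.mem_smul_set]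
    constructor
    · rintro ⟨u, g, hu, rfl⟩
      obtain ⟨u', g', hu', hE⟩ := cap_smul_comp hp (inv_pos.2 hs) hu
      have h1 : {x : E n | s⁻¹⁻¹ • x ∈ {x : E n | s⁻¹ • x ∈ F}} = F := by
        ext x
        simp only [mem_ofPred_eq, smul_smul, inv_inv, inv_mul_cancel₀ hs.ne', one_smul]
      rw [h1] at hu'
      refine ⟨energy p g', ⟨u', g', hu', rfl⟩, ?_⟩
      rw [hE, smul_eq_mul, ← mul_assoc, Real.inv_rpow hs.le, mul_inv_cancel₀ hs'.ne', one_mul]
    · rintro ⟨c', ⟨u, g, hu, rfl⟩, rfl⟩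
      obtain ⟨u', g', hu', hE⟩ := cap_smul_comp hp hs hu
      exact ⟨u', g', hu', by rw [hE, smul_eq_mul]⟩
  unfold cp
  rw [h0, Real.sInf_smul_of_nonneg hs'.le, smul_eq_mul]

/-- The closed halfspace `{x : s ≤ x·e}` which does not contain the origin. -/
def wall (e : E n) (s : ℝ) : Set (E n) := {x | s ≤ inner ℝ x e}

lemma wall_adm (e : E n) {s : ℝ} (hs : 0 < s) : Adm (wall e s) := by
  refine ⟨isClosed_le continuous_const (continuous_id.inner continuous_const), fun h => ?_⟩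
  have h1 : s ≤ inner ℝ (0 : E n) e := h
  rw [inner_zero_left] at h1
  linarith

/-- `cp p (wall e 1) = cH p e`: the map `x ↦ e - x` takes the origin to `e` and the complement of
`wall e 1` to `halfspace e 0` (`IsD.comp_sim` with `A = -1`, `b = e`, in both directions). -/
lemma cp_wall_one {p : ℝ} (hp : 1 ≤ p) {e : E n} (he : ‖e‖ = 1) : cp p (wall e 1) = cH p e := by
  have hee : inner ℝ e e = (1 : ℝ) := by rw [real_inner_self_eq_norm_sq, he, one_pow]
  have hval : ∀ x : E n, e + (1 : ℝ) • (LinearIsometryEquiv.neg ℝ : E n ≃ₗᵢ[ℝ] E n) x = e - x := by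
    intro x
    rw [one_smul, LinearIsometryEquiv.coe_neg, sub_eq_add_neg]
  unfold cp cH
  congr 1
  ext c
  constructor
  · rintro ⟨u, g, ⟨hu, hu0, hu1⟩, rfl⟩
    refine ⟨_, _, ⟨hu.comp_sim hp (LinearIsometryEquiv.neg ℝ) e one_pos, fun x hx => ?_⟩, ?_, ?_⟩
    · show u (e + (1 : ℝ) • (LinearIsometryEquiv.neg ℝ : E n ≃ₗᵢ[ℝ] E n) x) = 0
      rw [hval]
      apply hu0
      show 1 ≤ inner ℝ (e - x) e
      have hx' : ¬ (0 < inner ℝ x e) := hx
      rw [inner_sub_left, hee]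
      linarith
    · show u (e + (1 : ℝ) • (LinearIsometryEquiv.neg ℝ : E n ≃ₗᵢ[ℝ] E n) e) = 1
      rw [hval, sub_self, hu1]
    · rw [energy_comp_sim p g _ e one_pos, Real.one_rpow, one_mul]
  · rintro ⟨u, g, hu, hu1, rfl⟩
    refine ⟨_, _, ⟨hu.isD.comp_sim hp (LinearIsometryEquiv.neg ℝ) e one_pos, fun x hx => ?_, ?_⟩,
      ?_⟩
    · show u (e + (1 : ℝ) • (LinearIsometryEquiv.neg ℝ : E n ≃ₗᵢ[ℝ] E n) x) = 0
      rw [hval]
      apply hu.zero
      show ¬ (0 < inner ℝ (e - x) e)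
      have hx' : 1 ≤ inner ℝ x e := hx
      rw [inner_sub_left, hee]
      linarith
    · show u (e + (1 : ℝ) • (LinearIsometryEquiv.neg ℝ : E n ≃ₗᵢ[ℝ] E n) 0) = 1
      rw [hval, sub_zero, hu1]
    · rw [energy_comp_sim p g _ e one_pos, Real.one_rpow, one_mul]

lemma cp_wall {p : ℝ} (hp : 1 ≤ p) {e : E n} (he : ‖e‖ = 1) {s : ℝ} (hs : 0 < s) :
    cp p (wall e s) = s ^ ((n : ℝ) - p) * cH p e := by
  have h1 : wall e s = {x : E n | s⁻¹ • x ∈ wall e 1} := by
    ext x
    simp only [wall, mem_ofPred_eq, real_inner_smul_left]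
    rw [inv_mul_eq_div, one_le_div hs]
  rw [h1, cp_smul hp hs, cp_wall_one hp he]

end HMor
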