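import Pool.Agent.W_55e37b_h43.Cap

set_option autoImplicit false

/-!
# MP_55e37b_an, large p: the greedy bound

`e` is a unit vector, `K 0, ..., K (J-1)` are closed cones which cover the halfspace `x·e > 0`,
`q > 1`.  `cell e q K s j` is the part of the cone `K j` in the shell `s ≤ x·e ≤ q s`.
-/

open MeasureTheory Metric Set Filter Topology
open scoped ENNReal

namespace HMor

variable {n : ℕ}

/-- A finite family of closed cones covering the open halfspace. -/
structure Fan (e : E n) (J : ℕ) (K : ℕ → Set (E n)) : Prop where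
  closed : ∀ j, IsClosed (K j)
  cone : ∀ j x (s : ℝ), 0 < s → x ∈ K j → s • x ∈ K j
  cover : ∀ x : E n, 0 < inner ℝ x e → ∃ j < J, x ∈ K j

/-- The cells. -/
def cell (e : E n) (q : ℝ) (K : ℕ → Set (E n)) (s : ℝ) (j : ℕ) : Set (E n) :=
  {x | x ∈ K j ∧ s ≤ inner ℝ x e ∧ inner ℝ x e ≤ q * s}

/-- The halfspace `q s ≤ x·e` together with the first `j` cells of the shell at `s`. -/
def stack (e : E n) (q : ℝ) (K : ℕ → Set (E n)) (s : ℝ) (j : ℕ) : Set (E n) :=
  wall e (q * s) ∪ {x | ∃ i < j, x ∈ cell e q K s i}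

/-- The increments of the capacity along the stacks at `s = 1`. -/
noncomputable def kk (p : ℝ) (e : E n) (q : ℝ) (K : ℕ → Set (E n)) (j : ℕ) : ℝ :=
  cp p (stack e q K 1 (j + 1)) - cp p (stack e q K 1 j)

/-- The normalised weights. -/
noncomputable def mm' (p : ℝ) (e : E n) (q : ℝ) (K : ℕ → Set (E n)) (j : ℕ) : ℝ :=
  kk p e q K j / (1 - q ^ ((n : ℝ) - p))

lemma cell_adm {e : E n} {J : ℕ} {K : ℕ → Set (E n)} (hK : Fan e J K) {q s : ℝ} (hs : 0 < s)
    (j : ℕ) : Adm (cell e q K s j) := by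
  refine ⟨?_, fun h => ?_⟩
  · have h1 : cell e q K s j = K j ∩ ({x | s ≤ inner ℝ x e} ∩ {x | inner ℝ x e ≤ q * s}) := by
      ext x
      rfl
    rw [h1]
    exact (hK.closed j).inter ((isClosed_le continuous_const
      (continuous_id.inner continuous_const)).inter
      (isClosed_le (continuous_id.inner continuous_const) continuous_const))
  · have h1 : s ≤ inner ℝ (0 : E n) e := h.2.1
    rw [inner_zero_left] at h1
    linarith

lemma cells_adm {e : E n} {J : ℕ} {K : ℕ → Set (E n)} (hK : Fan e J K) {q s : ℝ} (hs : 0 < s)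
    (S : Set ℕ) (hS : S.Finite) : Adm {x | ∃ i ∈ S, x ∈ cell e q K s i} := by
  have h1 : {x | ∃ i ∈ S, x ∈ cell e q K s i} = ⋃ i ∈ S, cell e q K s i := by
    ext x
    simp
  refine ⟨?_, ?_⟩
  · rw [h1]
    exact hS.isClosed_biUnion fun i _ => (cell_adm hK hs i).1
  · rintro ⟨i, _, hi⟩
    exact (cell_adm hK hs i).2 hi

lemma stack_adm {e : E n} {J : ℕ} {K : ℕ → Set (E n)} (hK : Fan e J K) {q s : ℝ} (hq : 1 < q)
    (hs : 0 < s) (j : ℕ) : Adm (stack e q K s j) := by
  refine (wall_adm e (by positivity)).union ?_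
  exact cells_adm hK hs {i | i < j} (Set.finite_lt_nat j)

lemma kk_nonneg (p : ℝ) {e : E n} {J : ℕ} {K : ℕ → Set (E n)} (hK : Fan e J K) {q : ℝ}
    (hq : 1 < q) (j : ℕ) : 0 ≤ kk p e q K j := by
  refine sub_nonneg.2 (cp_mono ?_ (stack_adm hK hq one_pos (j + 1)))
  rintro x (hx | ⟨i, hi, hx⟩)
  · exact Or.inl hx
  · exact Or.inr ⟨i, hi.trans (Nat.lt_succ_self j), hx⟩

/-- The stack at `s` is `s` times the stack at `1`. -/
lemma stack_smul {e : E n} {J : ℕ} {K : ℕ → Set (E n)} (hK : Fan e J K)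
    {q s : ℝ} (hs : 0 < s) (j : ℕ) :
    stack e q K s j = {x : E n | s⁻¹ • x ∈ stack e q K 1 j} := by
  have hc : ∀ i (x : E n), s⁻¹ • x ∈ K i ↔ x ∈ K i := by
    intro i x
    refine ⟨fun h => ?_, fun h => hK.cone i x _ (inv_pos.2 hs) h⟩
    have h1 := hK.cone i _ s hs h
    rwa [smul_smul, mul_inv_cancel₀ hs.ne', one_smul] at h1
  have h1 : ∀ c : ℝ, ∀ x : E n, c ≤ inner ℝ (s⁻¹ • x) e ↔ c * s ≤ inner ℝ x e := by
    intro c x
    rw [real_inner_smul_left, inv_mul_eq_div, le_div_iff₀ hs]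
  have h2 : ∀ c : ℝ, ∀ x : E n, inner ℝ (s⁻¹ • x) e ≤ c ↔ inner ℝ x e ≤ c * s := by
    intro c x
    rw [real_inner_smul_left, inv_mul_eq_div, div_le_iff₀ hs]
  ext x
  simp only [stack, wall, cell, mem_union, mem_ofPred_eq, hc, h1, h2, one_mul, mul_one]

/-- Scaling: `stack` at `s` is `s` times `stack` at `1` (`cp_smul`). -/
lemma stack_diff {p : ℝ} (hp : 1 ≤ p) {e : E n} {J : ℕ} {K : ℕ → Set (E n)} (hK : Fan e J K)
    {q s : ℝ} (hs : 0 < s) (j : ℕ) :
    cp p (stack e q K s (j + 1)) - cp p (stack e q K s j) =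
      s ^ ((n : ℝ) - p) * kk p e q K j := by
  rw [stack_smul hK hs (j + 1), stack_smul hK hs j, cp_smul hp hs, cp_smul hp hs]
  unfold kk
  ring

/-- The sum of all increments: `stack e q K 1 J = wall e 1` by the covering property
(telescoping sum, `cp_wall`). -/
lemma sum_kk {p : ℝ} (hp : 1 ≤ p) {e : E n} (he : ‖e‖ = 1) {J : ℕ} {K : ℕ → Set (E n)}
    (hK : Fan e J K) {q : ℝ} (hq : 1 < q) :
    ∑ j ∈ Finset.range J, kk p e q K j = (1 - q ^ ((n : ℝ) - p)) * cH p e := by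
  have h1 : ∑ j ∈ Finset.range J, kk p e q K j =
      cp p (stack e q K 1 J) - cp p (stack e q K 1 0) := by
    unfold kk
    exact Finset.sum_range_sub (fun j => cp p (stack e q K 1 j)) J
  have h2 : stack e q K 1 J = wall e 1 := by
    ext x
    constructor
    · rintro (hx | ⟨i, _, hx⟩)
      · have h3 : q * 1 ≤ inner ℝ x e := hx
        show (1 : ℝ) ≤ inner ℝ x e
        linarith
      · exact hx.2.1
    · intro hx
      have h3 : (1 : ℝ) ≤ inner ℝ x e := hx
      by_cases h4 : q * 1 ≤ inner ℝ x e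
      · exact Or.inl h4
      · obtain ⟨j, hj, hxj⟩ := hK.cover x (by linarith)
        exact Or.inr ⟨j, hj, hxj, h3, (not_le.1 h4).le⟩
  have h3 : stack e q K 1 0 = wall e q := by
    ext x
    constructor
    · rintro (hx | ⟨i, hi, _⟩)
      · have h3 : q * 1 ≤ inner ℝ x e := hx
        rwa [mul_one] at h3
      · exact absurd hi (Nat.not_lt_zero i)
    · intro hx
      refine Or.inl ?_
      show q * 1 ≤ inner ℝ x e
      rw [mul_one]
      exact hx
  rw [h1, h2, h3, cp_wall hp he one_pos, cp_wall hp he (by linarith), Real.one_rpow]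
  ring

/-- One shell.  Induction on `m ≤ J`: with `B m = A ∪ ⋃ (j ∈ S, j < m), cell j` one has
`cp (B m) ≥ cp A + s ^ (n-p) * ∑ (j ∈ S, j < m), kk j`.  Step for `m ∈ S`: `cp_submod` with
`F = B m ∪ cell m = B (m+1)` and `G = stack s m`; `F ∪ G = stack s (m+1)` and `B m ⊆ F ∩ G`
because `A ⊆ wall e (q s)`. -/
lemma shell_step {p : ℝ} (hp : 1 ≤ p) {e : E n} {J : ℕ} {K : ℕ → Set (E n)} (hK : Fan e J K)
    {q s : ℝ} (hq : 1 < q) (hs : 0 < s) {A : Set (E n)} (hA : Adm A)
    (hAw : A ⊆ wall e (q * s)) (S : Finset ℕ) :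
    cp p A + s ^ ((n : ℝ) - p) * ∑ j ∈ S, kk p e q K j ≤
      cp p (A ∪ {x | ∃ j ∈ S, x ∈ cell e q K s j}) := by
  classical
  have hB : ∀ T : Finset ℕ, Adm (A ∪ {x | ∃ j ∈ T, x ∈ cell e q K s j}) := fun T =>
    hA.union (cells_adm hK hs (T : Set ℕ) T.finite_toSet)
  -- induction on the maximum
  induction S using Finset.induction_on_max with
  | empty => simp
  | insert m S hm ih =>
    have hmS : m ∉ S := fun h => lt_irrefl _ (hm m h)
    rw [Finset.sum_insert hmS, mul_add]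
    have hsub := cp_submod hp (hB (insert m S)) (stack_adm hK hq hs m)
    have h1 : cp p (stack e q K s (m + 1)) ≤
        cp p ((A ∪ {x | ∃ j ∈ insert m S, x ∈ cell e q K s j}) ∪ stack e q K s m) := by
      refine cp_mono ?_ ((hB _).union (stack_adm hK hq hs m))
      rintro x (hx | ⟨i, hi, hx⟩)
      · exact Or.inr (Or.inl hx)
      · rcases Nat.lt_succ_iff_lt_or_eq.1 hi with h | h
        · exact Or.inr (Or.inr ⟨i, h, hx⟩)
        · subst h
          exact Or.inl (Or.inr ⟨i, Finset.mem_insert_self _ _, hx⟩)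
    have h2 : cp p (A ∪ {x | ∃ j ∈ S, x ∈ cell e q K s j}) ≤
        cp p ((A ∪ {x | ∃ j ∈ insert m S, x ∈ cell e q K s j}) ∩ stack e q K s m) := by
      refine cp_mono ?_ ((hB _).inter (stack_adm hK hq hs m))
      rintro x (hx | ⟨i, hi, hx⟩)
      · exact ⟨Or.inl hx, Or.inl (hAw hx)⟩
      · exact ⟨Or.inr ⟨i, Finset.mem_insert_of_mem hi, hx⟩, Or.inr ⟨i, hm i hi, hx⟩⟩
    have h3 := stack_diff hp hK (q := q) hs m
    linarith

/-- Near the axis: if the capacity of `{x·e ≥ 1}` together with the cells of the shell at `1/q`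
with index in `S` is at most `C`, then the sum of the `kk j` is small (`shell_step` with
`A = wall e 1`, `s = q⁻¹`). -/
theorem near_le {p : ℝ} (hp : 1 ≤ p) {e : E n} (he : ‖e‖ = 1) {J : ℕ} {K : ℕ → Set (E n)}
    (hK : Fan e J K) {q : ℝ} (hq : 1 < q) (S : Finset ℕ) {C : ℝ}
    (hC : cp p (wall e 1 ∪ {x | ∃ j ∈ S, x ∈ cell e q K q⁻¹ j}) ≤ C) :
    cH p e + q ^ (p - (n : ℝ)) * ∑ j ∈ S, kk p e q K j ≤ C := by
  have hq0 : 0 < q := by linarith
  have h1 := shell_step hp hK hq (inv_pos.2 hq0) (wall_adm e one_pos)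
    (fun x (hx : (1 : ℝ) ≤ inner ℝ x e) => ?_) S
  · rw [cp_wall_one hp he, Real.inv_rpow hq0.le, ← Real.rpow_neg hq0.le, neg_sub] at h1
    exact h1.trans hC
  · show q * q⁻¹ ≤ inner ℝ x e
    rw [mul_inv_cancel₀ hq0.ne']
    exact hx

end HMor
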