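import Pool.Agent.W_55e37b_h43.Fan

set_option autoImplicit false

/-!
# MP_55e37b_an, large p: the fan inequality
-/

open MeasureTheory Metric Set Filter Topology
open scoped ENNReal

namespace HMor

variable {n : ℕ}

/-- the shells, counted from above -/
private noncomputable def fanT (T q : ℝ) (m : ℕ) : ℝ := T / q ^ m

private lemma fanT_pos {T q : ℝ} (hT : 0 < T) (hq : 1 < q) (m : ℕ) : 0 < fanT T q m :=
  div_pos hT (pow_pos (by linarith) m)

private lemma fanT_succ {T q : ℝ} (hq : 1 < q) (m : ℕ) : q * fanT T q (m + 1) = fanT T q m := by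
  have hq0 : q ≠ 0 := by linarith
  unfold fanT
  rw [pow_succ]
  field_simp

private lemma fanT_le {T q : ℝ} (hT : 0 < T) (hq : 1 < q) (m : ℕ) : fanT T q m ≤ T :=
  div_le_self hT.le (one_le_pow₀ hq.le)

/-- the sets of the induction -/
private def fanA (e : E n) (q : ℝ) (K : ℕ → Set (E n)) (S : Finset ℕ) (lam : ℕ → ℝ) (T : ℝ) :
    ℕ → Set (E n)
  | 0 => ∅
  | m + 1 => fanA e q K S lam T m ∪
      {x | ∃ j ∈ S.filter (fun j => lam j ≤ fanT T q (m + 1)), x ∈ cell e q K (fanT T q (m + 1)) j}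

private lemma fan_cells_adm {e : E n} {J : ℕ} {K : ℕ → Set (E n)} (hK : Fan e J K) {q s : ℝ}
    (hs : 0 < s) (S : Finset ℕ) : Adm {x | ∃ j ∈ S, x ∈ cell e q K s j} := by
  classical
  induction S using Finset.induction_on with
  | empty =>
    have : {x : E n | ∃ j ∈ (∅ : Finset ℕ), x ∈ cell e q K s j} = ∅ := by
      ext x; simp
    rw [this]
    exact Adm.empty
  | insert a S ha ih =>
    have : {x : E n | ∃ j ∈ insert a S, x ∈ cell e q K s j} =
        cell e q K s a ∪ {x | ∃ j ∈ S, x ∈ cell e q K s j} := by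
      ext x
      simp
    rw [this]
    exact (cell_adm hK hs a).union ih

private lemma fanA_adm {e : E n} {J : ℕ} {K : ℕ → Set (E n)} (hK : Fan e J K) {q : ℝ}
    (hq : 1 < q) (S : Finset ℕ) (lam : ℕ → ℝ) {T : ℝ} (hT : 0 < T) (m : ℕ) :
    Adm (fanA e q K S lam T m) := by
  induction m with
  | zero => exact Adm.empty
  | succ m ih => exact ih.union (fan_cells_adm hK (fanT_pos hT hq (m + 1)) _)

private lemma fanA_wall {e : E n} {K : ℕ → Set (E n)} {q : ℝ}
    (hq : 1 < q) (S : Finset ℕ) (lam : ℕ → ℝ) {T : ℝ} (hT : 0 < T) (m : ℕ) :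
    fanA e q K S lam T m ⊆ wall e (fanT T q m) := by
  induction m with
  | zero => exact empty_subset _
  | succ m ih =>
    rintro x (hx | ⟨j, _, hx⟩)
    · have h1 : fanT T q m ≤ inner ℝ x e := ih hx
      have h2 := fanT_succ (T := T) hq m
      have h3 := fanT_pos hT hq (m + 1)
      show fanT T q (m + 1) ≤ inner ℝ x e
      nlinarith
    · exact hx.2.1

private lemma fanA_sub {e : E n} {K : ℕ → Set (E n)} {q : ℝ}
    (hq : 1 < q) (S : Finset ℕ) {lam : ℕ → ℝ} {T : ℝ} (hT : 0 < T) {F : Set (E n)}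
    (h : ∀ j ∈ S, ∀ x ∈ K j, lam j ≤ inner ℝ x e → inner ℝ x e ≤ T → x ∈ F) (m : ℕ) :
    fanA e q K S lam T m ⊆ F := by
  induction m with
  | zero => exact empty_subset _
  | succ m ih =>
    rintro x (hx | ⟨j, hj, hx⟩)
    · exact ih hx
    · rw [Finset.mem_filter] at hj
      refine h j hj.1 x hx.1 (hj.2.trans hx.2.1) (hx.2.2.trans ?_)
      rw [fanT_succ hq m]
      exact fanT_le hT hq m

private lemma fanA_cp {p : ℝ} (hp : 1 ≤ p) {e : E n} {J : ℕ} {K : ℕ → Set (E n)}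
    (hK : Fan e J K) {q : ℝ} (hq : 1 < q) (S : Finset ℕ) (lam : ℕ → ℝ) {T : ℝ} (hT : 0 < T)
    (m : ℕ) :
    ∑ j ∈ S, kk p e q K j * ∑ i ∈ Finset.range m,
      (if lam j ≤ fanT T q (i + 1) then fanT T q (i + 1) ^ ((n : ℝ) - p) else 0) ≤
      cp p (fanA e q K S lam T m) := by
  classical
  induction m with
  | zero =>
    simp only [Finset.range_zero, Finset.sum_empty, mul_zero, Finset.sum_const_zero]
    exact cp_nonneg _ _
  | succ m ih =>
    have h1 := shell_step hp hK hq (fanT_pos hT hq (m + 1)) (fanA_adm hK hq S lam hT m)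
      (by rw [fanT_succ hq m]; exact fanA_wall hq S lam hT m)
      (S.filter (fun j => lam j ≤ fanT T q (m + 1)))
    have h2 : ∑ j ∈ S, kk p e q K j * ∑ i ∈ Finset.range (m + 1),
        (if lam j ≤ fanT T q (i + 1) then fanT T q (i + 1) ^ ((n : ℝ) - p) else 0) =
        ∑ j ∈ S, kk p e q K j * ∑ i ∈ Finset.range m,
          (if lam j ≤ fanT T q (i + 1) then fanT T q (i + 1) ^ ((n : ℝ) - p) else 0) +
        fanT T q (m + 1) ^ ((n : ℝ) - p) *
          ∑ j ∈ S.filter (fun j => lam j ≤ fanT T q (m + 1)), kk p e q K j := by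
      rw [Finset.sum_filter, Finset.mul_sum, ← Finset.sum_add_distrib]
      refine Finset.sum_congr rfl fun j _ => ?_
      rw [Finset.sum_range_succ]
      split_ifs <;> ring
    rw [h2]
    exact (add_le_add_left ih _).trans h1

private lemma fan_sum {n : ℕ} {p : ℝ} (hp : (n : ℝ) < p) {q : ℝ} (hq : 1 < q) {T : ℝ} (hT : 0 < T)
    {l : ℝ} (hl : 0 < l) (m : ℕ) :
    min (fanT T q m ^ ((n : ℝ) - p)) ((q * l) ^ ((n : ℝ) - p)) - T ^ ((n : ℝ) - p) ≤
      (1 - q ^ ((n : ℝ) - p)) * ∑ i ∈ Finset.range m,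
        (if l ≤ fanT T q (i + 1) then fanT T q (i + 1) ^ ((n : ℝ) - p) else 0) := by
  have hneg : (n : ℝ) - p ≤ 0 := by linarith
  induction m with
  | zero =>
    have h0 : fanT T q 0 = T := by simp [fanT]
    rw [h0]
    simp only [Finset.range_zero, Finset.sum_empty, mul_zero]
    have := min_le_left (T ^ ((n : ℝ) - p)) ((q * l) ^ ((n : ℝ) - p))
    linarith
  | succ m ih =>
    have hq0 : 0 < q := by linarith
    have hs := fanT_pos hT hq (m + 1)
    have hs' := fanT_pos hT hq m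
    have hsc := fanT_succ (T := T) hq m
    have hr : fanT T q m ^ ((n : ℝ) - p) =
        q ^ ((n : ℝ) - p) * fanT T q (m + 1) ^ ((n : ℝ) - p) := by
      rw [← hsc, Real.mul_rpow hq0.le hs.le]
    rw [Finset.sum_range_succ, mul_add]
    split_ifs with hc
    · have h1 : q * l ≤ fanT T q m := by
        rw [← hsc]
        exact mul_le_mul_of_nonneg_left hc hq0.le
      have h2 : fanT T q m ^ ((n : ℝ) - p) ≤ (q * l) ^ ((n : ℝ) - p) :=
        Real.rpow_le_rpow_of_nonpos (mul_pos hq0 hl) h1 hneg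
      rw [min_eq_left h2] at ih
      have h3 := min_le_left (fanT T q (m + 1) ^ ((n : ℝ) - p)) ((q * l) ^ ((n : ℝ) - p))
      have h4 : (1 - q ^ ((n : ℝ) - p)) * fanT T q (m + 1) ^ ((n : ℝ) - p) =
          fanT T q (m + 1) ^ ((n : ℝ) - p) - fanT T q m ^ ((n : ℝ) - p) := by
        rw [hr]; ring
      linarith
    · have h1 : fanT T q m ≤ q * l := by
        rw [← hsc]
        exact mul_le_mul_of_nonneg_left (not_le.1 hc).le hq0.le
      have h2 : (q * l) ^ ((n : ℝ) - p) ≤ fanT T q m ^ ((n : ℝ) - p) :=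
        Real.rpow_le_rpow_of_nonpos hs' h1 hneg
      rw [min_eq_right h2] at ih
      have h3 := min_le_right (fanT T q (m + 1) ^ ((n : ℝ) - p)) ((q * l) ^ ((n : ℝ) - p))
      rw [mul_zero, add_zero]
      linarith

private lemma fan_large {q T l : ℝ} (hq : 1 < q) (hl : 0 < l) :
    ∀ᶠ m : ℕ in atTop, fanT T q m ≤ q * l := by
  have h1 : Tendsto (fun m : ℕ => T * (q⁻¹) ^ m) atTop (𝓝 (T * 0)) :=
    (tendsto_pow_atTop_nhds_zero_of_lt_one (by positivity) (inv_lt_one_of_one_lt₀ hq)).const_mul T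
  rw [mul_zero] at h1
  filter_upwards [h1.eventually (gt_mem_nhds (mul_pos (by linarith : (0 : ℝ) < q) hl))] with m hm
  unfold fanT
  rw [div_eq_mul_inv, ← inv_pow]
  exact hm.le

/-- The fan inequality.  Take `M` large, `s_i = T / q ^ (M - i)` for `0 ≤ i ≤ M`, so that `s_M = T`
and `s_0 ≤ lam j` for all `j ∈ S`; let `i_j` be the least `i` with `lam j ≤ s_i` (`i_j = M` if there
is none), so `s_(i_j) ≤ q * lam j` or `i_j = M`.  Apply `shell_step` for `i = M - 1, ..., 0` to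
`A_i = ⋃ (i' ≥ i), ⋃ (j with i_j ≤ i'), cell s_i' j ⊆ F`:
`cp A_0 ≥ ∑ j, kk j * ∑ (i_j ≤ i < M), s_i ^ (n-p)` and the inner sum is the geometric sum
`(s_(i_j) ^ (n-p) - T ^ (n-p)) / (1 - q ^ (n-p))`. -/
theorem fan_le {p : ℝ} (hn : 1 ≤ n) (hp : (n : ℝ) < p) {e : E n} {J : ℕ} {K : ℕ → Set (E n)}
    (hK : Fan e J K) {q : ℝ} (hq : 1 < q) {F : Set (E n)} (hF : Adm F) (S : Finset ℕ)
    {lam : ℕ → ℝ} (hlam : ∀ j ∈ S, 0 < lam j) {T : ℝ} (hT : 0 < T)
    (h : ∀ j ∈ S, ∀ x ∈ K j, lam j ≤ inner ℝ x e → inner ℝ x e ≤ T → x ∈ F) :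
    ∑ j ∈ S, mm' p e q K j * ((q * lam j) ^ ((n : ℝ) - p) - T ^ ((n : ℝ) - p)) ≤ cp p F := by
  classical
  have hp1 : 1 ≤ p := by
    have : (1 : ℝ) ≤ n := by exact_mod_cast hn
    linarith
  have hneg : (n : ℝ) - p < 0 := by linarith
  have hr : q ^ ((n : ℝ) - p) < 1 := Real.rpow_lt_one_of_one_lt_of_neg hq hneg
  obtain ⟨M, hM⟩ : ∃ M : ℕ, ∀ j ∈ S, fanT T q M ≤ q * lam j := by
    have h1 : ∀ᶠ m : ℕ in atTop, ∀ j ∈ S, fanT T q m ≤ q * lam j :=
      (Filter.eventually_all_finset S).2 fun j hj => fan_large hq (hlam j hj)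
    exact h1.exists
  have h1 := fanA_cp (n := n) hp1 hK hq S lam hT M
  have h2 : cp p (fanA e q K S lam T M) ≤ cp p F := cp_mono (fanA_sub hq S hT h M) hF
  refine le_trans (Finset.sum_le_sum fun j hj => ?_) (h1.trans h2)
  have h3 := fan_sum (n := n) hp hq hT (hlam j hj) M
  have hq0 : 0 < q := by linarith
  have h4 : (q * lam j) ^ ((n : ℝ) - p) ≤ fanT T q M ^ ((n : ℝ) - p) :=
    Real.rpow_le_rpow_of_nonpos (fanT_pos hT hq M) (hM j hj) hneg.le
  rw [min_eq_right h4] at h3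
  have h5 : 0 < 1 - q ^ ((n : ℝ) - p) := by linarith
  have h6 := kk_nonneg p hK hq j
  unfold mm'
  rw [div_mul_eq_mul_div, mul_div_assoc]
  refine mul_le_mul_of_nonneg_left ?_ h6
  rw [div_le_iff₀ h5]
  exact h3.trans_eq (mul_comm _ _)

end HMor
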