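import Pool.Agent.W_55e37b_h43.Fan
import Pool.Agent.W_55e37b_h43.Design

set_option autoImplicit false

/-!
# MP_55e37b_an, large p: the fan of small cubes
-/

open MeasureTheory Metric Set Filter Topology
open scoped ENNReal

namespace HMor

variable {n : ℕ}

/-- The cone over a cube. -/
def cube (b : OrthonormalBasis (Fin n) ℝ (E n)) (i0 : Fin n) (η : ℝ) (N : ℕ)
    (z : Fin n → Fin (2 * N + 1)) : Set (E n) :=
  {x | ∀ i, i ≠ i0 → |inner ℝ x (b i) - η * ((z i : ℝ) - N) * inner ℝ x (b i0)| ≤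
    η * inner ℝ x (b i0)}

/-- The cone outside all the cubes. -/
def outer (b : OrthonormalBasis (Fin n) ℝ (E n)) (i0 : Fin n) (r : ℝ) : Set (E n) :=
  {x | ∃ i, i ≠ i0 ∧ r * inner ℝ x (b i0) ≤ |inner ℝ x (b i)|}

/-- The centre of a cube. -/
noncomputable def cctr (b : OrthonormalBasis (Fin n) ℝ (E n)) (i0 : Fin n) (η : ℝ) (N : ℕ)
    (z : Fin n → Fin (2 * N + 1)) : E n :=
  ∑ i ∈ Finset.univ.erase i0, (η * ((z i : ℝ) - N)) • b i

lemma cube_closed (b : OrthonormalBasis (Fin n) ℝ (E n)) (i0 : Fin n) (η : ℝ) (N : ℕ)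
    (z : Fin n → Fin (2 * N + 1)) : IsClosed (cube b i0 η N z) := by
  have h1 : cube b i0 η N z = ⋂ i, ⋂ (_ : i ≠ i0),
      {x : E n | |inner ℝ x (b i) - η * ((z i : ℝ) - N) * inner ℝ x (b i0)| ≤
        η * inner ℝ x (b i0)} := by
    ext x
    simp [cube]
  rw [h1]
  refine isClosed_iInter fun i => isClosed_iInter fun _ => isClosed_le ?_ ?_
  · fun_prop
  · fun_prop

lemma outer_closed (b : OrthonormalBasis (Fin n) ℝ (E n)) (i0 : Fin n) (r : ℝ) :
    IsClosed (outer b i0 r) := by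
  have h1 : outer b i0 r = ⋃ i, {x : E n | i ≠ i0 ∧ r * inner ℝ x (b i0) ≤ |inner ℝ x (b i)|} := by
    ext x
    simp [outer]
  rw [h1]
  refine isClosed_iUnion_of_finite fun i => ?_
  by_cases hi : i = i0
  · have h2 : {x : E n | i ≠ i0 ∧ r * inner ℝ x (b i0) ≤ |inner ℝ x (b i)|} = ∅ := by
      ext x
      simp [hi]
    rw [h2]
    exact isClosed_empty
  · have h2 : {x : E n | i ≠ i0 ∧ r * inner ℝ x (b i0) ≤ |inner ℝ x (b i)|} =
        {x : E n | r * inner ℝ x (b i0) ≤ |inner ℝ x (b i)|} := by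
      ext x
      simp [hi]
    rw [h2]
    refine isClosed_le ?_ ?_
    · fun_prop
    · fun_prop

lemma cube_cone (b : OrthonormalBasis (Fin n) ℝ (E n)) (i0 : Fin n) (η : ℝ) (N : ℕ)
    (z : Fin n → Fin (2 * N + 1)) (x : E n) (s : ℝ) (hs : 0 < s) (hx : x ∈ cube b i0 η N z) :
    s • x ∈ cube b i0 η N z := by
  intro i hi
  have h1 := hx i hi
  simp only [real_inner_smul_left]
  have h2 : s * inner ℝ x (b i) - η * ((z i : ℝ) - N) * (s * inner ℝ x (b i0)) =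
      s * (inner ℝ x (b i) - η * ((z i : ℝ) - N) * inner ℝ x (b i0)) := by ring
  rw [h2, abs_mul, abs_of_pos hs]
  calc s * |inner ℝ x (b i) - η * ((z i : ℝ) - N) * inner ℝ x (b i0)|
      ≤ s * (η * inner ℝ x (b i0)) := mul_le_mul_of_nonneg_left h1 hs.le
    _ = η * (s * inner ℝ x (b i0)) := by ring

lemma outer_cone (b : OrthonormalBasis (Fin n) ℝ (E n)) (i0 : Fin n) (r : ℝ) (x : E n) (s : ℝ)
    (hs : 0 < s) (hx : x ∈ outer b i0 r) : s • x ∈ outer b i0 r := by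
  obtain ⟨i, hi, h1⟩ := hx
  refine ⟨i, hi, ?_⟩
  simp only [real_inner_smul_left]
  rw [abs_mul, abs_of_pos hs]
  calc r * (s * inner ℝ x (b i0)) = s * (r * inner ℝ x (b i0)) := by ring
    _ ≤ s * |inner ℝ x (b i)| := mul_le_mul_of_nonneg_left h1 hs.le

lemma cube_cover (b : OrthonormalBasis (Fin n) ℝ (E n)) (i0 : Fin n) {r : ℝ} (hr : 0 < r) {N : ℕ}
    (hN : 0 < N) (x : E n) (hx : 0 < inner ℝ x (b i0)) (hxo : x ∉ outer b i0 r) :
    ∃ z : Fin n → Fin (2 * N + 1), x ∈ cube b i0 (r / N) N z := by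
  have hN' : (0 : ℝ) < N := by exact_mod_cast hN
  have hη : 0 < r / N := by positivity
  have hlt : ∀ i, i ≠ i0 → |inner ℝ x (b i)| < r * inner ℝ x (b i0) := by
    intro i hi
    by_contra h
    exact hxo ⟨i, hi, not_lt.1 h⟩
  have hex : ∀ i, ∃ k : Fin (2 * N + 1), i ≠ i0 →
      |inner ℝ x (b i) - r / N * ((k : ℝ) - N) * inner ℝ x (b i0)| ≤
        r / N * inner ℝ x (b i0) := by
    intro i
    by_cases hi : i = i0
    · exact ⟨0, fun h => absurd hi h⟩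
    have h1 := hlt i hi
    set s : ℝ := inner ℝ x (b i0) with hs
    set a : ℝ := inner ℝ x (b i) with ha
    have hηs : 0 < r / N * s := mul_pos hη hx
    set t : ℝ := a / (r / N * s) with ht
    have hat : a = t * (r / N * s) := by rw [ht, div_mul_cancel₀ _ hηs.ne']
    have h2 : |t| < N := by
      rw [ht, abs_div, abs_of_pos hηs, div_lt_iff₀ hηs]
      calc |a| < r * s := h1
        _ = N * (r / N * s) := by field_simp
    have h3 : 0 ≤ ⌊t⌋ + (N : ℤ) := by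
      have h4 : (-(N : ℤ)) ≤ ⌊t⌋ := by
        rw [Int.le_floor]
        push_cast
        exact (abs_lt.1 h2).1.le
      linarith
    have h5 : ⌊t⌋ + (N : ℤ) < (2 * N + 1 : ℕ) := by
      have h4 : ⌊t⌋ ≤ (N : ℤ) := by
        have h6 : (⌊t⌋ : ℝ) ≤ N := (Int.floor_le t).trans (abs_lt.1 h2).2.le
        exact_mod_cast h6
      push_cast
      linarith
    obtain ⟨k, hk⟩ := Int.eq_ofNat_of_zero_le h3
    rw [hk] at h5
    refine ⟨⟨k, by exact_mod_cast h5⟩, fun _ => ?_⟩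
    have h6 : ((k : ℕ) : ℝ) - N = ⌊t⌋ := by
      have h7 : ((⌊t⌋ + (N : ℤ) : ℤ) : ℝ) = ((k : ℤ) : ℝ) := by rw [hk]
      push_cast at h7
      linarith
    show |a - r / N * (((k : ℕ) : ℝ) - N) * s| ≤ r / N * s
    rw [h6, hat]
    have h8 : t * (r / N * s) - r / N * ⌊t⌋ * s = (t - ⌊t⌋) * (r / N * s) := by ring
    rw [h8, abs_mul, abs_of_pos hηs]
    have h9 : |t - ⌊t⌋| ≤ 1 := by
      rw [abs_le]
      constructor
      · linarith [Int.floor_le t]
      · linarith [Int.lt_floor_add_one t]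
    exact mul_le_of_le_one_left hηs.le h9
  choose z hz using hex
  exact ⟨z, hz⟩

lemma cctr_orth (b : OrthonormalBasis (Fin n) ℝ (E n)) (i0 : Fin n) (η : ℝ) (N : ℕ)
    (z : Fin n → Fin (2 * N + 1)) : inner ℝ (cctr b i0 η N z) (b i0) = (0 : ℝ) := by
  unfold cctr
  rw [sum_inner]
  refine Finset.sum_eq_zero fun i hi => ?_
  rw [real_inner_smul_left, b.inner_eq_zero (Finset.ne_of_mem_erase hi), mul_zero]

lemma cctr_norm (b : OrthonormalBasis (Fin n) ℝ (E n)) (i0 : Fin n) {r : ℝ} (hr : 0 < r) {N : ℕ}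
    (hN : 0 < N) (z : Fin n → Fin (2 * N + 1)) : ‖cctr b i0 (r / N) N z‖ ≤ n * r := by
  have hN' : (0 : ℝ) < N := by exact_mod_cast hN
  have hη : 0 < r / N := by positivity
  calc ‖cctr b i0 (r / N) N z‖ ≤ ∑ i ∈ Finset.univ.erase i0, ‖(r / N * ((z i : ℝ) - N)) • b i‖ :=
        norm_sum_le _ _
    _ ≤ ∑ i ∈ Finset.univ.erase i0, r := by
        refine Finset.sum_le_sum fun i _ => ?_
        rw [norm_smul, b.norm_eq_one, mul_one, Real.norm_eq_abs, abs_mul, abs_of_pos hη]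
        have h1 : ((z i : ℕ) : ℝ) ≤ 2 * N := by
          have h2 := (z i).isLt
          have h3 : (z i : ℕ) ≤ 2 * N := by omega
          exact_mod_cast h3
        have h2 : (0 : ℝ) ≤ ((z i : ℕ) : ℝ) := Nat.cast_nonneg _
        have h3 : |((z i : ℕ) : ℝ) - N| ≤ N := by
          rw [abs_le]
          constructor <;> linarith
        calc r / N * |((z i : ℕ) : ℝ) - N| ≤ r / N * N := mul_le_mul_of_nonneg_left h3 hη.le
          _ = r := by field_simp
    _ ≤ ∑ i : Fin n, r := by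
        refine Finset.sum_le_sum_of_subset_of_nonneg (Finset.erase_subset _ _) fun _ _ _ => hr.le
    _ = n * r := by simp

lemma cube_near (b : OrthonormalBasis (Fin n) ℝ (E n)) (i0 i1 : Fin n) (h01 : i1 ≠ i0) {r : ℝ}
    (hr : 0 < r) {N : ℕ} (hN : 0 < N) (z : Fin n → Fin (2 * N + 1)) (x : E n)
    (hx : x ∈ cube b i0 (r / N) N z) : 0 ≤ inner ℝ x (b i0) ∧
      ‖x - (inner ℝ x (b i0) : ℝ) • b i0 - (inner ℝ x (b i0) : ℝ) • cctr b i0 (r / N) N z‖ ≤
        n * r / N * inner ℝ x (b i0) := by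
  have hN' : (0 : ℝ) < N := by exact_mod_cast hN
  have hη : 0 < r / N := by positivity
  have h0 : 0 ≤ inner ℝ x (b i0) := by
    have h1 := (abs_nonneg _).trans (hx i1 h01)
    exact nonneg_of_mul_nonneg_right h1 hη
  refine ⟨h0, ?_⟩
  have h1 : x - (inner ℝ x (b i0) : ℝ) • b i0 - (inner ℝ x (b i0) : ℝ) • cctr b i0 (r / N) N z =
      ∑ i ∈ Finset.univ.erase i0,
        (inner ℝ x (b i) - r / N * ((z i : ℝ) - N) * inner ℝ x (b i0)) • b i := by
    have h2 : x = ∑ i, (inner ℝ x (b i) : ℝ) • b i := by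
      conv_lhs => rw [← b.sum_repr' x]
      refine Finset.sum_congr rfl fun i _ => ?_
      rw [real_inner_comm]
    have h3 : ∑ i ∈ Finset.univ.erase i0, (inner ℝ x (b i) : ℝ) • b i =
        x - (inner ℝ x (b i0) : ℝ) • b i0 := by
      rw [Finset.sum_erase_eq_sub (Finset.mem_univ i0), ← h2]
    unfold cctr
    rw [← h3, Finset.smul_sum, ← Finset.sum_sub_distrib]
    refine Finset.sum_congr rfl fun i _ => ?_
    rw [smul_smul, ← sub_smul]
    congr 1
    ring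
  rw [h1]
  calc ‖∑ i ∈ Finset.univ.erase i0,
        (inner ℝ x (b i) - r / N * ((z i : ℝ) - N) * inner ℝ x (b i0)) • b i‖
      ≤ ∑ i ∈ Finset.univ.erase i0,
        ‖(inner ℝ x (b i) - r / N * ((z i : ℝ) - N) * inner ℝ x (b i0)) • b i‖ := norm_sum_le _ _
    _ ≤ ∑ i ∈ Finset.univ.erase i0, r / N * inner ℝ x (b i0) := by
        refine Finset.sum_le_sum fun i hi => ?_
        rw [norm_smul, b.norm_eq_one, mul_one, Real.norm_eq_abs]
        exact hx i (Finset.ne_of_mem_erase hi)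
    _ ≤ ∑ i : Fin n, r / N * inner ℝ x (b i0) := by
        refine Finset.sum_le_sum_of_subset_of_nonneg (Finset.erase_subset _ _) fun _ _ _ => ?_
        exact mul_nonneg hη.le h0
    _ = n * r / N * inner ℝ x (b i0) := by
        rw [Finset.sum_const, Finset.card_univ, Fintype.card_fin, nsmul_eq_mul]
        ring

lemma outer_norm (b : OrthonormalBasis (Fin n) ℝ (E n)) (i0 : Fin n) {r : ℝ} (hr : 0 < r)
    (x : E n) (hx : x ∈ outer b i0 r) :
    Real.sqrt (1 + r ^ 2) * inner ℝ x (b i0) ≤ ‖x‖ := by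
  obtain ⟨i, hi, h1⟩ := hx
  by_cases h0 : inner ℝ x (b i0) ≤ (0 : ℝ)
  · exact (mul_nonpos_of_nonneg_of_nonpos (Real.sqrt_nonneg _) h0).trans (norm_nonneg _)
  have h0' : (0 : ℝ) < inner ℝ x (b i0) := not_le.1 h0
  refine le_of_sq_le_sq ?_ (norm_nonneg _)
  rw [mul_pow, Real.sq_sqrt (by positivity)]
  have h2 : ‖x‖ ^ 2 = ∑ j, (inner ℝ x (b j) : ℝ) ^ 2 := by
    rw [← b.sum_sq_norm_inner_right x]
    refine Finset.sum_congr rfl fun j _ => ?_
    rw [Real.norm_eq_abs, sq_abs, real_inner_comm]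
  have h3 : (inner ℝ x (b i0) : ℝ) ^ 2 + (inner ℝ x (b i) : ℝ) ^ 2 ≤
      ∑ j, (inner ℝ x (b j) : ℝ) ^ 2 := by
    have h4 : ∑ j ∈ ({i0, i} : Finset (Fin n)), (inner ℝ x (b j) : ℝ) ^ 2 ≤
        ∑ j, (inner ℝ x (b j) : ℝ) ^ 2 :=
      Finset.sum_le_sum_of_subset_of_nonneg (Finset.subset_univ _) fun _ _ _ => sq_nonneg _
    rwa [Finset.sum_pair (Ne.symm hi)] at h4
  have h5 : (r * inner ℝ x (b i0)) ^ 2 ≤ (inner ℝ x (b i) : ℝ) ^ 2 := by
    rw [← sq_abs (inner ℝ x (b i) : ℝ)]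
    exact pow_le_pow_left₀ (by positivity) h1 2
  rw [h2]
  nlinarith

/-- Cubes.  Let `b` be an orthonormal basis with `b 0 = e`, `η = r / N`.  The cones over the cubes
`|⟪x, b i⟫ - η z_i ⟪x, e⟫| ≤ η ⟪x, e⟫`, `|z i| ≤ N`, `i ≠ 0`, and the outer cone
`{x : ∃ i ≠ 0, r ⟪x, e⟫ ≤ |⟪x, b i⟫|}` are closed and cover `{⟪x, e⟫ > 0}`. -/
theorem exists_grid (hn : 2 ≤ n) {e : E n} (he : ‖e‖ = 1) {r : ℝ} (hr : 0 < r) {N : ℕ}
    (hN : 0 < N) :
    ∃ (J : ℕ) (K : ℕ → Set (E n)) (ctr : ℕ → E n) (near : Finset ℕ), Fan e J K ∧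
      near ⊆ Finset.range J ∧
      (∀ j ∈ near, inner ℝ (ctr j) e = (0 : ℝ) ∧ ‖ctr j‖ ≤ n * r) ∧
      (∀ j ∈ near, ∀ x ∈ K j, 0 ≤ inner ℝ x e ∧
        ‖x - (inner ℝ x e : ℝ) • e - (inner ℝ x e : ℝ) • ctr j‖ ≤ n * r / N * inner ℝ x e) ∧
      (∀ j ∈ Finset.range J \ near, ∀ x ∈ K j, Real.sqrt (1 + r ^ 2) * inner ℝ x e ≤ ‖x‖) := by
  classical
  obtain ⟨b, hb⟩ := exists_basis (by omega : 0 < n) he
  set i0 : Fin n := ⟨0, by omega⟩ with hi0
  have h01 : (⟨1, by omega⟩ : Fin n) ≠ i0 := by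
    rw [hi0]
    simp
  subst hb
  set M : ℕ := Fintype.card (Fin n → Fin (2 * N + 1)) with hM
  let f : Fin M ≃ (Fin n → Fin (2 * N + 1)) := (Fintype.equivFin _).symm
  let K : ℕ → Set (E n) := fun j =>
    if h : j < M then cube b i0 (r / N) N (f ⟨j, h⟩) else outer b i0 r
  let ctr : ℕ → E n := fun j => if h : j < M then cctr b i0 (r / N) N (f ⟨j, h⟩) else 0
  have hK1 : ∀ j (h : j < M), K j = cube b i0 (r / N) N (f ⟨j, h⟩) := fun j h => dif_pos h
  have hK2 : ∀ j (_ : ¬ j < M), K j = outer b i0 r := fun j h => dif_neg h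
  have hc1 : ∀ j (h : j < M), ctr j = cctr b i0 (r / N) N (f ⟨j, h⟩) := fun j h => dif_pos h
  refine ⟨M + 1, K, ctr, Finset.range M, ⟨?_, ?_, ?_⟩, ?_, ?_, ?_, ?_⟩
  · intro j
    by_cases h : j < M
    · rw [hK1 j h]
      exact cube_closed _ _ _ _ _
    · rw [hK2 j h]
      exact outer_closed _ _ _
  · intro j x s hs hx
    by_cases h : j < M
    · rw [hK1 j h] at hx ⊢
      exact cube_cone _ _ _ _ _ _ _ hs hx
    · rw [hK2 j h] at hx ⊢
      exact outer_cone _ _ _ _ _ hs hx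
  · intro x hx
    by_cases hxo : x ∈ outer b i0 r
    · refine ⟨M, Nat.lt_succ_self M, ?_⟩
      rw [hK2 M (lt_irrefl M)]
      exact hxo
    · obtain ⟨z, hz⟩ := cube_cover b i0 hr hN x hx hxo
      refine ⟨(f.symm z : ℕ), (f.symm z).isLt.trans (Nat.lt_succ_self M), ?_⟩
      rw [hK1 _ (f.symm z).isLt]
      simpa using hz
  · exact Finset.range_subset_range.2 (Nat.le_succ M)
  · intro j hj
    have h := Finset.mem_range.1 hj
    rw [hc1 j h]
    exact ⟨cctr_orth _ _ _ _ _, cctr_norm _ _ hr hN _⟩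
  · intro j hj x hx
    have h := Finset.mem_range.1 hj
    rw [hc1 j h]
    rw [hK1 j h] at hx
    exact cube_near b i0 _ h01 hr hN _ x hx
  · intro j hj x hx
    have h : ¬ j < M := fun h => (Finset.mem_sdiff.1 hj).2 (Finset.mem_range.2 h)
    rw [hK2 j h] at hx
    exact outer_norm b i0 hr x hx

end HMor
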