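import Pool.Agent.W_MP_55e37b_an.Defs
import Pool.Agent.W_MP_55e37b_an.Moll
import Pool.Agent.W_MP_55e37b_an.Morrey
import Pool.Agent.W_MP_55e37b_an.Bridge

set_option autoImplicit false

/-!
# MP_55e37b_an, large p: a lower bound of `cH`
-/

open MeasureTheory Metric Set Filter Topology
open scoped ENNReal

namespace HMor

variable {n : ℕ}

namespace LowCHAux

/-- change of variables `z ↦ x + t (z - x)` from a small ball into a big ball. -/
private theorem low_cov (H : E n → ℝ) (hH : Continuous H) (h0 : ∀ z, 0 ≤ H z) (a b : E n)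
    (r R : ℝ) (hD : closedBall a r ⊆ closedBall b R) (x : E n) (hx : x ∈ closedBall b R) (t : ℝ)
    (ht : t ∈ Ioc (0 : ℝ) 1) :
    ∫ z in closedBall a r, H (x + t • (z - x)) ≤ (t ^ n)⁻¹ * ∫ z in closedBall b R, H z := by
  have ht0 : 0 < t := ht.1
  set D := closedBall a r with hDD
  set B := closedBall b R with hB
  have hBm : MeasurableSet B := measurableSet_closedBall
  have hDm : MeasurableSet D := measurableSet_closedBall
  set K : E n → ℝ := B.indicator H with hK
  have hKi : Integrable K volume := by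
    rw [hK, integrable_indicator_iff hBm]
    exact hH.continuousOn.integrableOn_compact (isCompact_closedBall b R)
  have h1 : ∀ z, x + t • (z - x) = t • z + (x - t • x) := by
    intro z; rw [smul_sub]; abel
  have hK2 : Integrable (fun z => K (z + (x - t • x))) volume := hKi.comp_add_right _
  have hK3 : Integrable (fun z => K (t • z + (x - t • x))) volume :=
    hK2.comp_smul ht0.ne'
  calc ∫ z in D, H (x + t • (z - x))
      = ∫ z, D.indicator (fun z => H (x + t • (z - x))) z := (integral_indicator hDm).symm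
    _ ≤ ∫ z, K (t • z + (x - t • x)) := by
        refine integral_mono ?_ hK3 ?_
        · rw [integrable_indicator_iff hDm]
          refine ContinuousOn.integrableOn_compact (isCompact_closedBall a r) ?_
          exact (hH.comp (by fun_prop)).continuousOn
        · intro z
          by_cases hz : z ∈ D
          · have hz' : x + t • (z - x) ∈ B := by
              have := (convex_closedBall b R).add_smul_sub_mem hx (hD hz) ⟨ht0.le, ht.2⟩
              exact this
            simp only [indicator_of_mem hz]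
            rw [← h1, hK, indicator_of_mem hz']
          · simp only [indicator_of_notMem hz]
            exact indicator_nonneg (fun z _ => h0 z) _
    _ = |(t ^ Module.finrank ℝ (E n))⁻¹| • ∫ z, K (z + (x - t • x)) :=
        Measure.integral_comp_smul volume (fun z => K (z + (x - t • x))) t
    _ = (t ^ n)⁻¹ * ∫ z, K z := by
        rw [integral_add_right_eq_self K (x - t • x), finrank_euclideanSpace, Fintype.card_fin,
          abs_of_nonneg (by positivity), smul_eq_mul]
    _ = (t ^ n)⁻¹ * ∫ z in B, H z := by rw [hK, integral_indicator hBm]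

private theorem low_inner {p : ℝ} (hn : 1 ≤ n) (hp : (n : ℝ) < p) (G : E n → ℝ)
    (hG : Continuous G) (h0 : ∀ z, 0 ≤ G z) (a b : E n)
    (r R : ℝ) (hD : closedBall a r ⊆ closedBall b R) (x : E n) (hx : x ∈ closedBall b R) (t : ℝ)
    (ht : t ∈ Ioc (0 : ℝ) 1) :
    ∫ z in closedBall a r, G (x + t • (z - x)) ≤
      t ^ (-((n : ℝ) / p)) * ((∫ z in closedBall b R, G z ^ p) ^ (1 / p) *
        (volume.real (closedBall a r)) ^ (1 - 1 / p)) := by
  have hn' : (1 : ℝ) ≤ n := by exact_mod_cast hn
  have hp1 : 1 < p := lt_of_le_of_lt hn' hp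
  have hp0 : 0 < p := by linarith
  have ht0 : 0 < t := ht.1
  have hpq : p.HolderConjugate (Real.conjExponent p) := Real.HolderConjugate.conjExponent hp1
  set q := Real.conjExponent p with hq
  have hq1 : 1 / q = 1 - 1 / p := by
    have := hpq.inv_add_inv_eq_one
    rw [one_div, one_div]; linarith
  have : IsFiniteMeasure (volume.restrict (closedBall a r)) :=
    ⟨by rw [Measure.restrict_apply_univ]; exact measure_closedBall_lt_top⟩
  have hc : Continuous fun z => G (x + t • (z - x)) := hG.comp (by fun_prop)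
  have hGp : Continuous fun z => G z ^ p := hG.rpow_const (fun _ => Or.inr hp0.le)
  -- Hölder
  have hmem : MemLp (fun z => G (x + t • (z - x))) (ENNReal.ofReal p)
      (volume.restrict (closedBall a r)) := by
    obtain ⟨M, hM⟩ := (isCompact_closedBall a r).exists_bound_of_continuousOn hc.continuousOn
    refine MemLp.of_bound hc.aestronglyMeasurable M ?_
    exact (ae_restrict_iff' measurableSet_closedBall).2 (Eventually.of_forall hM)
  have hH := integral_mul_le_Lp_mul_Lq_of_nonneg (μ := volume.restrict (closedBall a r)) hpq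
    (f := fun z => G (x + t • (z - x))) (g := fun _ => (1 : ℝ))
    (Eventually.of_forall fun z => h0 _) (Eventually.of_forall fun z => zero_le_one)
    hmem (memLp_const 1)
  simp only [mul_one, Real.one_rpow, integral_const, smul_eq_mul, measureReal_restrict_apply_univ,
    hq1] at hH
  refine hH.trans ?_
  have hcov := low_cov (fun z => G z ^ p) hGp (fun z => Real.rpow_nonneg (h0 z) p) a b r R hD x hx
    t ht
  have hI0 : 0 ≤ ∫ z in closedBall b R, G z ^ p :=
    integral_nonneg fun z => Real.rpow_nonneg (h0 z) p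
  have hI1 : 0 ≤ ∫ z in closedBall a r, G (x + t • (z - x)) ^ p :=
    integral_nonneg fun z => Real.rpow_nonneg (h0 _) p
  rw [← mul_assoc]
  refine mul_le_mul_of_nonneg_right ?_ (Real.rpow_nonneg measureReal_nonneg _)
  calc (∫ z in closedBall a r, G (x + t • (z - x)) ^ p) ^ (1 / p)
      ≤ ((t ^ n)⁻¹ * ∫ z in closedBall b R, G z ^ p) ^ (1 / p) :=
        Real.rpow_le_rpow hI1 hcov (by positivity)
    _ = ((t ^ n)⁻¹) ^ (1 / p) * (∫ z in closedBall b R, G z ^ p) ^ (1 / p) :=
        Real.mul_rpow (by positivity) hI0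
    _ = t ^ (-((n : ℝ) / p)) * (∫ z in closedBall b R, G z ^ p) ^ (1 / p) := by
        congr 1
        rw [← Real.rpow_natCast, ← Real.rpow_neg ht0.le, ← Real.rpow_mul ht0.le]
        congr 1
        field_simp

private theorem low_ptwise (w : E n → ℝ) (hw : ContDiff ℝ 1 w)
    (L : ℝ) (x z : E n) (hL : ‖z - x‖ ≤ L) :
    |w z - w x| ≤ ∫ t in Ioc (0 : ℝ) 1, ‖gradient w (x + t • (z - x))‖ * L := by
  have hgc : Continuous (gradient w) := by
    have h1 : Continuous (fderiv ℝ w) := hw.continuous_fderiv one_ne_zero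
    exact (InnerProductSpace.toDual ℝ (E n)).symm.continuous.comp h1
  have hd : ∀ t : ℝ, HasDerivAt (fun t : ℝ => w (x + t • (z - x)))
      (inner ℝ (gradient w (x + t • (z - x))) (z - x)) t := by
    intro t
    have h1 : HasFDerivAt w (fderiv ℝ w (x + t • (z - x))) (x + t • (z - x)) :=
      (hw.differentiable one_ne_zero _).hasFDerivAt
    have h2 : HasDerivAt (fun t : ℝ => x + t • (z - x)) (z - x) t := by
      simpa using ((hasDerivAt_id t).smul_const (z - x)).const_add x
    have h3 := h1.comp_hasDerivAt t h2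
    rw [inner_gradient_left]
    exact h3
  have hcont : Continuous fun t : ℝ => inner ℝ (gradient w (x + t • (z - x))) (z - x) := by
    have : Continuous fun t : ℝ => gradient w (x + t • (z - x)) := hgc.comp (by fun_prop)
    exact this.inner continuous_const
  have hFTC := intervalIntegral.integral_eq_sub_of_hasDerivAt (a := 0) (b := 1)
    (f := fun t : ℝ => w (x + t • (z - x))) (fun t _ => hd t) (hcont.intervalIntegrable 0 1)
  simp only [one_smul, zero_smul, add_zero, add_sub_cancel] at hFTC
  rw [← hFTC, intervalIntegral.integral_of_le zero_le_one, ← Real.norm_eq_abs]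
  refine (norm_integral_le_integral_norm _).trans ?_
  refine integral_mono_ae ?_ ?_ (Eventually.of_forall fun t => ?_)
  · exact (hcont.norm.integrableOn_Icc (a := 0) (b := 1)).mono_set Ioc_subset_Icc_self
  · have : Continuous fun t : ℝ => ‖gradient w (x + t • (z - x))‖ * L :=
      (hgc.comp (by fun_prop)).norm.mul continuous_const
    exact (this.integrableOn_Icc (a := 0) (b := 1)).mono_set Ioc_subset_Icc_self
  · exact (norm_inner_le_norm _ _).trans (mul_le_mul_of_nonneg_left hL (norm_nonneg _))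

private theorem low_avg {p : ℝ} (hn : 1 ≤ n) (hp : (n : ℝ) < p) (w : E n → ℝ)
    (hw : ContDiff ℝ 1 w) (a b : E n)
    (r R : ℝ) (hD : closedBall a r ⊆ closedBall b R) (x : E n) (hx : x ∈ closedBall b R)
    (L : ℝ) (hL0 : 0 ≤ L) (hL : ∀ z ∈ closedBall a r, ‖z - x‖ ≤ L) :
    ∫ z in closedBall a r, |w z - w x| ≤
      L * ((1 - (n : ℝ) / p)⁻¹ * ((∫ z in closedBall b R, ‖gradient w z‖ ^ p) ^ (1 / p) *
        (volume.real (closedBall a r)) ^ (1 - 1 / p))) := by
  have hn' : (1 : ℝ) ≤ n := by exact_mod_cast hn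
  have hp0 : 0 < p := by linarith
  have hgc : Continuous (gradient w) := by
    have h1 : Continuous (fderiv ℝ w) := hw.continuous_fderiv one_ne_zero
    exact (InnerProductSpace.toDual ℝ (E n)).symm.continuous.comp h1
  have : IsFiniteMeasure (volume.restrict (closedBall a r)) :=
    ⟨by rw [Measure.restrict_apply_univ]; exact measure_closedBall_lt_top⟩
  set N := (∫ z in closedBall b R, ‖gradient w z‖ ^ p) ^ (1 / p) *
    (volume.real (closedBall a r)) ^ (1 - 1 / p) with hN
  set F : E n → ℝ → ℝ := fun z t => ‖gradient w (x + t • (z - x))‖ * L with hF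
  have hFc : Continuous (Function.uncurry F) := by
    have : Continuous fun q : E n × ℝ => gradient w (x + q.2 • (q.1 - x)) :=
      hgc.comp (by fun_prop)
    exact this.norm.mul continuous_const
  have hFi : Integrable (Function.uncurry F)
      ((volume.restrict (closedBall a r)).prod (volume.restrict (Ioc (0 : ℝ) 1))) := by
    rw [Measure.prod_restrict]
    have h1 : IntegrableOn (Function.uncurry F) (closedBall a r ×ˢ Icc (0 : ℝ) 1)
        (volume.prod volume) := by
      refine hFc.continuousOn.integrableOn_compact ?_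
      exact (isCompact_closedBall a r).prod isCompact_Icc
    exact h1.mono_set (prod_mono_right Ioc_subset_Icc_self)
  have hneg : (-1 : ℝ) < -((n : ℝ) / p) := by
    rw [neg_lt_neg_iff, div_lt_one hp0]; exact hp
  calc ∫ z in closedBall a r, |w z - w x|
      ≤ ∫ z in closedBall a r, ∫ t in Ioc (0 : ℝ) 1, F z t := by
        refine integral_mono_ae ?_ hFi.integral_prod_left ?_
        · have : Continuous fun z => |w z - w x| := (hw.continuous.sub continuous_const).abs
          exact this.continuousOn.integrableOn_compact (isCompact_closedBall a r)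
        · exact (ae_restrict_iff' measurableSet_closedBall).2
            (Eventually.of_forall fun z hz => low_ptwise w hw L x z (hL z hz))
    _ = ∫ t in Ioc (0 : ℝ) 1, ∫ z in closedBall a r, F z t := integral_integral_swap hFi
    _ ≤ ∫ t in Ioc (0 : ℝ) 1, t ^ (-((n : ℝ) / p)) * (N * L) := by
        refine integral_mono_ae hFi.integral_prod_right ?_ ?_
        · have h1 := (intervalIntegral.intervalIntegrable_rpow' (a := 0) (b := 1) hneg)
          rw [intervalIntegrable_iff_integrableOn_Ioc_of_le zero_le_one] at h1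
          exact h1.mul_const _
        · refine (ae_restrict_iff' measurableSet_Ioc).2 (Eventually.of_forall fun t ht => ?_)
          have h1 := low_inner hn hp (fun z => ‖gradient w z‖) hgc.norm
            (fun z => norm_nonneg _) a b r R hD x hx t ht
          simp only [hF]
          rw [integral_mul_const]
          have h2 := mul_le_mul_of_nonneg_right h1 hL0
          refine h2.trans (le_of_eq ?_)
          rw [hN]; ring
    _ = L * ((1 - (n : ℝ) / p)⁻¹ * N) := by
        rw [integral_mul_const, ← intervalIntegral.integral_of_le zero_le_one,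
          integral_rpow (Or.inl hneg)]
        have h2 : -((n : ℝ) / p) + 1 ≠ 0 := by linarith
        rw [Real.one_rpow, Real.zero_rpow h2]
        have h3 : -((n : ℝ) / p) + 1 = 1 - (n : ℝ) / p := by ring
        rw [h3]
        ring

/-- The averaged Morrey bound for a function of `D^{1,p}` vanishing on a small ball. -/
theorem low_main (hn : 1 ≤ n) {p : ℝ} (hp : (n : ℝ) < p) (u : E n → ℝ) (g : E n → E n)
    (hu : IsD p u g) (a b : E n) (r R : ℝ) (hD : closedBall a r ⊆ closedBall b R)
    (x : E n) (hx : x ∈ closedBall b R) (L : ℝ) (hL0 : 0 ≤ L)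
    (hL : ∀ z ∈ closedBall a r, ‖z - x‖ ≤ L) (h0 : ∀ z ∈ closedBall a r, u z = 0) :
    volume.real (closedBall a r) * |u x| ≤
      L * ((1 - (n : ℝ) / p)⁻¹ * ((∫ z in closedBall b R, ‖g z‖ ^ p) ^ (1 / p) *
        (volume.real (closedBall a r)) ^ (1 - 1 / p))) := by
  have hn1 : (1 : ℝ) ≤ n := by exact_mod_cast hn
  have hp1 : 1 ≤ p := by linarith
  have hp0 : 0 < p := by linarith
  have hδ : 0 < 1 - (n : ℝ) / p := by
    have : (n : ℝ) / p < 1 := by rw [div_lt_one hp0]; exact hp
    linarith
  obtain ⟨w, hw, hunif, hlim⟩ := hu.exists_approx hp1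
  set μ := volume.restrict (closedBall b R) with hμ
  have hfinD : IsFiniteMeasure (volume.restrict (closedBall a r)) :=
    ⟨by rw [Measure.restrict_apply_univ]; exact measure_closedBall_lt_top⟩
  have hgB : MemLp g (ENNReal.ofReal p) μ := hu.memLp.restrict _
  set ek : ℕ → ℝ≥0∞ := fun k =>
    eLpNorm (fun x => gradient (w k) x - g x) (ENNReal.ofReal p) volume with hek
  have hfin : ∀ᶠ k in atTop, ek k < ∞ := hlim.eventually (gt_mem_nhds ENNReal.zero_lt_top)
  have hek0 : Tendsto (fun k => (ek k).toReal) atTop (𝓝 0) := by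
    have h1 := (ENNReal.tendsto_toReal (a := 0) (by simp)).comp hlim
    rw [ENNReal.toReal_zero] at h1
    exact h1
  have hgrad : ∀ k, MemLp (gradient (w k)) (ENNReal.ofReal p) μ := fun k =>
    MorreyAux.memLp_cont (BasicsAux.cont_gradient (BasicsAux.one_of_smooth (hw k)))
  set V := volume.real (closedBall a r) with hV
  have hV0 : 0 ≤ V := measureReal_nonneg
  -- the bound for `w k`
  have hle : ∀ᶠ k in atTop, ∫ z in closedBall a r, |w k z - w k x| ≤
      L * ((1 - (n : ℝ) / p)⁻¹ * (((∫ z in closedBall b R, ‖g z‖ ^ p) ^ (1 / p) +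
        (ek k).toReal) * V ^ (1 - 1 / p))) := by
    filter_upwards [hfin] with k hk
    refine (low_avg hn hp (w k) (BasicsAux.one_of_smooth (hw k)) a b r R hD x hx L hL0 hL).trans ?_
    refine mul_le_mul_of_nonneg_left ?_ hL0
    refine mul_le_mul_of_nonneg_left ?_ (by positivity)
    refine mul_le_mul_of_nonneg_right ?_ (Real.rpow_nonneg hV0 _)
    rw [MorreyAux.rpow_int_eq hp0 (hgrad k), MorreyAux.rpow_int_eq hp0 hgB,
      ← ENNReal.toReal_add hgB.eLpNorm_ne_top hk.ne]
    refine ENNReal.toReal_mono (ENNReal.add_ne_top.2 ⟨hgB.eLpNorm_ne_top, hk.ne⟩) ?_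
    have e1 : gradient (w k) = g + fun x => gradient (w k) x - g x := by
      funext z; simp
    have e2 : eLpNorm (fun x => gradient (w k) x - g x) (ENNReal.ofReal p) μ ≤ ek k :=
      eLpNorm_mono_measure _ Measure.restrict_le_self
    have e3 : eLpNorm (g + fun x => gradient (w k) x - g x) (ENNReal.ofReal p) μ ≤
        eLpNorm g (ENNReal.ofReal p) μ +
          eLpNorm (fun x => gradient (w k) x - g x) (ENNReal.ofReal p) μ :=
      eLpNorm_add_le hgB.aestronglyMeasurable
        ((hgrad k).aestronglyMeasurable.sub hgB.aestronglyMeasurable)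
        (by rw [← ENNReal.ofReal_one]; exact ENNReal.ofReal_le_ofReal hp1)
    calc eLpNorm (gradient (w k)) (ENNReal.ofReal p) μ
        = eLpNorm (g + fun x => gradient (w k) x - g x) (ENNReal.ofReal p) μ := by rw [← e1]
      _ ≤ _ := e3
      _ ≤ _ := by gcongr
  -- pass to the limit
  refine le_of_forall_pos_le_add fun δ' hδ' => ?_
  obtain ⟨δ, hδp, hδV⟩ : ∃ δ : ℝ, 0 < δ ∧ 2 * δ * V ≤ δ' := by
    refine ⟨δ' / (2 * (V + 1)), by positivity, ?_⟩
    rw [show 2 * (δ' / (2 * (V + 1))) * V = δ' * (V / (V + 1)) by field_simp]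
    have : V / (V + 1) ≤ 1 := by rw [div_le_one (by linarith)]; linarith
    nlinarith
  have hev : ∀ᶠ k in atTop, ∀ z ∈ closedBall b R, dist (u z) (w k z) < δ :=
    Metric.tendstoUniformlyOn_iff.1 (hunif _ (isCompact_closedBall b R)) δ hδp
  have hle2 : ∀ᶠ k in atTop, V * |u x| ≤ L * ((1 - (n : ℝ) / p)⁻¹ *
      (((∫ z in closedBall b R, ‖g z‖ ^ p) ^ (1 / p) + (ek k).toReal) * V ^ (1 - 1 / p))) + δ' := by
    filter_upwards [hle, hev] with k hk1 hk2
    have h1 : V * |u x| = ∫ z in closedBall a r, |u x| := by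
      rw [integral_const, smul_eq_mul, measureReal_restrict_apply_univ]
    have hint : Integrable (fun z => |w k z - w k x|) (volume.restrict (closedBall a r)) := by
      have hc : Continuous fun z => |w k z - w k x| :=
        ((hw k).continuous.sub continuous_const).abs
      exact hc.continuousOn.integrableOn_compact (isCompact_closedBall a r)
    have h2 : ∫ z in closedBall a r, |u x| ≤
        ∫ z in closedBall a r, (|w k z - w k x| + 2 * δ) := by
      refine setIntegral_mono_on (integrable_const _) (hint.add (integrable_const _))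
        measurableSet_closedBall fun z hz => ?_
      have e1 := hk2 z (hD hz)
      have e2 := hk2 x hx
      rw [Real.dist_eq, h0 z hz] at e1
      rw [Real.dist_eq] at e2
      rw [abs_lt] at e1 e2
      have e3 := neg_abs_le (w k z - w k x)
      have e4 := le_abs_self (w k z - w k x)
      rw [abs_le]
      constructor <;> linarith
    rw [← h1, integral_add hint (integrable_const _), integral_const, smul_eq_mul,
      measureReal_restrict_apply_univ, ← hV] at h2
    have h3 : V * (2 * δ) ≤ δ' := by linarith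
    linarith
  have hlim2 : Tendsto (fun k => L * ((1 - (n : ℝ) / p)⁻¹ *
      (((∫ z in closedBall b R, ‖g z‖ ^ p) ^ (1 / p) + (ek k).toReal) * V ^ (1 - 1 / p))) + δ')
      atTop (𝓝 (L * ((1 - (n : ℝ) / p)⁻¹ *
      (((∫ z in closedBall b R, ‖g z‖ ^ p) ^ (1 / p) + 0) * V ^ (1 - 1 / p))) + δ')) :=
    ((((tendsto_const_nhds.add hek0).mul_const _).const_mul _).const_mul _).add_const _
  rw [add_zero] at hlim2
  exact ge_of_tendsto hlim2 hle2

end LowCHAux

open LowCHAux

/-- `cH p e ≥ c p ^ (-n)`.  Let `u` be a competitor (`u = 0` for `y·e ≤ 0`, `u e = 1`) and let `D`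
be the ball of radius `ε = 1 / p` about `-ε e`, on which `u = 0`.  For smooth `w` (then
`IsD.exists_approx`; see the proof of `morrey_C1`, whose private lemmas can be copied) and `z ∈ D`
`w e - w z = ∫_0^1 ⟪∇w (z + t (e - z)), e - z⟫ dt`, `‖e - z‖ ≤ 1 + 2 ε`; average over `z ∈ D` and
substitute `y = (1 - t) z + t e`:
`|w e - mean_D w| ≤ (1 + 2ε) |D|⁻¹ ∫_0^1 (1-t)^(-n) ∫_{(1-t) D + t e} ‖∇w‖ dy dt`, and by Hoelder the
inner integral is `≤ ‖∇w‖_p (|D| (1-t)^n)^(1-1/p)`.  So `1 ≤ (1+2ε) |D|^(-1/p) (1 - n/p)⁻¹ E^(1/p)`,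
i.e. `E ≥ (1 + 2/p)^(-p) ω p^(-n) (1 - n/p)^p ≥ ω e^(-2) 4^(-n) p^(-n)` for `p ≥ 2n`. -/
theorem cH_lower (n : ℕ) (hn : 2 ≤ n) : ∃ c : ℝ, 0 < c ∧ ∀ p : ℝ, 2 * (n : ℝ) ≤ p → ∀ e : E n,
    ‖e‖ = 1 → c * p ^ (-(n : ℝ)) ≤ cH p e := by
  have hn2 : (2 : ℝ) ≤ n := by exact_mod_cast hn
  set ω : ℝ := volume.real (ball (0 : E n) 1) with hω
  have hω0 : 0 < ω := by
    rw [hω, Measure.real]
    exact ENNReal.toReal_pos (measure_ball_pos volume 0 one_pos).ne' measure_ball_lt_top.ne
  refine ⟨Real.exp (-(2 + 2 * (n : ℝ))) * ω, by positivity, fun p hp e he => ?_⟩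
  have hp4 : 4 ≤ p := by linarith
  have hp0 : 0 < p := by linarith
  have hnp : (n : ℝ) < p := by linarith
  have hδ : 0 < 1 - (n : ℝ) / p := by
    have : (n : ℝ) / p < 1 := by rw [div_lt_one hp0]; exact hnp
    linarith
  have hε0 : 0 < 1 / p := by positivity
  have hε1 : 1 / p ≤ 1 / 4 := one_div_le_one_div_of_le (by norm_num) hp4
  set ε : ℝ := 1 / p with hε
  have hee : inner ℝ e e = (1 : ℝ) := by rw [real_inner_self_eq_norm_sq, he, one_pow]
  set D := closedBall (-(ε • e)) ε with hD
  have hDz : ∀ z ∈ D, inner ℝ z e ≤ (0 : ℝ) := by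
    intro z hz
    rw [hD, mem_closedBall, dist_eq_norm] at hz
    have h1 := BridgeAux.inner_le_norm' he (z - -(ε • e))
    rw [inner_sub_left, inner_neg_left, real_inner_smul_left, hee] at h1
    linarith
  have hDn : ∀ z ∈ D, ‖z‖ ≤ 2 * ε := by
    intro z hz
    rw [hD, mem_closedBall, dist_eq_norm] at hz
    have h1 : ‖z‖ ≤ ‖z - -(ε • e)‖ + ‖-(ε • e)‖ := by
      have := norm_add_le (z - -(ε • e)) (-(ε • e))
      simpa using this
    rw [norm_neg, norm_smul, he, mul_one, Real.norm_eq_abs, abs_of_pos hε0] at h1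
    linarith
  have hDB : D ⊆ closedBall (0 : E n) 2 := by
    intro z hz
    rw [mem_closedBall, dist_zero_right]
    have := hDn z hz
    linarith
  have heB : e ∈ closedBall (0 : E n) 2 := by
    rw [mem_closedBall, dist_zero_right, he]; norm_num
  have hDL : ∀ z ∈ D, ‖z - e‖ ≤ 1 + 2 * ε := by
    intro z hz
    have h1 := norm_sub_le z e
    have h2 := hDn z hz
    rw [he] at h1
    linarith
  have hvol : volume.real D = ε ^ n * ω := by
    rw [hD, Measure.real, Measure.addHaar_closedBall volume _ hε0.le, ENNReal.toReal_mul,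
      finrank_euclideanSpace, Fintype.card_fin, ENNReal.toReal_ofReal (by positivity)]
    rfl
  have hV0 : 0 < volume.real D := by rw [hvol]; positivity
  refine le_csInf (cH_nonempty he) ?_
  rintro c ⟨u, g, hu, hue, rfl⟩
  have hE : 0 ≤ energy p g := BridgeAux.energy_nonneg p g
  have h0 : ∀ z ∈ D, u z = 0 := fun z hz => hu.zero z (by
    have := hDz z hz
    simp only [halfspace, mem_setOf_eq, not_lt]
    exact this)
  have hmain := low_main (by omega : 1 ≤ n) hnp u g hu.isD (-(ε • e)) 0 ε 2 hDB e heB (1 + 2 * ε)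
    (by positivity) hDL h0
  rw [← hD, hue, abs_one, mul_one] at hmain
  set V := volume.real D with hV
  have hIE : (∫ z in closedBall (0 : E n) 2, ‖g z‖ ^ p) ^ (1 / p) ≤ energy p g ^ (1 / p) := by
    refine Real.rpow_le_rpow (integral_nonneg fun z => Real.rpow_nonneg (norm_nonneg _) _) ?_
      (by positivity)
    exact setIntegral_le_integral (hu.isD.integrable_rpow hp0)
      (Eventually.of_forall fun z => Real.rpow_nonneg (norm_nonneg _) _)
  have hV1 : V = V ^ (1 / p) * V ^ (1 - 1 / p) := by
    rw [← Real.rpow_add hV0]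
    rw [show 1 / p + (1 - 1 / p) = 1 by ring, Real.rpow_one]
  have hkey : V ^ (1 / p) ≤ (1 + 2 * ε) * (1 - (n : ℝ) / p)⁻¹ * energy p g ^ (1 / p) := by
    have hVq : 0 < V ^ (1 - 1 / p) := Real.rpow_pos_of_pos hV0 _
    refine le_of_mul_le_mul_right ?_ hVq
    rw [← hV1]
    refine hmain.trans ?_
    rw [show (1 + 2 * ε) * (1 - (n : ℝ) / p)⁻¹ * energy p g ^ (1 / p) * V ^ (1 - 1 / p) =
      (1 + 2 * ε) * ((1 - (n : ℝ) / p)⁻¹ * (energy p g ^ (1 / p) * V ^ (1 - 1 / p))) by ring]
    gcongr
  have hfac : (1 + 2 * ε) * (1 - (n : ℝ) / p)⁻¹ ≤ Real.exp ((2 + 2 * (n : ℝ)) / p) := by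
    have h1 : 1 + 2 * ε ≤ Real.exp (2 / p) := by
      have := Real.add_one_le_exp (2 / p)
      rw [hε]
      calc 1 + 2 * (1 / p) = 2 / p + 1 := by ring
        _ ≤ _ := this
    have h2 : (1 - (n : ℝ) / p)⁻¹ ≤ Real.exp (2 * (n : ℝ) / p) := by
      have hx2 : (n : ℝ) / p ≤ 1 / 2 := by
        rw [div_le_iff₀ hp0]; linarith
      have hx0 : 0 ≤ (n : ℝ) / p := by positivity
      set y := (n : ℝ) / p with hy
      have h3 : (1 - y)⁻¹ = y / (1 - y) + 1 := by
        field_simp
        ring
      have h4 := Real.add_one_le_exp (y / (1 - y))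
      have h5 : y / (1 - y) ≤ 2 * y := by
        rw [div_le_iff₀ hδ]
        nlinarith
      rw [h3]
      refine h4.trans (Real.exp_le_exp.2 ?_)
      calc y / (1 - y) ≤ 2 * y := h5
        _ = 2 * (n : ℝ) / p := by rw [hy]; ring
    calc (1 + 2 * ε) * (1 - (n : ℝ) / p)⁻¹
        ≤ Real.exp (2 / p) * Real.exp (2 * (n : ℝ) / p) :=
          mul_le_mul h1 h2 (by positivity) (Real.exp_pos _).le
      _ = Real.exp ((2 + 2 * (n : ℝ)) / p) := by
          rw [← Real.exp_add]; congr 1; ring
  have hkey2 : V ≤ Real.exp (2 + 2 * (n : ℝ)) * energy p g := by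
    have h1 : V ^ (1 / p) ≤ Real.exp ((2 + 2 * (n : ℝ)) / p) * energy p g ^ (1 / p) :=
      hkey.trans (mul_le_mul_of_nonneg_right hfac (Real.rpow_nonneg hE _))
    have h2 := Real.rpow_le_rpow (Real.rpow_nonneg hV0.le _) h1 hp0.le
    rw [← Real.rpow_mul hV0.le, one_div_mul_cancel hp0.ne', Real.rpow_one,
      Real.mul_rpow (Real.exp_pos _).le (Real.rpow_nonneg hE _), ← Real.rpow_mul hE,
      one_div_mul_cancel hp0.ne', Real.rpow_one, ← Real.exp_mul] at h2
    rwa [show (2 + 2 * (n : ℝ)) / p * p = 2 + 2 * (n : ℝ) by field_simp] at h2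
  have hVe : V = ω * p ^ (-(n : ℝ)) := by
    rw [hvol, hε, Real.rpow_neg hp0.le, Real.rpow_natCast, one_div, inv_pow]
    ring
  calc Real.exp (-(2 + 2 * (n : ℝ))) * ω * p ^ (-(n : ℝ))
      = Real.exp (-(2 + 2 * (n : ℝ))) * V := by rw [hVe]; ring
    _ ≤ Real.exp (-(2 + 2 * (n : ℝ))) * (Real.exp (2 + 2 * (n : ℝ)) * energy p g) := by
        gcongr
    _ = energy p g := by
        rw [← mul_assoc, ← Real.exp_add, neg_add_cancel, Real.exp_zero, one_mul]

end HMor
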