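import Pool.Agent.W_MP_55e37b_an.Defs
import Pool.Agent.W_55e37b_h43.Design

set_option autoImplicit false

/-!
# MP_55e37b_an, large p: elementary inequalities
-/

open MeasureTheory Metric Set Filter Topology
open scoped ENNReal

namespace HMor

variable {n : ℕ}

/-- Bernoulli with negative exponent. -/
lemma rpow_neg_ge {lam a : ℝ} (h : 0 < lam) (ha : 0 ≤ a) : 1 + a * (1 - lam) ≤ lam ^ (-a) := by
  have h1 : Real.log lam ≤ lam - 1 := Real.log_le_sub_one_of_pos h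
  rw [Real.rpow_def_of_pos h]
  have h2 := Real.add_one_le_exp (Real.log lam * (-a))
  nlinarith [mul_le_mul_of_nonneg_left h1 ha]

/-- The ray enters the paraboloid.  `t + b t² ≥ 1` for `1 - b + 3 b² ≤ t ≤ T`: for `b ≥ 0` monotone,
for `b < 0` concave in `t`, check the end points. -/
lemma ray_in {b b' ε t T : ℝ} (hb : |b| ≤ 1 / 16) (hb' : |b'| ≤ 1 / 16) (hbb : |b - b'| ≤ ε)
    (h1 : 1 - b' + 3 * b' ^ 2 + 2 * ε ≤ t) (h2 : t ≤ T) (h3 : |b| * T ^ 2 ≤ T - 1) :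
    1 - t ≤ t ^ 2 * b := by
  have hε : 0 ≤ ε := (abs_nonneg _).trans hbb
  have e1 : b ^ 2 ≤ b' ^ 2 + ε / 8 := by
    have h4 : |b| ≤ |b'| + ε := by
      have := abs_sub_abs_le_abs_sub b b'
      linarith
    have h5 : |b| * |b| ≤ |b| * |b'| + ε / 16 := by
      nlinarith [abs_nonneg b, abs_nonneg b']
    have h6 : b ^ 2 = |b| * |b| := by rw [← sq, sq_abs]
    have h7 : b' ^ 2 = |b'| * |b'| := by rw [← sq, sq_abs]
    nlinarith [sq_nonneg (|b| - |b'|)]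
  have e2 : b' ≤ b + ε := by
    have := (abs_le.mp hbb).1
    linarith
  have e3 : 1 - b + 3 * b ^ 2 ≤ t := by nlinarith
  rcases le_or_gt 0 b with hb0 | hb0
  · have h8 : 0 ≤ 1 - b := by
      have := (abs_le.mp hb).2
      linarith
    have h9 : 1 - b ≤ t := by nlinarith [sq_nonneg b]
    have h10 : (1 - b) ^ 2 ≤ t ^ 2 := by
      apply pow_le_pow_left₀ h8 h9
    nlinarith [mul_le_mul_of_nonneg_right h10 hb0, sq_nonneg b, mul_nonneg hb0 (sq_nonneg b)]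
  · set β := -b with hβ
    have hβ0 : 0 < β := by linarith
    have hβ1 : β ≤ 1 / 16 := by
      have := (abs_le.mp hb).1
      linarith
    have hbabs : |b| = β := by rw [abs_of_neg hb0]
    rw [hbabs] at h3
    have hb2 : b = -β := by rw [hβ]; ring
    rw [hb2] at e3 ⊢
    have e4 : 1 + β + 3 * β ^ 2 ≤ t := by nlinarith
    set t1 := 1 + β + 3 * β ^ 2 with ht1
    have f1 : 0 ≤ t1 - β * t1 ^ 2 - 1 := by
      have : t1 - β * t1 ^ 2 - 1 = β ^ 2 * (1 - 7 * β - 6 * β ^ 2 - 9 * β ^ 3) := by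
        rw [ht1]; ring
      rw [this]
      apply mul_nonneg (sq_nonneg _)
      nlinarith [sq_nonneg β, mul_nonneg hβ0.le (sq_nonneg β), mul_le_mul hβ1 hβ1 hβ0.le
        (by norm_num : (0 : ℝ) ≤ 1 / 16), mul_le_mul_of_nonneg_left hβ1 (sq_nonneg β)]
    have f2 : 0 ≤ T - β * T ^ 2 - 1 := by linarith
    have f3 : (t - β * t ^ 2 - 1) * (T - t1) = (t1 - β * t1 ^ 2 - 1) * (T - t) +
        (T - β * T ^ 2 - 1) * (t - t1) + β * ((t - t1) * (T - t) * (T - t1)) := by ring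
    have g1 : 0 ≤ t - t1 := by linarith
    have g2 : 0 ≤ T - t := by linarith
    have g3 : 0 ≤ T - t1 := by linarith
    rcases eq_or_lt_of_le g3 with h0 | h0
    · have : t = t1 := by linarith
      rw [this]
      nlinarith
    · have f4 : 0 ≤ (t - β * t ^ 2 - 1) * (T - t1) := by
        rw [f3]
        have := mul_nonneg f1 g2
        have := mul_nonneg f2 g1
        have := mul_nonneg hβ0.le (mul_nonneg (mul_nonneg g1 g2) g3)
        linarith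
      have f5 : 0 ≤ t - β * t ^ 2 - 1 := by
        by_contra hc
        push Not at hc
        have := mul_neg_of_neg_of_pos hc h0
        linarith
      nlinarith

/-- Exponential decay beats polynomials, uniformly. -/
lemma exp_small {θ : ℝ} (h0 : 0 < θ) (h1 : θ < 1) (A B : ℝ) (hB : 0 < B) (k : ℝ) :
    ∃ p0 : ℝ, 1 ≤ p0 ∧ ∀ p : ℝ, p0 ≤ p → A * θ ^ p ≤ B * p ^ (-k) := by
  have hlog : 0 < -Real.log θ := by
    have := Real.log_neg h0 h1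
    linarith
  have ht := (tendsto_rpow_mul_exp_neg_mul_atTop_nhds_zero k (-Real.log θ) hlog).const_mul |A|
  rw [mul_zero] at ht
  obtain ⟨p1, hp1⟩ := (eventually_atTop.mp (ht.eventually (gt_mem_nhds hB)))
  refine ⟨max p1 1, le_max_right _ _, fun p hp => ?_⟩
  have hpp : 0 < p := lt_of_lt_of_le one_pos ((le_max_right _ _).trans hp)
  have h2 := hp1 p ((le_max_left _ _).trans hp)
  have h3 : θ ^ p = Real.exp (-(-Real.log θ) * p) := by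
    rw [Real.rpow_def_of_pos h0, neg_neg]
  rw [← h3] at h2
  have h4 : 0 < p ^ k := Real.rpow_pos_of_pos hpp _
  have h5 : 0 ≤ θ ^ p := (Real.rpow_pos_of_pos h0 _).le
  rw [Real.rpow_neg hpp.le, ← div_eq_mul_inv, le_div_iff₀ h4]
  have h6 : A * θ ^ p * p ^ k ≤ |A| * (p ^ k * θ ^ p) := by
    have : A * θ ^ p * p ^ k = A * (p ^ k * θ ^ p) := by ring
    rw [this]
    exact mul_le_mul_of_nonneg_right (le_abs_self A) (mul_nonneg h4.le h5)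
  linarith

/-- The function `(1 + c κ^(-1/2))^(-a)` is `≤ C κ θ^a` for `0 < κ ≤ κ1`, `a ≥ 2`:
`(1 + c κ^(-1/2))^(-a) ≤ (c κ^(-1/2))^(-2) (1 + c κ1^(-1/2))^(-(a-2))`. -/
lemma kappa_small {c κ1 : ℝ} (hc : 0 < c) (hκ1 : 0 < κ1) :
    ∃ C θ : ℝ, 0 < C ∧ 0 < θ ∧ θ < 1 ∧ ∀ κ : ℝ, 0 < κ → κ ≤ κ1 → ∀ a : ℝ, 2 ≤ a →
      (1 + c * κ ^ (-(1 / 2) : ℝ)) ^ (-a) ≤ C * κ * θ ^ a := by
  have hD : 0 < c * κ1 ^ (-(1 / 2) : ℝ) := mul_pos hc (Real.rpow_pos_of_pos hκ1 _)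
  set D := c * κ1 ^ (-(1 / 2) : ℝ) with hDdef
  refine ⟨c ^ (-2 : ℝ) * (1 + D) ^ (2 : ℝ), (1 + D)⁻¹, ?_, ?_, ?_, ?_⟩
  · exact mul_pos (Real.rpow_pos_of_pos hc _) (Real.rpow_pos_of_pos (by linarith) _)
  · exact inv_pos.mpr (by linarith)
  · exact inv_lt_one_of_one_lt₀ (by linarith)
  · intro κ hκ hκ' a ha
    have hm : κ1 ^ (-(1 / 2) : ℝ) ≤ κ ^ (-(1 / 2) : ℝ) :=
      Real.rpow_le_rpow_of_nonpos hκ hκ' (by norm_num)
    have hX : 0 < c * κ ^ (-(1 / 2) : ℝ) := mul_pos hc (Real.rpow_pos_of_pos hκ _)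
    have hDX : D ≤ c * κ ^ (-(1 / 2) : ℝ) := mul_le_mul_of_nonneg_left hm hc.le
    set X := c * κ ^ (-(1 / 2) : ℝ) with hXdef
    have h1 : (1 + X) ^ (-a) = (1 + X) ^ (-2 : ℝ) * (1 + X) ^ (-(a - 2)) := by
      rw [← Real.rpow_add (by linarith)]
      congr 1
      ring
    have h2 : (1 + X) ^ (-2 : ℝ) ≤ X ^ (-2 : ℝ) :=
      Real.rpow_le_rpow_of_nonpos hX (by linarith) (by norm_num)
    have h3 : (1 + X) ^ (-(a - 2)) ≤ (1 + D) ^ (-(a - 2)) :=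
      Real.rpow_le_rpow_of_nonpos (by linarith) (by linarith) (by linarith)
    have h4 : X ^ (-2 : ℝ) = c ^ (-2 : ℝ) * κ := by
      rw [hXdef, Real.mul_rpow hc.le (Real.rpow_pos_of_pos hκ _).le, ← Real.rpow_mul hκ.le]
      norm_num
    have h5 : (1 + D) ^ (-(a - 2)) = (1 + D) ^ (2 : ℝ) * ((1 + D)⁻¹) ^ a := by
      rw [Real.inv_rpow (by linarith), ← Real.rpow_neg (by linarith),
        ← Real.rpow_add (by linarith)]
      congr 1
      ring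
    rw [h1]
    calc (1 + X) ^ (-2 : ℝ) * (1 + X) ^ (-(a - 2))
        ≤ X ^ (-2 : ℝ) * (1 + D) ^ (-(a - 2)) :=
          mul_le_mul h2 h3 (Real.rpow_nonneg (by linarith) _) (Real.rpow_nonneg hX.le _)
      _ = c ^ (-2 : ℝ) * (1 + D) ^ (2 : ℝ) * κ * ((1 + D)⁻¹) ^ a := by
          rw [h4, h5]; ring

/-- The average of the quadratic form over the design, and its size. -/
lemma avg_ge {C τ κ ε a q : ℝ} (hn : 2 ≤ n) {e : E n} (he : ‖e‖ = 1) {N : ℕ} (hN : 0 < N)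
    {R : Fin N → (E n ≃ₗᵢ[ℝ] E n)} {B : E n →L[ℝ] E n} {ξ : E n}
    (hR : ∑ i, inner ℝ (B (R i ξ)) (R i ξ) = N / ((n : ℝ) - 1) * trp B e * ‖ξ‖ ^ 2)
    (hB : ‖B‖ ≤ C) (hτ : τ ≤ trp B e) (hτ0 : 0 < τ) (hκ : 0 < κ) (hε : 0 ≤ ε) (ha : 0 ≤ a)
    (hq : 1 < q) (hsmall : κ * C ^ 2 * ‖ξ‖ ^ 2 ≤ τ / (3 * ((n : ℝ) - 1)))
    (hC : κ * C * ‖ξ‖ ^ 2 ≤ 1 / 8) (hε1 : ε ≤ 1 / 8) :
    q ^ (-a) * (1 + a * (κ * τ * ‖ξ‖ ^ 2 / (4 * ((n : ℝ) - 1)) - 2 * ε)) ≤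
      (∑ i, (q * (1 - κ / 2 * inner ℝ (B (R i ξ)) (R i ξ) +
        3 * (κ / 2 * inner ℝ (B (R i ξ)) (R i ξ)) ^ 2 + 2 * ε)) ^ (-a)) / N := by
  have hn1 : (0 : ℝ) < (n : ℝ) - 1 := by
    have : (2 : ℝ) ≤ n := by exact_mod_cast hn
    linarith
  have hNr : (0 : ℝ) < (N : ℝ) := by exact_mod_cast hN
  have hC0 : 0 ≤ C := (norm_nonneg _).trans hB
  set b : Fin N → ℝ := fun i => κ / 2 * inner ℝ (B (R i ξ)) (R i ξ) with hbdef
  set X := κ * ‖ξ‖ ^ 2 with hX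
  have hX0 : 0 ≤ X := mul_nonneg hκ.le (sq_nonneg _)
  have hin : ∀ i, |inner ℝ (B (R i ξ)) (R i ξ)| ≤ C * ‖ξ‖ ^ 2 := by
    intro i
    have h1 : |inner ℝ (B (R i ξ)) (R i ξ)| ≤ ‖B (R i ξ)‖ * ‖R i ξ‖ := abs_real_inner_le_norm _ _
    have h2 : ‖B (R i ξ)‖ ≤ ‖B‖ * ‖R i ξ‖ := B.le_opNorm _
    have h3 : ‖R i ξ‖ = ‖ξ‖ := (R i).norm_map ξ
    rw [h3] at h1 h2
    calc |inner ℝ (B (R i ξ)) (R i ξ)| ≤ ‖B (R i ξ)‖ * ‖ξ‖ := h1
      _ ≤ (‖B‖ * ‖ξ‖) * ‖ξ‖ := mul_le_mul_of_nonneg_right h2 (norm_nonneg _)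
      _ ≤ (C * ‖ξ‖) * ‖ξ‖ := by gcongr
      _ = C * ‖ξ‖ ^ 2 := by ring
  have hb : ∀ i, |b i| ≤ C * X / 2 := by
    intro i
    simp only [hbdef, abs_mul]
    rw [abs_of_pos (by linarith : 0 < κ / 2)]
    calc κ / 2 * |inner ℝ (B (R i ξ)) (R i ξ)| ≤ κ / 2 * (C * ‖ξ‖ ^ 2) :=
          mul_le_mul_of_nonneg_left (hin i) (by linarith)
      _ = C * X / 2 := by rw [hX]; ring
  have hCX : C * X ≤ 1 / 8 := by rw [hX]; linarith [hC]
  have hb2 : ∀ i, 3 * b i ^ 2 ≤ X * τ / (4 * ((n : ℝ) - 1)) := by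
    intro i
    have h1 : b i ^ 2 ≤ (C * X / 2) ^ 2 := by
      rw [← sq_abs (b i)]
      exact pow_le_pow_left₀ (abs_nonneg _) (hb i) 2
    have h2 : C ^ 2 * X ≤ τ / (3 * ((n : ℝ) - 1)) := by rw [hX]; linarith [hsmall]
    calc 3 * b i ^ 2 ≤ 3 * (C * X / 2) ^ 2 := by linarith
      _ = 3 / 4 * X * (C ^ 2 * X) := by ring
      _ ≤ 3 / 4 * X * (τ / (3 * ((n : ℝ) - 1))) :=
          mul_le_mul_of_nonneg_left h2 (by linarith)
      _ = X * τ / (4 * ((n : ℝ) - 1)) := by field_simp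
  have hpos : ∀ i, 0 < 1 - b i + 3 * b i ^ 2 + 2 * ε := by
    intro i
    have h1 := (abs_le.mp (hb i)).2
    nlinarith [sq_nonneg (b i)]
  have hterm : ∀ i, q ^ (-a) * (1 + a * (b i - X * τ / (4 * ((n : ℝ) - 1)) - 2 * ε)) ≤
      (q * (1 - b i + 3 * b i ^ 2 + 2 * ε)) ^ (-a) := by
    intro i
    rw [Real.mul_rpow (by linarith) (hpos i).le]
    apply mul_le_mul_of_nonneg_left _ (Real.rpow_nonneg (by linarith) _)
    have h1 := rpow_neg_ge (hpos i) ha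
    have h2 := hb2 i
    have h3 : a * (b i - X * τ / (4 * ((n : ℝ) - 1)) - 2 * ε) ≤
        a * (1 - (1 - b i + 3 * b i ^ 2 + 2 * ε)) :=
      mul_le_mul_of_nonneg_left (by linarith) ha
    linarith
  have hsum : ∑ i, q ^ (-a) * (1 + a * (b i - X * τ / (4 * ((n : ℝ) - 1)) - 2 * ε)) ≤
      ∑ i, (q * (1 - b i + 3 * b i ^ 2 + 2 * ε)) ^ (-a) :=
    Finset.sum_le_sum fun i _ => hterm i
  have hsb : ∑ i, b i = N * (X * trp B e / (2 * ((n : ℝ) - 1))) := by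
    simp only [hbdef, ← Finset.mul_sum]
    rw [hR, hX]
    field_simp
  have hL : ∑ i, q ^ (-a) * (1 + a * (b i - X * τ / (4 * ((n : ℝ) - 1)) - 2 * ε)) =
      q ^ (-a) * (N * (1 + a * (X * trp B e / (2 * ((n : ℝ) - 1)) -
        X * τ / (4 * ((n : ℝ) - 1)) - 2 * ε))) := by
    rw [← Finset.mul_sum, Finset.sum_add_distrib, ← Finset.mul_sum, Finset.sum_sub_distrib,
      Finset.sum_sub_distrib, hsb]
    simp only [Finset.sum_const, Finset.card_univ, Fintype.card_fin, nsmul_eq_mul]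
    ring
  rw [hL] at hsum
  rw [le_div_iff₀ hNr]
  refine le_trans ?_ hsum
  have h1 : X * τ / (4 * ((n : ℝ) - 1)) ≤ X * trp B e / (2 * ((n : ℝ) - 1)) -
        X * τ / (4 * ((n : ℝ) - 1)) := by
    have h2 : X * τ / (2 * ((n : ℝ) - 1)) ≤ X * trp B e / (2 * ((n : ℝ) - 1)) := by
      apply div_le_div_of_nonneg_right _ (by linarith)
      exact mul_le_mul_of_nonneg_left hτ hX0
    have h3 : X * τ / (2 * ((n : ℝ) - 1)) = X * τ / (4 * ((n : ℝ) - 1)) +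
        X * τ / (4 * ((n : ℝ) - 1)) := by field_simp; ring
    linarith
  have h4 : κ * τ * ‖ξ‖ ^ 2 / (4 * ((n : ℝ) - 1)) = X * τ / (4 * ((n : ℝ) - 1)) := by
    rw [hX]; ring
  rw [h4]
  have hqa : 0 ≤ q ^ (-a) := Real.rpow_nonneg (by linarith) _
  calc q ^ (-a) * (1 + a * (X * τ / (4 * ((n : ℝ) - 1)) - 2 * ε)) * N
      = q ^ (-a) * (N * (1 + a * (X * τ / (4 * ((n : ℝ) - 1)) - 2 * ε))) := by ring
    _ ≤ _ := by
        apply mul_le_mul_of_nonneg_left _ hqa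
        apply mul_le_mul_of_nonneg_left _ hNr.le
        have := mul_le_mul_of_nonneg_left h1 ha
        nlinarith

end HMor
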