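import Pool.Agent.W_55e37b_h43.Sums
import Pool.Agent.W_55e37b_h43.Quad

set_option autoImplicit false

/-!
# MP_55e37b_an, large p: one fan
-/

open MeasureTheory Metric Set Filter Topology
open scoped ENNReal

namespace HMor

variable {n : ℕ}

/-- The set which `F` is required to contain. -/
def para (e : E n) (B : E n →L[ℝ] E n) (κ δ : ℝ) : Set (E n) :=
  {x | ‖x - (inner ℝ x e : ℝ) • e‖ ≤ δ / κ ∧ inner ℝ x e ≤ 1 + δ / κ ∧
    1 - inner ℝ x e ≤ κ / 2 * inner ℝ (B (x - (inner ℝ x e : ℝ) • e))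
      (x - (inner ℝ x e : ℝ) • e)}

/-- The quadratic form is bounded. -/
private lemma MainA_quad {B : E n →L[ℝ] E n} {C : ℝ} (hB : ‖B‖ ≤ C) (y c : E n) :
    |(inner ℝ (B y) y : ℝ) - inner ℝ (B c) c| ≤ C * ‖y - c‖ * (‖y‖ + ‖c‖) := by
  have h0 : (0 : ℝ) ≤ C := (norm_nonneg _).trans hB
  have e1 : (inner ℝ (B y) y : ℝ) - inner ℝ (B c) c =
      inner ℝ (B (y - c)) y + inner ℝ (B c) (y - c) := by
    rw [map_sub, inner_sub_left, inner_sub_right]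
    ring
  rw [e1]
  have h1 : |(inner ℝ (B (y - c)) y : ℝ)| ≤ C * ‖y - c‖ * ‖y‖ := by
    calc |(inner ℝ (B (y - c)) y : ℝ)| ≤ ‖B (y - c)‖ * ‖y‖ := abs_real_inner_le_norm _ _
      _ ≤ C * ‖y - c‖ * ‖y‖ := by
        apply mul_le_mul_of_nonneg_right _ (norm_nonneg _)
        exact (B.le_opNorm _).trans (mul_le_mul_of_nonneg_right hB (norm_nonneg _))
  have h2 : |(inner ℝ (B c) (y - c) : ℝ)| ≤ C * ‖y - c‖ * ‖c‖ := by
    calc |(inner ℝ (B c) (y - c) : ℝ)| ≤ ‖B c‖ * ‖y - c‖ := abs_real_inner_le_norm _ _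
      _ ≤ C * ‖c‖ * ‖y - c‖ := by
        apply mul_le_mul_of_nonneg_right _ (norm_nonneg _)
        exact (B.le_opNorm _).trans (mul_le_mul_of_nonneg_right hB (norm_nonneg _))
      _ = C * ‖y - c‖ * ‖c‖ := by ring
  calc |(inner ℝ (B (y - c)) y : ℝ) + inner ℝ (B c) (y - c)|
      ≤ |(inner ℝ (B (y - c)) y : ℝ)| + |(inner ℝ (B c) (y - c) : ℝ)| := abs_add_le _ _
    _ ≤ C * ‖y - c‖ * ‖y‖ + C * ‖y - c‖ * ‖c‖ := add_le_add h1 h2
    _ = C * ‖y - c‖ * (‖y‖ + ‖c‖) := by ring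

private lemma MainA_quad0 {B : E n →L[ℝ] E n} {C κ s : ℝ} (hB : ‖B‖ ≤ C) (hκ : 0 < κ)
    {y : E n} (hy : ‖y‖ ≤ s) :
    |κ / 2 * (inner ℝ (B y) y : ℝ)| ≤ κ / 2 * C * s ^ 2 := by
  have h0 : (0 : ℝ) ≤ C := (norm_nonneg _).trans hB
  have h1 := MainA_quad hB y 0
  simp only [map_zero, inner_zero_left, sub_zero, norm_zero, add_zero] at h1
  rw [abs_mul, abs_of_pos (by positivity)]
  have h2 : C * ‖y‖ * ‖y‖ ≤ C * s * s := by
    have h3 : ‖y‖ * ‖y‖ ≤ s * s := mul_le_mul hy hy (norm_nonneg _) ((norm_nonneg _).trans hy)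
    nlinarith
  calc κ / 2 * |(inner ℝ (B y) y : ℝ)| ≤ κ / 2 * (C * s * s) :=
        mul_le_mul_of_nonneg_left (h1.trans h2) (by positivity)
    _ = κ / 2 * C * s ^ 2 := by ring

/-- One isometry of the design. -/
private lemma MainA_mem (hn : 2 ≤ n) {e : E n} (he : ‖e‖ = 1)
    {B : E n →L[ℝ] E n} {C κ δ ε r T : ℝ} (hB : ‖B‖ ≤ C)
    (hκ : 0 < κ) (hε : 0 ≤ ε) (hr : 0 < r) (_hT : 1 < T)
    (c1 : 2 * κ * C * (2 * n * r) ^ 2 ≤ 1 / 8) (c2 : κ / 2 * C * (2 * n * r) ^ 2 * T ^ 2 ≤ T - 1)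
    (c3 : T ≤ 1 + δ / κ) (c4 : T * (2 * n * r) ≤ δ / κ)
    {η : ℝ} (hη : 0 ≤ η) (hη1 : η ≤ n * r) (hηε : κ / 2 * C * η * (4 * n * r) ≤ ε)
    (R : E n ≃ₗᵢ[ℝ] E n) (hR : R e = e) {ct x : E n} (hct : ‖ct‖ ≤ n * r)
    (hx : ‖x - (inner ℝ x e : ℝ) • e - (inner ℝ x e : ℝ) • ct‖ ≤ η * inner ℝ x e)
    (hx1 : 1 - κ / 2 * inner ℝ (B (R ct)) (R ct) + 3 * (κ / 2 * inner ℝ (B (R ct)) (R ct)) ^ 2 +
      2 * ε ≤ inner ℝ x e) (hx2 : inner ℝ x e ≤ T) : R x ∈ para e B κ δ := by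
  have h0 : (0 : ℝ) ≤ C := (norm_nonneg _).trans hB
  have hnR : (0 : ℝ) < n := by
    have : 0 < n := by omega
    exact_mod_cast this
  have hnr : 0 < (n : ℝ) * r := mul_pos hnR hr
  obtain ⟨t, ht⟩ : ∃ t : ℝ, t = inner ℝ x e := ⟨_, rfl⟩
  rw [← ht] at hx hx1 hx2
  have hRt : (inner ℝ (R x) e : ℝ) = t := by
    have h1 : (inner ℝ (R x) (R e) : ℝ) = inner ℝ x e := R.inner_map_map x e
    rw [hR] at h1
    rw [h1, ht]
  obtain ⟨b', hb'⟩ : ∃ b' : ℝ, b' = κ / 2 * inner ℝ (B (R ct)) (R ct) := ⟨_, rfl⟩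
  rw [← hb'] at hx1
  have hRct : ‖R ct‖ ≤ n * r := by
    rw [R.norm_map]
    exact hct
  have hb'1 : |b'| ≤ 1 / 16 := by
    rw [hb']
    refine (MainA_quad0 hB hκ hRct).trans ?_
    have : κ * C * (n * r) ^ 2 * 8 ≤ 1 / 8 := by
      have e1 : 2 * κ * C * (2 * n * r) ^ 2 = κ * C * (n * r) ^ 2 * 8 := by ring
      rw [← e1]
      exact c1
    have h2 : 0 ≤ κ * C * (n * r) ^ 2 := by positivity
    linarith
  have htpos : 0 < t := by
    have h1 := (abs_le.1 hb'1).2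
    have h2 : 0 ≤ 3 * b' ^ 2 := by positivity
    linarith
  obtain ⟨y, hy⟩ : ∃ y : E n, y = R (t⁻¹ • (x - t • e)) := ⟨_, rfl⟩
  have hyc : ‖y - R ct‖ ≤ η := by
    rw [hy, ← map_sub, R.norm_map]
    have h1 : t⁻¹ • (x - t • e) - ct = t⁻¹ • (x - t • e - t • ct) := by
      rw [smul_sub t⁻¹ (x - t • e) (t • ct), smul_smul, inv_mul_cancel₀ htpos.ne', one_smul]
    rw [h1, norm_smul, Real.norm_eq_abs, abs_of_pos (inv_pos.2 htpos)]
    calc t⁻¹ * ‖x - t • e - t • ct‖ ≤ t⁻¹ * (η * t) :=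
          mul_le_mul_of_nonneg_left hx (inv_pos.2 htpos).le
      _ = η := by
        field_simp
  have hyn : ‖y‖ ≤ 2 * n * r := by
    have h1 : ‖y‖ ≤ ‖y - R ct‖ + ‖R ct‖ := by
      have := norm_add_le (y - R ct) (R ct)
      rwa [sub_add_cancel] at this
    linarith
  have hRx : R x - t • e = t • y := by
    rw [hy, ← map_smul, smul_smul, mul_inv_cancel₀ htpos.ne', one_smul, map_sub, map_smul, hR]
  obtain ⟨b, hb⟩ : ∃ b : ℝ, b = κ / 2 * inner ℝ (B y) y := ⟨_, rfl⟩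
  have hb0 : |b| ≤ κ / 2 * C * (2 * n * r) ^ 2 := by
    rw [hb]
    exact MainA_quad0 hB hκ hyn
  have hb1 : |b| ≤ 1 / 16 := by
    have h2 : 0 ≤ κ * C * (2 * n * r) ^ 2 := by positivity
    have e1 : 2 * κ * C * (2 * n * r) ^ 2 = 2 * (κ * C * (2 * n * r) ^ 2) := by ring
    rw [e1] at c1
    have e2 : κ / 2 * C * (2 * n * r) ^ 2 = (κ * C * (2 * n * r) ^ 2) / 2 := by ring
    rw [e2] at hb0
    linarith
  have hbb : |b - b'| ≤ ε := by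
    have e1 : b - b' = κ / 2 * ((inner ℝ (B y) y : ℝ) - inner ℝ (B (R ct)) (R ct)) := by
      rw [hb, hb']
      ring
    rw [e1, abs_mul, abs_of_pos (by positivity : (0 : ℝ) < κ / 2)]
    have h1 := MainA_quad hB y (R ct)
    have h2 : C * ‖y - R ct‖ * (‖y‖ + ‖R ct‖) ≤ C * η * (4 * n * r) := by
      have h3 : ‖y‖ + ‖R ct‖ ≤ 4 * n * r := by linarith
      exact mul_le_mul (mul_le_mul_of_nonneg_left hyc h0) h3 (by positivity) (by positivity)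
    calc κ / 2 * |(inner ℝ (B y) y : ℝ) - inner ℝ (B (R ct)) (R ct)|
        ≤ κ / 2 * (C * η * (4 * n * r)) :=
          mul_le_mul_of_nonneg_left (h1.trans h2) (by positivity)
      _ = κ / 2 * C * η * (4 * n * r) := by ring
      _ ≤ ε := hηε
  have h3 : |b| * T ^ 2 ≤ T - 1 :=
    (mul_le_mul_of_nonneg_right hb0 (by positivity)).trans c2
  have hray := ray_in hb1 hb'1 hbb hx1 hx2 h3
  show ‖R x - (inner ℝ (R x) e : ℝ) • e‖ ≤ δ / κ ∧ inner ℝ (R x) e ≤ 1 + δ / κ ∧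
    1 - inner ℝ (R x) e ≤ κ / 2 * inner ℝ (B (R x - (inner ℝ (R x) e : ℝ) • e))
      (R x - (inner ℝ (R x) e : ℝ) • e)
  rw [hRt, hRx]
  refine ⟨?_, hx2.trans c3, ?_⟩
  · rw [norm_smul, Real.norm_eq_abs, abs_of_pos htpos]
    exact (mul_le_mul hx2 hyn (norm_nonneg _) (htpos.le.trans hx2)).trans c4
  · rw [map_smul, real_inner_smul_left, real_inner_smul_right]
    refine hray.trans (le_of_eq ?_)
    rw [hb]
    ring

/-- One fan.  For `j ∈ near` and `i : Fin N` (the design) the set `R i ⁻¹' F`... contains the part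
`lam ≤ ⟪x,e⟫ ≤ T` of the cone `K j`, `lam = 1 - b + 3 b² + 2 ε`, `b = κ/2 ⟪B (R i ctr), R i ctr⟫`
(`ray_in`); `fan_le` for `(R i) ⁻¹' F` (capacity `cp p F` by `cp_isom`), average over `i`
(`avg_ge`). -/
theorem fan_para (hn : 2 ≤ n) {p : ℝ} (hp : (n : ℝ) < p) {e : E n} (he : ‖e‖ = 1)
    {B : E n →L[ℝ] E n} {C τ κ δ ε r T q : ℝ} (hB : ‖B‖ ≤ C) (hτ : τ ≤ trp B e) (hτ0 : 0 < τ)
    (hκ : 0 < κ) (hδ : 0 < δ) (hε : 0 ≤ ε) (hε1 : ε ≤ 1 / 8) (hr : 0 < r) (hT : 1 < T)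
    (hq : 1 < q)
    (c1 : 2 * κ * C * (2 * n * r) ^ 2 ≤ 1 / 8) (c2 : κ / 2 * C * (2 * n * r) ^ 2 * T ^ 2 ≤ T - 1)
    (c3 : T ≤ 1 + δ / κ) (c4 : T * (2 * n * r) ≤ δ / κ)
    (c5 : κ * C ^ 2 * (2 * n * r) ^ 2 ≤ τ / (3 * ((n : ℝ) - 1)))
    {J : ℕ} {K : ℕ → Set (E n)} (hK : Fan e J K) {ctr : ℕ → E n} {near : Finset ℕ}
    (h1 : ∀ j ∈ near, inner ℝ (ctr j) e = (0 : ℝ) ∧ ‖ctr j‖ ≤ n * r)
    {η : ℝ} (hη : 0 ≤ η) (hη1 : η ≤ n * r) (hηε : κ / 2 * C * η * (4 * n * r) ≤ ε)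
    (h2 : ∀ j ∈ near, ∀ x ∈ K j, 0 ≤ inner ℝ x e ∧
      ‖x - (inner ℝ x e : ℝ) • e - (inner ℝ x e : ℝ) • ctr j‖ ≤ η * inner ℝ x e)
    {F : Set (E n)} (hF : Adm F) (hpF : para e B κ δ ⊆ F) :
    ∑ j ∈ near, mm' p e q K j * (q ^ ((n : ℝ) - p) *
      (1 + (p - n) * (κ * τ * ‖ctr j‖ ^ 2 / (4 * ((n : ℝ) - 1)) - 2 * ε)) -
        T ^ ((n : ℝ) - p)) ≤ cp p F := by
  have h0 : (0 : ℝ) ≤ C := (norm_nonneg _).trans hB
  have hn1 : 1 ≤ n := by omega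
  have hnR : (2 : ℝ) ≤ n := by exact_mod_cast hn
  have hp1 : 1 ≤ p := by linarith
  have hnr : 0 < (n : ℝ) * r := mul_pos (by linarith) hr
  obtain ⟨N, R, hN, hRe, hR⟩ := design hn he
  have hNR : (0 : ℝ) < N := by exact_mod_cast hN
  -- the levels
  obtain ⟨lam, hlam⟩ : ∃ lam : Fin N → ℕ → ℝ, lam = fun i j =>
    1 - κ / 2 * inner ℝ (B (R i (ctr j))) (R i (ctr j)) +
      3 * (κ / 2 * inner ℝ (B (R i (ctr j))) (R i (ctr j))) ^ 2 + 2 * ε := ⟨_, rfl⟩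
  have hκn : κ * C * (n * r) ^ 2 * 8 ≤ 1 / 8 := by
    have e1 : 2 * κ * C * (2 * n * r) ^ 2 = κ * C * (n * r) ^ 2 * 8 := by ring
    rw [← e1]
    exact c1
  have hlampos : ∀ i, ∀ j ∈ near, 0 < lam i j := by
    intro i j hj
    have h3 : ‖R i (ctr j)‖ ≤ n * r := by
      rw [(R i).norm_map]
      exact (h1 j hj).2
    have h4 := (abs_le.1 (MainA_quad0 hB hκ h3)).2
    have h5 : 0 ≤ κ * C * (n * r) ^ 2 := by positivity
    have h6 : 0 ≤ 3 * (κ / 2 * (inner ℝ (B (R i (ctr j))) (R i (ctr j)) : ℝ)) ^ 2 := by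
      positivity
    rw [hlam]
    show 0 < 1 - κ / 2 * inner ℝ (B (R i (ctr j))) (R i (ctr j)) +
      3 * (κ / 2 * inner ℝ (B (R i (ctr j))) (R i (ctr j))) ^ 2 + 2 * ε
    have h7 : κ / 2 * C * (n * r) ^ 2 = κ * C * (n * r) ^ 2 / 2 := by ring
    rw [h7] at h4
    linarith
  have hfan : ∀ i, ∑ j ∈ near, mm' p e q K j *
      ((q * lam i j) ^ ((n : ℝ) - p) - T ^ ((n : ℝ) - p)) ≤ cp p F := by
    intro i
    have hFi : Adm ((R i) ⁻¹' F) := by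
      refine ⟨hF.1.preimage (R i).continuous, ?_⟩
      intro hmem
      have h3 : R i 0 ∈ F := hmem
      rw [map_zero] at h3
      exact hF.2 h3
    have h3 := fan_le hn1 hp hK hq hFi near (lam := lam i) (hlampos i) (T := T) (by linarith)
      (by
        intro j hj x hx hx1 hx2
        show R i x ∈ F
        apply hpF
        rw [hlam] at hx1
        exact MainA_mem hn he hB hκ hε hr hT c1 c2 c3 c4 hη hη1 hηε (R i) (hRe i)
          (h1 j hj).2 (h2 j hj x hx).2 hx1 hx2)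
    rwa [cp_isom hp1 (R i) F] at h3
  -- average
  have hsum : ∑ j ∈ near, mm' p e q K j *
      ((∑ i, (q * lam i j) ^ ((n : ℝ) - p)) / N - T ^ ((n : ℝ) - p)) ≤ cp p F := by
    have h3 : ∑ i : Fin N, ∑ j ∈ near, mm' p e q K j *
        ((q * lam i j) ^ ((n : ℝ) - p) - T ^ ((n : ℝ) - p)) ≤ ∑ _i : Fin N, cp p F :=
      Finset.sum_le_sum fun i _ => hfan i
    rw [Finset.sum_const, Finset.card_univ, Fintype.card_fin, nsmul_eq_mul,
      Finset.sum_comm] at h3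
    have h4 : ∑ j ∈ near, ∑ i : Fin N, mm' p e q K j *
        ((q * lam i j) ^ ((n : ℝ) - p) - T ^ ((n : ℝ) - p)) =
        N * ∑ j ∈ near, mm' p e q K j *
          ((∑ i, (q * lam i j) ^ ((n : ℝ) - p)) / N - T ^ ((n : ℝ) - p)) := by
      rw [Finset.mul_sum]
      apply Finset.sum_congr rfl
      intro j _
      rw [← Finset.mul_sum, Finset.sum_sub_distrib, Finset.sum_const, Finset.card_univ,
        Fintype.card_fin, nsmul_eq_mul]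
      field_simp
    rw [h4] at h3
    exact le_of_mul_le_mul_left h3 hNR
  refine le_trans (Finset.sum_le_sum fun j hj => ?_) hsum
  apply mul_le_mul_of_nonneg_left _ (mm'_nonneg hp hK hq j)
  apply sub_le_sub_right
  have hct := (h1 j hj).2
  have hct2 : ‖ctr j‖ ^ 2 ≤ (2 * n * r) ^ 2 := by
    apply pow_le_pow_left₀ (norm_nonneg _)
    linarith
  have h3 := avg_ge (a := p - n) hn he hN (R := R) (B := B) (ξ := ctr j)
    (hR B (ctr j) (h1 j hj).1) hB hτ hτ0 hκ hε (by linarith) hq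
    ((mul_le_mul_of_nonneg_left hct2 (by positivity)).trans c5)
    (by
      have h4 : κ * C * ‖ctr j‖ ^ 2 ≤ κ * C * (2 * n * r) ^ 2 :=
        mul_le_mul_of_nonneg_left hct2 (by positivity)
      have h5 : 0 ≤ κ * C * (2 * n * r) ^ 2 := by positivity
      have e1 : 2 * κ * C * (2 * n * r) ^ 2 = 2 * (κ * C * (2 * n * r) ^ 2) := by ring
      rw [e1] at c1
      linarith) hε1
  have e1 : -(p - (n : ℝ)) = (n : ℝ) - p := by ring
  rw [e1] at h3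
  rw [hlam]
  exact h3

end HMor
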