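import Pool.Agent.W_55e37b_h43.Sums
import Pool.Agent.W_55e37b_h43.MainA
import Pool.Agent.W_55e37b_h43.Grid
import Pool.Agent.W_55e37b_h43.Quad
import Pool.Agent.W_55e37b_h43.LowCH

set_option autoImplicit false

/-!
# MP_55e37b_an, large p: paraboloids of positive trace
-/

open MeasureTheory Metric Set Filter Topology
open scoped ENNReal

namespace HMor

variable {n : ℕ}

private lemma main_arith {h0 M tl n0 g σ Q ε' Ta : ℝ} (h : M + tl = h0) (htl0 : 0 ≤ tl)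
    (htl : tl ≤ h0 / 4) (h0pos : 0 < h0) (hn0 : n0 ≤ h0 / 4) (hQ : 1 - σ ≤ Q) (hQ1 : Q ≤ 1)
    (hε0 : 0 ≤ ε') (hε : ε' ≤ σ) (hσ0 : 0 < σ) (hσ : σ ≤ 1 / 4) (hσg : σ ≤ g / 16) (hTa : 0 ≤ Ta)
    (key : tl + Ta * h0 < g / 4 * h0) :
    h0 < M * (Q * (1 - ε') - Ta) + Q * g * (M - n0) := by
  have hM : M = h0 - tl := by linarith
  have hM0 : 0 ≤ M := by linarith
  have hMh : M ≤ h0 := by linarith
  have hg : 0 < g := by linarith
  have h1 : 1 - 2 * σ ≤ Q * (1 - ε') := by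
    have h2 : (1 - σ) * (1 - σ) ≤ Q * (1 - ε') :=
      mul_le_mul hQ (by linarith) (by linarith) (by linarith)
    nlinarith
  have h3 : M * (1 - 2 * σ - Ta) ≤ M * (Q * (1 - ε') - Ta) :=
    mul_le_mul_of_nonneg_left (by linarith) hM0
  have h4 : M - 2 * σ * h0 - Ta * h0 ≤ M * (1 - 2 * σ - Ta) := by
    have h5 : σ * M ≤ σ * h0 := mul_le_mul_of_nonneg_left hMh hσ0.le
    have h6 : Ta * M ≤ Ta * h0 := mul_le_mul_of_nonneg_left hMh hTa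
    nlinarith
  have h7 : 3 / 8 * g * h0 ≤ Q * g * (M - n0) := by
    have h8 : 3 / 4 * g ≤ Q * g := mul_le_mul_of_nonneg_right (by linarith) hg.le
    have h9 : h0 / 2 ≤ M - n0 := by linarith
    calc 3 / 8 * g * h0 = 3 / 4 * g * (h0 / 2) := by ring
      _ ≤ Q * g * (M - n0) := mul_le_mul h8 h9 (by linarith) (by nlinarith)
  have h10 : 2 * σ * h0 ≤ g / 8 * h0 := mul_le_mul_of_nonneg_right (by linarith) h0pos.le
  nlinarith

private lemma main_sum {S : Finset ℕ} {w v : ℕ → ℝ} {Q ε' Ta a b ρ : ℝ} (hw : ∀ j ∈ S, 0 ≤ w j)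
    (hQ : 0 ≤ Q) (hab : 0 ≤ a * b) (hρ : 0 ≤ ρ) (hv : ∀ j ∈ S, 0 ≤ v j) :
    (∑ j ∈ S, w j) * (Q * (1 - ε') - Ta) +
      Q * (a * b * ρ ^ 2) * (∑ j ∈ S, w j - ∑ j ∈ S with v j < ρ, w j) ≤
      ∑ j ∈ S, w j * (Q * (1 + (a * (b * v j ^ 2) - ε')) - Ta) := by
  classical
  have h1 : ∑ j ∈ S, w j - ∑ j ∈ S with v j < ρ, w j = ∑ j ∈ S with ¬ v j < ρ, w j := by
    rw [← Finset.sum_filter_add_sum_filter_not S (fun j => v j < ρ) w]
    ring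
  rw [h1, Finset.sum_mul, Finset.mul_sum, Finset.sum_filter, ← Finset.sum_add_distrib]
  refine Finset.sum_le_sum fun j hj => ?_
  have hwj := hw j hj
  have hvj := hv j hj
  by_cases hlt : v j < ρ
  · rw [if_neg (by simpa using hlt)]
    have h2 : 0 ≤ w j * (Q * (a * b * v j ^ 2)) := by positivity
    nlinarith
  · rw [if_pos (by simpa using hlt)]
    have h3 : ρ ^ 2 ≤ v j ^ 2 := pow_le_pow_left₀ hρ (not_lt.1 hlt) 2
    have h4 : w j * Q * (a * b) * ρ ^ 2 ≤ w j * Q * (a * b) * v j ^ 2 :=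
      mul_le_mul_of_nonneg_left h3 (by positivity)
    nlinarith

private lemma exists_small {ι : Type*} (s : Finset ι) (K L : ι → ℝ) (hK : ∀ i, 0 < K i)
    (hL : ∀ i, 0 < L i) : ∃ c : ℝ, 0 < c ∧ c ≤ 1 ∧ ∀ i ∈ s, K i * c ≤ L i := by
  classical
  induction s using Finset.induction_on with
  | empty => exact ⟨1, one_pos, le_rfl, by simp⟩
  | insert i s _ ih =>
    obtain ⟨c, hc, hc1, h⟩ := ih
    refine ⟨min c (L i / K i), lt_min hc (div_pos (hL i) (hK i)), (min_le_left _ _).trans hc1,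
      fun j hj => ?_⟩
    rcases Finset.mem_insert.1 hj with rfl | hj
    · calc K j * min c (L j / K j) ≤ K j * (L j / K j) :=
            mul_le_mul_of_nonneg_left (min_le_right _ _) (hK j).le
        _ = L j := by field_simp [(hK j).ne']
    · exact (mul_le_mul_of_nonneg_left (min_le_left _ _) (hK j).le).trans (h j hj)

/-- The five geometric conditions on the constants. -/
private lemma exists_c4 {nn C m τ c3 w1 δ : ℝ} (hn : 0 < nn) (hC : 0 < C) (hm : 0 < m)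
    (hτ : 0 < τ) (hc3 : 0 < c3) (hw1 : 0 < w1) (hδ : 0 < δ) :
    ∃ c4 : ℝ, 0 < c4 ∧ ∀ w : ℝ, 0 < w → w ≤ w1 →
      2 * w ^ 4 * C * (2 * nn * (c4 / w)) ^ 2 ≤ 1 / 8 ∧
      w ^ 4 / 2 * C * (2 * nn * (c4 / w)) ^ 2 * (1 + c3 / w ^ 2) ^ 2 ≤ c3 / w ^ 2 ∧
      (1 + c3 / w ^ 2) * (2 * nn * (c4 / w)) ≤ δ / w ^ 4 ∧
      w ^ 4 * C ^ 2 * (2 * nn * (c4 / w)) ^ 2 ≤ τ / (3 * m) := by
  let K : Fin 4 → ℝ := ![8 * nn ^ 2 * C * w1 ^ 2, 2 * nn ^ 2 * C * (w1 ^ 2 + c3) ^ 2,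
    2 * nn * (w1 ^ 2 + c3) * w1, 4 * nn ^ 2 * C ^ 2 * w1 ^ 2]
  let L : Fin 4 → ℝ := ![1 / 8, c3, δ, τ / (3 * m)]
  have hK : ∀ i, 0 < K i := by
    intro i
    fin_cases i <;> simp [K] <;> positivity
  have hL : ∀ i, 0 < L i := by
    intro i
    fin_cases i <;> simp [L] <;> positivity
  obtain ⟨c, hc, hc1, h⟩ := exists_small Finset.univ K L hK hL
  have hcc : c ^ 2 ≤ c := by nlinarith
  refine ⟨c, hc, fun w hw hww => ?_⟩
  have hw2 : w ^ 2 ≤ w1 ^ 2 := pow_le_pow_left₀ hw.le hww 2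
  have e0 := h 0 (Finset.mem_univ _)
  have e1 := h 1 (Finset.mem_univ _)
  have e2 := h 2 (Finset.mem_univ _)
  have e3 := h 3 (Finset.mem_univ _)
  simp only [K, L, Matrix.cons_val_zero, Matrix.cons_val_one, Matrix.cons_val,
    Fin.isValue] at e0 e1 e2 e3
  refine ⟨?_, ?_, ?_, ?_⟩
  · have h1 : 2 * w ^ 4 * C * (2 * nn * (c / w)) ^ 2 = 8 * nn ^ 2 * C * w ^ 2 * c ^ 2 := by
      field_simp
      ring
    rw [h1]
    calc 8 * nn ^ 2 * C * w ^ 2 * c ^ 2 ≤ 8 * nn ^ 2 * C * w1 ^ 2 * c := by gcongr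
      _ ≤ 1 / 8 := e0
  · have h1 : w ^ 4 / 2 * C * (2 * nn * (c / w)) ^ 2 * (1 + c3 / w ^ 2) ^ 2 =
        2 * nn ^ 2 * C * (w ^ 2 + c3) ^ 2 * c ^ 2 / w ^ 2 := by
      field_simp
    rw [h1]
    apply div_le_div_of_nonneg_right _ (by positivity)
    calc 2 * nn ^ 2 * C * (w ^ 2 + c3) ^ 2 * c ^ 2 ≤ 2 * nn ^ 2 * C * (w1 ^ 2 + c3) ^ 2 * c := by
          gcongr
      _ ≤ c3 := e1
  · have h1 : (1 + c3 / w ^ 2) * (2 * nn * (c / w)) = 2 * nn * (w ^ 2 + c3) * w * c / w ^ 4 := by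
      field_simp
    rw [h1]
    apply div_le_div_of_nonneg_right _ (by positivity)
    calc 2 * nn * (w ^ 2 + c3) * w * c ≤ 2 * nn * (w1 ^ 2 + c3) * w1 * c := by gcongr
      _ ≤ δ := e2
  · have h1 : w ^ 4 * C ^ 2 * (2 * nn * (c / w)) ^ 2 = 4 * nn ^ 2 * C ^ 2 * w ^ 2 * c ^ 2 := by
      field_simp
      ring
    rw [h1]
    calc 4 * nn ^ 2 * C ^ 2 * w ^ 2 * c ^ 2 ≤ 4 * nn ^ 2 * C ^ 2 * w1 ^ 2 * c := by gcongr
      _ ≤ τ / (3 * m) := e3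

/-- One value of `p` and `κ`, all estimates given. -/
private lemma para_lt_aux (hn : 2 ≤ n) {p : ℝ} (hp : 2 * (n : ℝ) ≤ p) {e : E n} (he : ‖e‖ = 1)
    {B : E n →L[ℝ] E n} {C τ κ δ r T ρ CN CT : ℝ} (hB : ‖B‖ ≤ C) (hC : 0 < C) (hτ : τ ≤ trp B e)
    (hτ0 : 0 < τ) (hκ : 0 < κ) (hδ : 0 < δ) (hr : 0 < r) (hT : 1 < T) (hρ : 0 < ρ)
    (hρ1 : 2 * ρ ≤ 1)
    (c1 : 2 * κ * C * (2 * n * r) ^ 2 ≤ 1 / 8) (c2 : κ / 2 * C * (2 * n * r) ^ 2 * T ^ 2 ≤ T - 1)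
    (c3 : T ≤ 1 + δ / κ) (c4 : T * (2 * n * r) ≤ δ / κ)
    (c5 : κ * C ^ 2 * (2 * n * r) ^ 2 ≤ τ / (3 * ((n : ℝ) - 1)))
    (hnear : ∃ q0 : ℝ, 1 < q0 ∧ ∀ q : ℝ, 1 < q → q < q0 →
      ∀ (J : ℕ) (K : ℕ → Set (E n)), Fan e J K → ∀ S : Finset ℕ,
      (∀ j ∈ S, ∀ x ∈ K j, ‖x - (inner ℝ x e : ℝ) • e‖ ≤ 2 * ρ * inner ℝ x e) →
      ∑ j ∈ S, mm' p e q K j ≤ CN * (2 * ρ))
    (htail : ∀ (J : ℕ) (K : ℕ → Set (E n)), Fan e J K → ∀ q : ℝ, 1 < q →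
      ∀ S : Finset ℕ, ∀ R : ℝ, 0 < R → (∀ j ∈ S, ∀ x ∈ K j, R * inner ℝ x e ≤ ‖x‖) →
      ∑ j ∈ S, mm' p e q K j ≤ CT * q ^ (p - (n : ℝ)) * R ^ ((n : ℝ) - p))
    (hCT : 0 < CT)
    (a1 : CN * (2 * ρ) ≤ cH p e / 4)
    (a2 : 2 * CT * (Real.sqrt (1 + r ^ 2)) ^ ((n : ℝ) - p) ≤ cH p e / 4)
    (a3 : 2 * CT * (Real.sqrt (1 + r ^ 2)) ^ ((n : ℝ) - p) + T ^ ((n : ℝ) - p) * cH p e <
      (p - n) * (κ * τ / (4 * ((n : ℝ) - 1))) * ρ ^ 2 / 4 * cH p e)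
    {F : Set (E n)} (hF : Adm F) (hpF : para e B κ δ ⊆ F) :
    cH p e < cp p F := by
  have hn1 : 1 ≤ n := by omega
  have hn2 : (2 : ℝ) ≤ n := by exact_mod_cast hn
  have hpn : (n : ℝ) < p := by linarith
  have hm : 0 < (n : ℝ) - 1 := by linarith
  have ha : 0 < p - n := by linarith
  have hH := cH_pos hn1 hpn he
  set g : ℝ := (p - n) * (κ * τ / (4 * ((n : ℝ) - 1))) * ρ ^ 2 with hg
  have hg0 : 0 < g := by positivity
  set σ : ℝ := min (1 / 4) (g / 16) with hσ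
  have hσ0 : 0 < σ := lt_min (by norm_num) (by positivity)
  have hσ1 : σ ≤ 1 / 4 := min_le_left _ _
  have hσ2 : σ ≤ g / 16 := min_le_right _ _
  obtain ⟨q0, hq0, hnear⟩ := hnear
  -- the ratio `q`
  set q : ℝ := 1 + min ((q0 - 1) / 2) (σ / (p - n)) with hqdef
  have hq1 : 1 < q := by
    have : 0 < min ((q0 - 1) / 2) (σ / (p - n)) := lt_min (by linarith) (by positivity)
    linarith
  have hqq : q < q0 := by
    have : min ((q0 - 1) / 2) (σ / (p - n)) ≤ (q0 - 1) / 2 := min_le_left _ _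
    linarith
  have hqa : 1 - σ ≤ q ^ ((n : ℝ) - p) := by
    have h1 := rpow_neg_ge (lam := q) (a := p - n) (by linarith) ha.le
    have h2 : -(p - (n : ℝ)) = (n : ℝ) - p := by ring
    rw [h2] at h1
    have h3 : (p - n) * (q - 1) ≤ σ := by
      have : q - 1 ≤ σ / (p - n) := by
        rw [hqdef]
        have := min_le_right ((q0 - 1) / 2) (σ / (p - n))
        linarith
      calc (p - n) * (q - 1) ≤ (p - n) * (σ / (p - n)) := mul_le_mul_of_nonneg_left this ha.le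
        _ = σ := by field_simp
    nlinarith
  have hqa1 : q ^ ((n : ℝ) - p) ≤ 1 :=
    Real.rpow_le_one_of_one_le_of_nonpos hq1.le (by linarith)
  have hqa2 : q ^ (p - (n : ℝ)) ≤ 2 := by
    have h1 : q ^ (p - (n : ℝ)) * q ^ ((n : ℝ) - p) = 1 := by
      rw [← Real.rpow_add (by linarith)]
      simp
    have h2 : 0 < q ^ (p - (n : ℝ)) := Real.rpow_pos_of_pos (by linarith) _
    have h3 : 1 / 2 ≤ q ^ ((n : ℝ) - p) := by linarith
    nlinarith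
  -- the precision `ε`
  set ε : ℝ := min (1 / 8) (σ / (2 * (p - n))) with hεdef
  have hε0 : 0 < ε := lt_min (by norm_num) (by positivity)
  have hε1 : ε ≤ 1 / 8 := min_le_left _ _
  have hε2 : (p - n) * (2 * ε) ≤ σ := by
    have h1 : ε ≤ σ / (2 * (p - n)) := min_le_right _ _
    calc (p - n) * (2 * ε) ≤ (p - n) * (2 * (σ / (2 * (p - n)))) := by gcongr
      _ = σ := by field_simp
  -- the mesh
  obtain ⟨N, hN⟩ := exists_nat_gt (max 1 (max (n * r / ρ) (κ / 2 * C * (n * r) * (4 * n * r) / ε)))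
  have hN1 : (1 : ℝ) < N := (le_max_left _ _).trans_lt hN
  have hN0 : 0 < N := by
    have : (0 : ℝ) < N := by linarith
    exact_mod_cast this
  have hNp : (0 : ℝ) < N := by exact_mod_cast hN0
  have hN2 : n * r / N ≤ ρ := by
    have h1 : n * r / ρ < N := ((le_max_left _ _).trans (le_max_right _ _)).trans_lt hN
    rw [div_lt_iff₀ hρ] at h1
    rw [div_le_iff₀ hNp]
    linarith
  have hN3 : κ / 2 * C * (n * r / N) * (4 * n * r) ≤ ε := by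
    have h1 : κ / 2 * C * (n * r) * (4 * n * r) / ε < N :=
      ((le_max_right _ _).trans (le_max_right _ _)).trans_lt hN
    rw [div_lt_iff₀ hε0] at h1
    have h2 : κ / 2 * C * (n * r / N) * (4 * n * r) = κ / 2 * C * (n * r) * (4 * n * r) / N := by
      ring
    rw [h2, div_le_iff₀ hNp]
    linarith
  have hnr : 0 < n * r := by positivity
  have hη0 : 0 ≤ n * r / N := by positivity
  have hη1 : n * r / N ≤ n * r := div_le_self hnr.le hN1.le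
  obtain ⟨J, K, ctr, near, hK, hnJ, h1, h2, h3⟩ := exists_grid hn he hr hN0
  have hfan := fan_para hn hpn he hB hτ hτ0 hκ hδ hε0.le hε1 hr hT hq1 c1 c2 c3 c4 c5 hK h1 hη0
    hη1 hN3 h2 hF hpF
  -- the masses
  have hw : ∀ j, 0 ≤ mm' p e q K j := fun j => mm'_nonneg hpn hK hq1 j
  have htot := sum_mm' hn1 hpn he hK hq1
  have hsplit : ∑ j ∈ near, mm' p e q K j + ∑ j ∈ Finset.range J \ near, mm' p e q K j =
      cH p e := by
    rw [← htot, ← Finset.sum_sdiff hnJ, add_comm]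
  have htl := htail J K hK q hq1 (Finset.range J \ near) (Real.sqrt (1 + r ^ 2))
    (Real.sqrt_pos.2 (by positivity)) h3
  have hRpos : 0 < (Real.sqrt (1 + r ^ 2)) ^ ((n : ℝ) - p) :=
    Real.rpow_pos_of_pos (Real.sqrt_pos.2 (by positivity)) _
  have htl2 : ∑ j ∈ Finset.range J \ near, mm' p e q K j ≤
      2 * CT * (Real.sqrt (1 + r ^ 2)) ^ ((n : ℝ) - p) := by
    refine htl.trans ?_
    have : CT * q ^ (p - (n : ℝ)) ≤ 2 * CT := by nlinarith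
    exact mul_le_mul_of_nonneg_right this hRpos.le
  have hn0 := hnear q hq1 hqq J K hK (near.filter fun j => ‖ctr j‖ < ρ) (by
    intro j hj x hx
    rw [Finset.mem_filter] at hj
    obtain ⟨hj1, hj2⟩ := hj
    obtain ⟨ht, hx2⟩ := h2 j hj1 x hx
    calc ‖x - (inner ℝ x e : ℝ) • e‖
        = ‖(x - (inner ℝ x e : ℝ) • e - (inner ℝ x e : ℝ) • ctr j) +
            (inner ℝ x e : ℝ) • ctr j‖ := by rw [sub_add_cancel]
      _ ≤ ‖x - (inner ℝ x e : ℝ) • e - (inner ℝ x e : ℝ) • ctr j‖ +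
            ‖(inner ℝ x e : ℝ) • ctr j‖ := norm_add_le _ _
      _ ≤ n * r / N * inner ℝ x e + inner ℝ x e * ‖ctr j‖ := by
          rw [norm_smul, Real.norm_eq_abs, abs_of_nonneg ht]
          linarith
      _ ≤ ρ * inner ℝ x e + inner ℝ x e * ρ := by gcongr
      _ = 2 * ρ * inner ℝ x e := by ring)
  have hTa : 0 ≤ T ^ ((n : ℝ) - p) := Real.rpow_nonneg (by linarith) _
  have hfin := main_arith (h0 := cH p e) (M := ∑ j ∈ near, mm' p e q K j)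
    (tl := ∑ j ∈ Finset.range J \ near, mm' p e q K j)
    (n0 := ∑ j ∈ near.filter fun j => ‖ctr j‖ < ρ, mm' p e q K j) (g := g) (σ := σ)
    (Q := q ^ ((n : ℝ) - p)) (ε' := (p - n) * (2 * ε)) (Ta := T ^ ((n : ℝ) - p)) hsplit
    (Finset.sum_nonneg fun j _ => hw j) (htl2.trans a2) hH (hn0.trans a1) hqa hqa1 (by positivity)
    hε2 hσ0 hσ1 hσ2 hTa (by
      refine lt_of_le_of_lt (add_le_add_left htl2 _) ?_
      exact a3)
  refine hfin.trans_le (le_trans ?_ hfan)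
  have hs := main_sum (S := near) (w := fun j => mm' p e q K j) (v := fun j => ‖ctr j‖)
    (Q := q ^ ((n : ℝ) - p)) (ε' := (p - n) * (2 * ε)) (Ta := T ^ ((n : ℝ) - p)) (a := p - n)
    (b := κ * τ / (4 * ((n : ℝ) - 1))) (ρ := ρ) (fun j _ => hw j) (by linarith) (by positivity)
    hρ.le (fun j _ => norm_nonneg _)
  refine le_trans (le_of_eq ?_) (hs.trans (le_of_eq ?_))
  · rw [hg]
  · refine Finset.sum_congr rfl fun j _ => ?_
    ring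

/-- The parameters.  `r = c4 κ^(-1/4)`, `T = 1 + c3 κ^(-1/2)`, `ρ = c2 p^(-n)`, then `q → 1`, `N → ∞`
(`ε → 0`).  See the paper proof (proofs row 460, (7), (8)).  With `M = ∑ near mm'`:
`M ≥ cH - tail`, `∑ (near, ‖ctr‖ ≥ ρ) mm' ≥ cH - tail - C ρ ≥ cH / 2`,
`tail ≤ C q^a (1 + c4² κ^(-1/2))^(-a/2)` (`tail_sum` with `R = √(1+r²)`), `kappa_small`, `exp_small`,
`cH_lower`, `cH_upper`. -/
theorem para_lt (n : ℕ) (hn : 2 ≤ n) (C τ κ1 δ : ℝ) (hC : 0 < C) (hτ : 0 < τ) (hκ1 : 0 < κ1)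
    (hδ : 0 < δ) :
    ∃ p0 : ℝ, (n : ℝ) < p0 ∧ ∀ p : ℝ, p0 ≤ p → ∀ e : E n, ‖e‖ = 1 → ∀ B : E n →L[ℝ] E n,
      ‖B‖ ≤ C → τ ≤ trp B e → ∀ κ : ℝ, 0 < κ → κ ≤ κ1 → ∀ F : Set (E n), Adm F →
      para e B κ δ ⊆ F → cH p e < cp p F := by
  have hn2 : (2 : ℝ) ≤ n := by exact_mod_cast hn
  have hm : 0 < (n : ℝ) - 1 := by linarith
  obtain ⟨CN, hCN, hnear⟩ := near_sum n hn
  obtain ⟨CT, hCT, htail⟩ := tail_sum n hn
  obtain ⟨cL, hcL, hlow⟩ := cH_lower n hn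
  obtain ⟨CU, hCU, hup⟩ := cH_upper n
  set w1 : ℝ := κ1 ^ (1 / 4 : ℝ) with hw1
  have hw1p : 0 < w1 := Real.rpow_pos_of_pos hκ1 _
  set c3 : ℝ := δ / w1 ^ 2 with hc3
  have hc3p : 0 < c3 := by positivity
  obtain ⟨c4, hc4p, hc4⟩ := exists_c4 (nn := (n : ℝ)) (C := C) (m := (n : ℝ) - 1) (τ := τ)
    (c3 := c3) (w1 := w1) (δ := δ) (by linarith) hC hm hτ hc3p hw1p hδ
  obtain ⟨C1, θ1, hC1, hθ1, hθ1', hk1⟩ := kappa_small (c := c4 ^ 2) (by positivity) hκ1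
  obtain ⟨C2, θ2, hC2, hθ2, hθ2', hk2⟩ := kappa_small (c := c3) hc3p hκ1
  set c2 : ℝ := min (1 / 4) (cL / (8 * CN)) with hc2
  have hc2p : 0 < c2 := lt_min (by norm_num) (by positivity)
  set c5 : ℝ := τ * c2 ^ 2 * cL / (16 * ((n : ℝ) - 1)) with hc5
  have hc5p : 0 < c5 := by positivity
  have hsq : 0 < Real.sqrt θ1 := Real.sqrt_pos.2 hθ1
  have hsq' : Real.sqrt θ1 < 1 := by
    rw [Real.sqrt_lt' one_pos, one_pow]
    exact hθ1'
  obtain ⟨pA, hpA1, hpA⟩ := exp_small hsq hsq' (2 * CT * C1 * (Real.sqrt θ1) ^ (-(n : ℝ))) (c5 / 4)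
    (by positivity) (3 * n)
  obtain ⟨pB, hpB1, hpB⟩ := exp_small hθ2 hθ2' (C2 * CU * θ2 ^ (-(n : ℝ))) (c5 / 4)
    (by positivity) (3 * n)
  obtain ⟨pC, hpC1, hpC⟩ := exp_small hsq hsq' (κ1 * (2 * CT * C1 * (Real.sqrt θ1) ^ (-(n : ℝ))))
    (cL / 4) (by positivity) n
  refine ⟨max (2 * n + 4) (max pA (max pB pC)), ?_, ?_⟩
  · refine lt_of_lt_of_le ?_ (le_max_left _ _)
    linarith
  intro p hp e he B hB hτB κ hκ hκκ F hF hpF
  have hp1 : 2 * (n : ℝ) + 4 ≤ p := (le_max_left _ _).trans hp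
  have hpA' : pA ≤ p := ((le_max_left _ _).trans (le_max_right _ _)).trans hp
  have hpB' : pB ≤ p :=
    (((le_max_left _ _).trans (le_max_right _ _)).trans (le_max_right _ _)).trans hp
  have hpC' : pC ≤ p :=
    (((le_max_right _ _).trans (le_max_right _ _)).trans (le_max_right _ _)).trans hp
  have hp0 : 0 < p := by linarith
  have hpn : (n : ℝ) < p := by linarith
  have hn1 : 1 ≤ n := by omega
  have hH := cH_pos hn1 hpn he
  have hlow' := hlow p (by linarith) e he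
  have hup' := hup p (by linarith) e he
  set w : ℝ := κ ^ (1 / 4 : ℝ) with hw
  have hwp : 0 < w := Real.rpow_pos_of_pos hκ _
  have hww : w ≤ w1 := Real.rpow_le_rpow hκ.le hκκ (by norm_num)
  have hw4 : w ^ 4 = κ := by
    rw [hw, ← Real.rpow_natCast, ← Real.rpow_mul hκ.le]
    norm_num
  have hw2 : κ ^ (-(1 / 2) : ℝ) = 1 / w ^ 2 := by
    rw [hw, ← Real.rpow_natCast, ← Real.rpow_mul hκ.le, Real.rpow_neg hκ.le, one_div]
    norm_num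
  obtain ⟨g1, g2, g3, g4⟩ := hc4 w hwp hww
  rw [hw4] at g1 g2 g3 g4
  set r : ℝ := c4 / w with hr
  have hrp : 0 < r := by positivity
  set T : ℝ := 1 + c3 / w ^ 2 with hT
  have hT1 : 1 < T := by
    have : 0 < c3 / w ^ 2 := by positivity
    linarith
  set ρ : ℝ := c2 * p ^ (-(n : ℝ)) with hρ
  have hρp : 0 < ρ := by positivity
  have hpn1 : p ^ (-(n : ℝ)) ≤ 1 :=
    Real.rpow_le_one_of_one_le_of_nonpos (by linarith) (by linarith)
  have hpnp : 0 < p ^ (-(n : ℝ)) := Real.rpow_pos_of_pos hp0 _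
  have hρ1 : 2 * ρ ≤ 1 := by
    have h1 : c2 ≤ 1 / 4 := min_le_left _ _
    nlinarith
  -- the tail
  have hR : (Real.sqrt (1 + r ^ 2)) ^ ((n : ℝ) - p) ≤
      κ * (C1 * (Real.sqrt θ1) ^ (-(n : ℝ)) * (Real.sqrt θ1) ^ p) := by
    have h1 := hk1 κ hκ hκκ ((p - n) / 2) (by linarith)
    have h2 : (Real.sqrt (1 + r ^ 2)) ^ ((n : ℝ) - p) =
        (1 + c4 ^ 2 * κ ^ (-(1 / 2) : ℝ)) ^ (-((p - n) / 2)) := by
      rw [Real.sqrt_eq_rpow, ← Real.rpow_mul (by positivity), hw2, hr]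
      congr 1
      · rw [div_pow]
        ring
      · ring
    have h3 : θ1 ^ ((p - n) / 2) = (Real.sqrt θ1) ^ (-(n : ℝ)) * (Real.sqrt θ1) ^ p := by
      rw [← Real.rpow_add hsq, Real.sqrt_eq_rpow, ← Real.rpow_mul hθ1.le]
      congr 1
      ring
    rw [h2]
    refine h1.trans (le_of_eq ?_)
    rw [h3]
    ring
  have hTT : T ^ ((n : ℝ) - p) ≤ κ * (C2 * θ2 ^ (-(n : ℝ)) * θ2 ^ p) := by
    have h1 := hk2 κ hκ hκκ (p - n) (by linarith)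
    have h2 : T ^ ((n : ℝ) - p) = (1 + c3 * κ ^ (-(1 / 2) : ℝ)) ^ (-(p - n)) := by
      rw [hw2, hT]
      congr 1
      · ring
      · ring
    have h3 : θ2 ^ (p - (n : ℝ)) = θ2 ^ (-(n : ℝ)) * θ2 ^ p := by
      rw [← Real.rpow_add hθ2]
      congr 1
      ring
    rw [h2]
    refine h1.trans (le_of_eq ?_)
    rw [h3]
    ring
  have h3n : p ^ (-(3 * (n : ℝ))) = p ^ (-(n : ℝ)) * (p ^ (-(n : ℝ))) ^ 2 := by
    rw [← Real.rpow_natCast (p ^ (-(n : ℝ))) 2, ← Real.rpow_mul hp0.le, ← Real.rpow_add hp0]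
    congr 1
    push_cast
    ring
  refine para_lt_aux hn (by linarith) he hB hC hτB hτ hκ hδ hrp hT1 hρp hρ1 g1 ?_ ?_ g3 g4
    (hnear p (by linarith) e he (2 * ρ) (by linarith) hρ1)
    (htail p hpn (by linarith) e he) hCT ?_ ?_ ?_ hF hpF
  · have : T - 1 = c3 / w ^ 2 := by rw [hT]; ring
    rw [this]
    exact g2
  · rw [hT]
    have h1 : c3 / w ^ 2 ≤ δ / κ := by
      rw [← hw4, hc3, div_div, div_le_div_iff_of_pos_left hδ (by positivity) (by positivity)]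
      have : w ^ 2 ≤ w1 ^ 2 := pow_le_pow_left₀ hwp.le hww 2
      nlinarith [sq_nonneg w]
    linarith
  · have h1 : c2 ≤ cL / (8 * CN) := min_le_right _ _
    have h2 : CN * (2 * ρ) ≤ cL * p ^ (-(n : ℝ)) / 4 := by
      rw [hρ]
      calc CN * (2 * (c2 * p ^ (-(n : ℝ)))) = 2 * CN * p ^ (-(n : ℝ)) * c2 := by ring
        _ ≤ 2 * CN * p ^ (-(n : ℝ)) * (cL / (8 * CN)) := by gcongr
        _ = cL * p ^ (-(n : ℝ)) / 4 := by
            field_simp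
            ring
    linarith
  · have h1 := hpC p hpC'
    have h2 : 2 * CT * (Real.sqrt (1 + r ^ 2)) ^ ((n : ℝ) - p) ≤
        κ1 * (2 * CT * C1 * (Real.sqrt θ1) ^ (-(n : ℝ))) * (Real.sqrt θ1) ^ p := by
      calc 2 * CT * (Real.sqrt (1 + r ^ 2)) ^ ((n : ℝ) - p)
          ≤ 2 * CT * (κ * (C1 * (Real.sqrt θ1) ^ (-(n : ℝ)) * (Real.sqrt θ1) ^ p)) := by gcongr
        _ ≤ 2 * CT * (κ1 * (C1 * (Real.sqrt θ1) ^ (-(n : ℝ)) * (Real.sqrt θ1) ^ p)) := by gcongr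
        _ = _ := by ring
    linarith
  · have h1 := hpA p hpA'
    have h2 := hpB p hpB'
    have h3 : 2 * CT * (Real.sqrt (1 + r ^ 2)) ^ ((n : ℝ) - p) ≤
        κ * (c5 / 4 * p ^ (-(3 * (n : ℝ)))) := by
      calc 2 * CT * (Real.sqrt (1 + r ^ 2)) ^ ((n : ℝ) - p)
          ≤ 2 * CT * (κ * (C1 * (Real.sqrt θ1) ^ (-(n : ℝ)) * (Real.sqrt θ1) ^ p)) := by gcongr
        _ = κ * (2 * CT * C1 * (Real.sqrt θ1) ^ (-(n : ℝ)) * (Real.sqrt θ1) ^ p) := by ring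
        _ ≤ _ := by gcongr
    have h4 : T ^ ((n : ℝ) - p) * cH p e ≤ κ * (c5 / 4 * p ^ (-(3 * (n : ℝ)))) := by
      have hTn : 0 ≤ T ^ ((n : ℝ) - p) := Real.rpow_nonneg (by linarith) _
      calc T ^ ((n : ℝ) - p) * cH p e
          ≤ κ * (C2 * θ2 ^ (-(n : ℝ)) * θ2 ^ p) * CU :=
            mul_le_mul hTT hup' hH.le (hTn.trans hTT)
        _ = κ * (C2 * CU * θ2 ^ (-(n : ℝ)) * θ2 ^ p) := by ring
        _ ≤ _ := by gcongr
    have h5 : κ * (c5 * p ^ (-(3 * (n : ℝ)))) ≤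
        (p - n) * (κ * τ / (4 * ((n : ℝ) - 1))) * ρ ^ 2 / 4 * cH p e := by
      have h6 : (1 : ℝ) ≤ p - n := by linarith
      calc κ * (c5 * p ^ (-(3 * (n : ℝ))))
          = 1 * (κ * τ / (4 * ((n : ℝ) - 1))) * ρ ^ 2 / 4 * (cL * p ^ (-(n : ℝ))) := by
            rw [h3n, hc5, hρ]
            field_simp
            ring
        _ ≤ (p - n) * (κ * τ / (4 * ((n : ℝ) - 1))) * ρ ^ 2 / 4 * cH p e := by
            gcongr
    have h7 : 0 < κ * (c5 * p ^ (-(3 * (n : ℝ)))) := by positivity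
    have h8 : κ * (c5 / 4 * p ^ (-(3 * (n : ℝ)))) = κ * (c5 * p ^ (-(3 * (n : ℝ)))) / 4 := by ring
    linarith

end HMor
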