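import Pool.Agent.W_55e37b_h43.FanLe
import Pool.Agent.W_55e37b_h43.BallCap
import Pool.Agent.W_55e37b_h43.Bump

set_option autoImplicit false

/-!
# MP_55e37b_an, large p: the distribution of the weights
-/

open MeasureTheory Metric Set Filter Topology
open scoped ENNReal

namespace HMor

variable {n : ℕ}

/-- `mm'` is nonnegative (`kk_nonneg`). -/
lemma mm'_nonneg {p : ℝ} (hp : (n : ℝ) < p) {e : E n} {J : ℕ} {K : ℕ → Set (E n)}
    (hK : Fan e J K) {q : ℝ} (hq : 1 < q) (j : ℕ) : 0 ≤ mm' p e q K j := by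
  have hr : q ^ ((n : ℝ) - p) < 1 := Real.rpow_lt_one_of_one_lt_of_neg hq (by linarith)
  exact div_nonneg (kk_nonneg p hK hq j) (by linarith)

/-- Total mass (`sum_kk`). -/
lemma sum_mm' {p : ℝ} (hn : 1 ≤ n) (hp : (n : ℝ) < p) {e : E n} (he : ‖e‖ = 1) {J : ℕ}
    {K : ℕ → Set (E n)} (hK : Fan e J K) {q : ℝ} (hq : 1 < q) :
    ∑ j ∈ Finset.range J, mm' p e q K j = cH p e := by
  have hn1 : (1 : ℝ) ≤ n := by exact_mod_cast hn
  have hr : q ^ ((n : ℝ) - p) < 1 := Real.rpow_lt_one_of_one_lt_of_neg hq (by linarith)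
  have h0 : (1 : ℝ) - q ^ ((n : ℝ) - p) ≠ 0 := by linarith
  unfold mm'
  rw [← Finset.sum_div, sum_kk (by linarith) he hK hq, mul_div_assoc, mul_comm,
    div_mul_cancel₀ _ h0]

/-- Tail: `fan_le` with `F = {R ≤ ‖x‖}`, `lam = 1`, `T → ∞`, and `ball_le`. -/
theorem tail_sum (n : ℕ) (hn : 2 ≤ n) : ∃ C : ℝ, 0 < C ∧ ∀ p : ℝ, (n : ℝ) < p → 2 ≤ p →
    ∀ (e : E n), ‖e‖ = 1 → ∀ (J : ℕ) (K : ℕ → Set (E n)), Fan e J K → ∀ q : ℝ, 1 < q →
    ∀ S : Finset ℕ, ∀ R : ℝ, 0 < R → (∀ j ∈ S, ∀ x ∈ K j, R * inner ℝ x e ≤ ‖x‖) →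
    ∑ j ∈ S, mm' p e q K j ≤ C * q ^ (p - (n : ℝ)) * R ^ ((n : ℝ) - p) := by
  obtain ⟨C, hC, hball⟩ := ball_le n
  refine ⟨C, hC, fun p hp hp2 e he J K hK q hq S R hR hS => ?_⟩
  have hq0 : 0 < q := by linarith
  have hT : ∀ T : ℝ, 0 < T → ∑ j ∈ S, mm' p e q K j * (q ^ ((n : ℝ) - p) - T ^ ((n : ℝ) - p)) ≤
      C * R ^ ((n : ℝ) - p) := by
    intro T hT
    have h1 := fan_le (by omega : 1 ≤ n) hp hK hq (ballc_adm hR) S (lam := fun _ => 1)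
      (fun _ _ => one_pos) hT (fun j hj x hx h1 _ => ?_)
    · simp only [mul_one] at h1
      exact h1.trans (hball p hp2 R hR)
    · show R ≤ ‖x‖
      have h1' : (1 : ℝ) ≤ inner ℝ x e := h1
      have h2 := hS j hj x hx
      nlinarith
  have h1 : ∑ j ∈ S, mm' p e q K j * (q ^ ((n : ℝ) - p) - 0) ≤ C * R ^ ((n : ℝ) - p) := by
    have h2 : Tendsto (fun T : ℝ => T ^ ((n : ℝ) - p)) atTop (𝓝 0) := by
      have h3 := tendsto_rpow_neg_atTop (y := p - (n : ℝ)) (by linarith)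
      rwa [neg_sub] at h3
    have h4 : Tendsto (fun T : ℝ => ∑ j ∈ S, mm' p e q K j *
        (q ^ ((n : ℝ) - p) - T ^ ((n : ℝ) - p))) atTop
        (𝓝 (∑ j ∈ S, mm' p e q K j * (q ^ ((n : ℝ) - p) - 0))) :=
      tendsto_finset_sum S fun j _ => (tendsto_const_nhds.sub h2).const_mul _
    refine le_of_tendsto h4 ?_
    filter_upwards [eventually_gt_atTop 0] with T hT'
    exact hT T hT'
  rw [← Finset.sum_mul, sub_zero] at h1
  have h2 : q ^ (p - (n : ℝ)) * q ^ ((n : ℝ) - p) = 1 := by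
    rw [← Real.rpow_add hq0]
    simp
  have h3 := mul_le_mul_of_nonneg_left h1 (Real.rpow_nonneg hq0.le (p - (n : ℝ)))
  calc ∑ j ∈ S, mm' p e q K j = (∑ j ∈ S, mm' p e q K j) *
        (q ^ (p - (n : ℝ)) * q ^ ((n : ℝ) - p)) := by rw [h2, mul_one]
    _ = q ^ (p - (n : ℝ)) * ((∑ j ∈ S, mm' p e q K j) * q ^ ((n : ℝ) - p)) := by ring
    _ ≤ q ^ (p - (n : ℝ)) * (C * R ^ ((n : ℝ) - p)) := h3
    _ = C * q ^ (p - (n : ℝ)) * R ^ ((n : ℝ) - p) := by ring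

/-- The raised wall in the coordinates of `cp`: compose the function of `bump_le` with
`x ↦ e - x` (`IsD.comp_sim` with `A = -1`, `b = e`, `t = 1`, `energy_comp_sim`). -/
lemma cp_bump (n : ℕ) (hn : 2 ≤ n) : ∃ C : ℝ, 0 < C ∧ ∀ p : ℝ, (n : ℝ) < p → ∀ e : E n,
    ‖e‖ = 1 → ∀ ρ : ℝ, 0 < ρ → ρ ≤ 1 → ∀ ε : ℝ, 0 < ε → ∃ h0 : ℝ, 0 < h0 ∧ h0 < 1 ∧ ∀ h : ℝ,
    0 < h → h < h0 →
    cp p (wall e 1 ∪ {x | 1 - h ≤ inner ℝ x e ∧ ‖x - (inner ℝ x e : ℝ) • e‖ ≤ ρ}) ≤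
      cH p e + h * (p * (C * ρ) + ε) := by
  obtain ⟨C, hC, hb⟩ := bump_le n hn
  refine ⟨C, hC, fun p hp e he ρ hρ hρ1 ε hε => ?_⟩
  obtain ⟨h0, hh0, hb'⟩ := hb p hp e he ρ hρ hρ1 ε hε
  have hn2 : (2 : ℝ) ≤ n := by exact_mod_cast hn
  have hp1 : 1 ≤ p := by linarith
  have hee : inner ℝ e e = (1 : ℝ) := by rw [real_inner_self_eq_norm_sq, he, one_pow]
  refine ⟨min h0 (1 / 2), by positivity, ?_, fun h hh hlt => ?_⟩
  · exact lt_of_le_of_lt (min_le_right _ _) (by norm_num)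
  obtain ⟨v, gv, hv, hv1, hv0, hvb, hE⟩ := hb' h hh (lt_of_lt_of_le hlt (min_le_left _ _))
  have hval : ∀ x : E n, e + (1 : ℝ) • (LinearIsometryEquiv.neg ℝ : E n ≃ₗᵢ[ℝ] E n) x = e - x := by
    intro x
    rw [one_smul, LinearIsometryEquiv.coe_neg, sub_eq_add_neg]
  have hcomp : Comp p (wall e 1 ∪ {x | 1 - h ≤ inner ℝ x e ∧ ‖x - (inner ℝ x e : ℝ) • e‖ ≤ ρ})
      (fun x => v (e + (1 : ℝ) • (LinearIsometryEquiv.neg ℝ : E n ≃ₗᵢ[ℝ] E n) x))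
      (fun x => (1 : ℝ) • (LinearIsometryEquiv.neg ℝ : E n ≃ₗᵢ[ℝ] E n).symm
        (gv (e + (1 : ℝ) • (LinearIsometryEquiv.neg ℝ : E n ≃ₗᵢ[ℝ] E n) x))) := by
    refine ⟨hv.comp_sim hp1 (LinearIsometryEquiv.neg ℝ) e one_pos, fun x hx => ?_, ?_⟩
    · show v (e + (1 : ℝ) • (LinearIsometryEquiv.neg ℝ : E n ≃ₗᵢ[ℝ] E n) x) = 0
      rw [hval]
      have hin : inner ℝ (e - x) e = 1 - (inner ℝ x e : ℝ) := by rw [inner_sub_left, hee]
      rcases hx with hx | hx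
      · have hx' : (1 : ℝ) ≤ inner ℝ x e := hx
        exact hv0 _ (by rw [hin]; linarith)
      · refine hvb _ (by rw [hin]; linarith [hx.1]) ?_
        have h3 : e - x - (1 - (inner ℝ x e : ℝ)) • e = -(x - (inner ℝ x e : ℝ) • e) := by
          rw [sub_smul, one_smul]
          abel
        rw [hin, h3, norm_neg]
        exact hx.2
    · show v (e + (1 : ℝ) • (LinearIsometryEquiv.neg ℝ : E n ≃ₗᵢ[ℝ] E n) 0) = 1
      rw [hval, sub_zero, hv1]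
  refine (cp_le hcomp).trans ?_
  rw [energy_comp_sim p gv _ e one_pos, Real.one_rpow, one_mul]
  exact hE

/-- Near the axis.  `near_le` with `h = 1 - q⁻¹`, `cp_bump` with `ε = p C ρ`, `cp_mono`:
`q^a ∑ kk ≤ h (2 p C ρ)`, `mm' = kk / (1 - q^(-a))`, `a = p - n ≥ 1`, `q^a - 1 ≥ a (q - 1)`, so
`∑ mm' ≤ 2 p C ρ / a ≤ 4 C ρ` for `p ≥ 2n`. -/
theorem near_sum (n : ℕ) (hn : 2 ≤ n) : ∃ C : ℝ, 0 < C ∧ ∀ p : ℝ, 2 * (n : ℝ) ≤ p → ∀ e : E n,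
    ‖e‖ = 1 → ∀ ρ : ℝ, 0 < ρ → ρ ≤ 1 → ∃ q0 : ℝ, 1 < q0 ∧ ∀ q : ℝ, 1 < q → q < q0 →
    ∀ (J : ℕ) (K : ℕ → Set (E n)), Fan e J K → ∀ S : Finset ℕ,
    (∀ j ∈ S, ∀ x ∈ K j, ‖x - (inner ℝ x e : ℝ) • e‖ ≤ ρ * inner ℝ x e) →
    ∑ j ∈ S, mm' p e q K j ≤ C * ρ := by
  obtain ⟨C, hC, hb⟩ := cp_bump n hn
  refine ⟨4 * C, by positivity, fun p hp e he ρ hρ hρ1 => ?_⟩
  have hn2 : (2 : ℝ) ≤ n := by exact_mod_cast hn
  have hp0 : 0 < p := by linarith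
  have hp1 : 1 ≤ p := by linarith
  have hpn : (n : ℝ) < p := by linarith
  obtain ⟨h0, hh0, hh1, hb'⟩ := hb p hpn e he ρ hρ hρ1 (p * (C * ρ)) (by positivity)
  refine ⟨(1 - h0)⁻¹, ?_, fun q hq hlt J K hK S hS => ?_⟩
  · rw [one_lt_inv₀ (by linarith)]
    linarith
  have hq0 : 0 < q := by linarith
  have h1h0 : 0 < 1 - h0 := by linarith
  have hqi : 1 - h0 < q⁻¹ := by
    rw [lt_inv_comm₀ h1h0 hq0]
    exact hlt
  have hqi1 : q⁻¹ < 1 := inv_lt_one_of_one_lt₀ hq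
  have hbq := hb' (1 - q⁻¹) (by linarith) (by linarith)
  have hadm : Adm (wall e 1 ∪ {x : E n | 1 - (1 - q⁻¹) ≤ inner ℝ x e ∧
      ‖x - (inner ℝ x e : ℝ) • e‖ ≤ ρ}) := by
    refine (wall_adm e one_pos).union ⟨?_, fun h => ?_⟩
    · have c1 : IsClosed {x : E n | 1 - (1 - q⁻¹) ≤ (inner ℝ x e : ℝ)} :=
        isClosed_le continuous_const (continuous_id.inner continuous_const)
      have c2 : IsClosed {x : E n | ‖x - (inner ℝ x e : ℝ) • e‖ ≤ ρ} := by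
        refine isClosed_le ?_ continuous_const
        fun_prop
      exact c1.inter c2
    · have h2 : 1 - (1 - q⁻¹) ≤ inner ℝ (0 : E n) e := h.1
      rw [inner_zero_left] at h2
      have h3 : 0 < q⁻¹ := inv_pos.2 hq0
      linarith
  have hC' : cp p (wall e 1 ∪ {x | ∃ j ∈ S, x ∈ cell e q K q⁻¹ j}) ≤
      cH p e + (1 - q⁻¹) * (p * (C * ρ) + p * (C * ρ)) := by
    refine (cp_mono ?_ hadm).trans hbq
    refine union_subset_union_right _ ?_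
    rintro x ⟨j, hj, hxK, hx1, hx2⟩
    rw [mul_inv_cancel₀ hq0.ne'] at hx2
    refine ⟨by linarith, (hS j hj x hxK).trans ?_⟩
    exact mul_le_of_le_one_right hρ.le hx2
  have hnear := near_le hp1 he hK hq S hC'
  have ha : 1 ≤ p - (n : ℝ) := by linarith
  have hbern : 1 + (p - (n : ℝ)) * (q - 1) ≤ q ^ (p - (n : ℝ)) := by
    have h2 := one_add_mul_self_le_rpow_one_add (s := q - 1) (by linarith) ha
    have h3 : 1 + (q - 1) = q := by ring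
    rwa [h3] at h2
  set a : ℝ := p - n with hadef
  set X : ℝ := ∑ j ∈ S, kk p e q K j with hX
  have hX0 : 0 ≤ X := Finset.sum_nonneg fun j _ => kk_nonneg p hK hq j
  have hqa : 0 < q ^ a := Real.rpow_pos_of_pos hq0 _
  have hr : q ^ ((n : ℝ) - p) = (q ^ a)⁻¹ := by
    rw [← Real.rpow_neg hq0.le, hadef, neg_sub]
  have hsum : ∑ j ∈ S, mm' p e q K j = q ^ a * X / (q ^ a - 1) := by
    unfold mm'
    rw [← Finset.sum_div, ← hX, hr]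
    have h2 : q ^ a - 1 ≠ 0 := by nlinarith
    have h3 : 1 - (q ^ a)⁻¹ ≠ 0 := by
      have h4 : (q ^ a)⁻¹ < 1 := inv_lt_one_of_one_lt₀ (by nlinarith)
      linarith
    rw [div_eq_div_iff h3 h2]
    field_simp
  have hden : 0 < q ^ a - 1 := by nlinarith
  rw [hsum, div_le_iff₀ hden]
  have h2 : q ^ a * X ≤ (1 - q⁻¹) * (2 * (p * (C * ρ))) := by linarith
  have h3 : (1 - q⁻¹) ≤ q - 1 := by
    have h4 : 1 - q⁻¹ = (q - 1) * q⁻¹ := by field_simp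
    rw [h4]
    exact mul_le_of_le_one_right (by linarith) hqi1.le
  have h4 : 0 ≤ p * (C * ρ) := by positivity
  have h5 : p ≤ 2 * a := by rw [hadef]; linarith
  calc q ^ a * X ≤ (1 - q⁻¹) * (2 * (p * (C * ρ))) := h2
    _ ≤ (q - 1) * (2 * (p * (C * ρ))) := mul_le_mul_of_nonneg_right h3 (by positivity)
    _ ≤ (q - 1) * (2 * (2 * a * (C * ρ))) := by
        refine mul_le_mul_of_nonneg_left ?_ (by linarith)
        have : p * (C * ρ) ≤ 2 * a * (C * ρ) := mul_le_mul_of_nonneg_right h5 (by positivity)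
        linarith
    _ = 4 * C * ρ * (a * (q - 1)) := by ring
    _ ≤ 4 * C * ρ * (q ^ a - 1) := mul_le_mul_of_nonneg_left (by linarith) (by positivity)

end HMor
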